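import Pool.Agent.Helper39.SC.Defs

/-!
# SC-08: the sum over the multiples of `d` in a window as a sum over blocks

PROOF. For fixed `j < J` let `A_j = ∑_(m ∈ Icc 1 M) cj c y H d (d * m - n) j * f (d * (m - j))`. A term is nonzero only if `y + d j < d m - n ≤ y + d j + H` (truncated subtraction; as
`0 ≤ y + d j` this forces `n < d m`), so `m > j` and with `h = d m - n - d j`, `y < h ≤ y + H`, `d ∣ n + h = d (m - j)` and the term is `c d h * f (n + h)`. The map `m ↦ h` is a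
bijection of these `m` with `Helper8.DW.mul n d y H`; its inverse is `h ↦ (n + h) / d + j ≤ (n + y + H) / d + J ≤ M`, and `(n + h) / d ≥ 1` as `h ≥ 1`. So every `A_j` is the sum on
the left side; average over `j` and exchange the sums.
`exchange`: for every `d ≥ 1`: the substitution `n = d m - h`.
`card_m`: the `m` with `y < d m - n ≤ y + H'`.
-/

set_option autoImplicit false

namespace Pool.Agent.Helper39.SC

open Finset

private theorem bl_A (c : ℕ → ℕ → ℝ) (f : ℕ → ℝ) (n d y H J M : ℕ) (hd : 1 ≤ d)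
    (hM : (n + y + H) / d + J ≤ M) (j : ℕ) (hj : j < J) :
    ∑ m ∈ Icc 1 M, cj c y H d (d * m - n) j * f (d * (m - j)) =
      ∑ h ∈ Helper8.DW.mul n d y H, c d h * f (n + h) := by
  symm
  have hmem : ∀ h ∈ Helper8.DW.mul n d y H, y < h ∧ h ≤ y + H ∧ d ∣ n + h := by
    intro h hh
    rw [Helper8.DW.mul, mem_filter, mem_Ioc] at hh
    exact ⟨hh.1.1, hh.1.2, hh.2⟩
  refine Finset.sum_bij_ne_zero (fun h _ _ => (n + h) / d + j) ?_ ?_ ?_ ?_
  · intro h hh _
    obtain ⟨h1, h2, h3⟩ := hmem h hh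
    rw [mem_Icc]
    have h4 : 1 ≤ (n + h) / d := by
      rw [Nat.one_le_div_iff (by omega)]
      exact Nat.le_of_dvd (by omega) h3
    have h5 : (n + h) / d ≤ (n + y + H) / d := Nat.div_le_div_right (by omega)
    omega
  · intro h₁ hh₁ _ h₂ hh₂ _ heq
    obtain ⟨_, _, h3⟩ := hmem h₁ hh₁
    obtain ⟨_, _, h3'⟩ := hmem h₂ hh₂
    have h6 : (n + h₁) / d = (n + h₂) / d := by
      have := heq
      omega
    have h7 : d * ((n + h₁) / d) = n + h₁ := Nat.mul_div_cancel' h3
    have h8 : d * ((n + h₂) / d) = n + h₂ := Nat.mul_div_cancel' h3'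
    rw [h6] at h7
    omega
  · intro m hm hne
    rw [mem_Icc] at hm
    have hcj : cj c y H d (d * m - n) j ≠ 0 := left_ne_zero_of_mul hne
    have hcond : y + d * j < d * m - n ∧ d * m - n ≤ y + d * j + H := by
      by_contra hc
      apply hcj
      rw [cj, if_neg hc]
    obtain ⟨hc1, hc2⟩ := hcond
    have hjm : j ≤ m := by
      by_contra hc
      have : d * m ≤ d * j := Nat.mul_le_mul_left d (by omega)
      omega
    have hmj : d * (m - j) = d * m - d * j := Nat.mul_sub d m j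
    have hle : d * j ≤ d * m := Nat.mul_le_mul_left d hjm
    set h := d * m - n - d * j with hh
    have hnh : n + h = d * (m - j) := by omega
    have hdiv : (n + h) / d = m - j := by
      rw [hnh, Nat.mul_div_cancel_left _ (by omega)]
    have hmul : h ∈ Helper8.DW.mul n d y H := by
      rw [Helper8.DW.mul, mem_filter, mem_Ioc]
      refine ⟨⟨by omega, by omega⟩, ?_⟩
      rw [hnh]
      exact Dvd.intro _ rfl
    refine ⟨h, hmul, ?_, ?_⟩
    · intro h0
      apply hne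
      rw [cj, if_pos ⟨hc1, hc2⟩, ← hh, ← hnh]
      exact h0
    · rw [hdiv]
      omega
  · intro h hh _
    obtain ⟨h1, h2, h3⟩ := hmem h hh
    have h7 : d * ((n + h) / d) = n + h := Nat.mul_div_cancel' h3
    have h8 : d * ((n + h) / d + j) - n = h + d * j := by
      rw [Nat.mul_add, h7]
      omega
    rw [h8, cj, if_pos ⟨by omega, by omega⟩, Nat.add_sub_cancel, Nat.add_sub_cancel, h7]

theorem blocks (c : ℕ → ℕ → ℝ) (f : ℕ → ℝ) (n d y H J M : ℕ) (hd : 1 ≤ d) (hJ : 1 ≤ J)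
    (hM : (n + y + H) / d + J ≤ M) :
    |∑ h ∈ Helper8.DW.mul n d y H, c d h * f (n + h)| ≤
      (1 / (J : ℝ)) * ∑ m ∈ Icc 1 M, |∑ j ∈ range J, cj c y H d (d * m - n) j * f (d * (m - j))| := by
  have hJ0 : (0 : ℝ) < (J : ℝ) := by exact_mod_cast hJ
  have h1 : (J : ℝ) * ∑ h ∈ Helper8.DW.mul n d y H, c d h * f (n + h) =
      ∑ m ∈ Icc 1 M, ∑ j ∈ range J, cj c y H d (d * m - n) j * f (d * (m - j)) := by
    rw [Finset.sum_comm]
    rw [Finset.sum_congr rfl fun j hj => bl_A c f n d y H J M hd hM j (mem_range.mp hj)]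
    rw [Finset.sum_const, card_range, nsmul_eq_mul]
  have h2 : (J : ℝ) * |∑ h ∈ Helper8.DW.mul n d y H, c d h * f (n + h)| ≤
      ∑ m ∈ Icc 1 M, |∑ j ∈ range J, cj c y H d (d * m - n) j * f (d * (m - j))| := by
    have h2' : (J : ℝ) * |∑ h ∈ Helper8.DW.mul n d y H, c d h * f (n + h)| =
        |(J : ℝ) * ∑ h ∈ Helper8.DW.mul n d y H, c d h * f (n + h)| := by
      rw [abs_mul, abs_of_pos hJ0]
    rw [h2', h1]
    exact Finset.abs_sum_le_sum_abs _ _
  rw [one_div, inv_mul_eq_div, le_div_iff₀ hJ0]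
  linarith

/-- The substitution `n = d m - h`. -/
theorem exchange (ν : ℕ → ℝ) (Φ : ℕ → ℕ → ℝ) (d y H' X M : ℕ) (hΦ : ∀ m h, Φ m h ≠ 0 → y < h ∧ h ≤ y + H') :
    ∑ n ∈ Icc 1 X, ν n * ∑ m ∈ Icc 1 M, Φ m (d * m - n) =
      ∑ h ∈ Ioc y (y + H'), ∑ m ∈ Icc 1 M, pw X ((d : ℤ) * m - h) * ν (d * m - h) * Φ m h := by
  simp only [Finset.mul_sum]
  rw [Finset.sum_comm]
  rw [Finset.sum_comm (s := Ioc y (y + H'))]
  refine Finset.sum_congr rfl fun m _ => ?_
  refine Finset.sum_bij_ne_zero (fun n _ _ => d * m - n) ?_ ?_ ?_ ?_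
  · intro n _ hne
    rw [mem_Ioc]
    exact hΦ m _ (right_ne_zero_of_mul hne)
  · intro n₁ _ hne₁ n₂ _ hne₂ heq
    have h1 := hΦ m _ (right_ne_zero_of_mul hne₁)
    have h2 := hΦ m _ (right_ne_zero_of_mul hne₂)
    omega
  · intro h hh hne
    rw [mem_Ioc] at hh
    have hpw : pw X ((d : ℤ) * m - h) ≠ 0 := left_ne_zero_of_mul (left_ne_zero_of_mul hne)
    have hcond : 1 ≤ (d : ℤ) * m - h ∧ (d : ℤ) * m - h ≤ X := by
      by_contra hc
      apply hpw
      rw [pw, if_neg hc]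
    obtain ⟨hc1, hc2⟩ := hcond
    have hdm : ((d * m : ℕ) : ℤ) = (d : ℤ) * m := by push_cast; ring
    have hx1 : h + 1 ≤ d * m := by
      zify
      linarith
    have hx2 : d * m ≤ X + h := by
      zify
      linarith
    refine ⟨d * m - h, ?_, ?_, ?_⟩
    · rw [mem_Icc]
      omega
    · have h3 : d * m - (d * m - h) = h := by omega
      rw [h3]
      rw [pw, if_pos ⟨hc1, hc2⟩, one_mul] at hne
      exact hne
    · omega
  · intro n hn hne
    rw [mem_Icc] at hn
    have h1 := hΦ m _ (right_ne_zero_of_mul hne)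
    have h3 : d * m - (d * m - n) = n := by omega
    have h4 : (d : ℤ) * m - ((d * m - n : ℕ) : ℤ) = n := by
      have : n ≤ d * m := by omega
      push_cast [Nat.cast_sub this]
      ring
    rw [h3, h4, pw, if_pos ⟨by exact_mod_cast hn.1, by exact_mod_cast hn.2⟩, one_mul]

theorem card_m (n d y H' M : ℕ) (hd : 1 ≤ d) :
    (((Icc 1 M).filter (fun m => y < d * m - n ∧ d * m - n ≤ y + H')).card : ℝ) ≤ H' / d + 1 := by
  have hd0 : (0 : ℝ) < (d : ℝ) := by exact_mod_cast hd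
  have hsub : (Icc 1 M).filter (fun m => y < d * m - n ∧ d * m - n ≤ y + H') ⊆
      Ioc ((n + y) / d) ((n + y + H') / d) := by
    intro m hm
    rw [mem_filter] at hm
    obtain ⟨_, h1, h2⟩ := hm
    rw [mem_Ioc]
    constructor
    · rw [Nat.div_lt_iff_lt_mul (by omega), mul_comm]
      omega
    · rw [Nat.le_div_iff_mul_le (by omega), mul_comm]
      omega
  have hcard := Finset.card_le_card hsub
  rw [Nat.card_Ioc] at hcard
  have h3 : (((Icc 1 M).filter (fun m => y < d * m - n ∧ d * m - n ≤ y + H')).card : ℝ) ≤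
      (((n + y + H') / d - (n + y) / d : ℕ) : ℝ) := by exact_mod_cast hcard
  have h4 : (n + y) / d ≤ (n + y + H') / d := Nat.div_le_div_right (by omega)
  rw [Nat.cast_sub h4] at h3
  have h5 : (((n + y + H') / d : ℕ) : ℝ) ≤ ((n + y + H' : ℕ) : ℝ) / d := Nat.cast_div_le
  have h6 : ((n + y : ℕ) : ℝ) / d < (((n + y) / d : ℕ) : ℝ) + 1 := by
    rw [div_lt_iff₀ hd0]
    have := Nat.lt_mul_of_div_lt (Nat.lt_succ_self ((n + y) / d)) (by omega : 0 < d)
    have h7 : ((n + y : ℕ) : ℝ) < ((((n + y) / d).succ * d : ℕ) : ℝ) := by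
      exact_mod_cast (by rw [mul_comm] at this; rw [mul_comm]; exact this)
    push_cast at h7 ⊢
    exact h7
  have h8 : ((n + y + H' : ℕ) : ℝ) / d = ((n + y : ℕ) : ℝ) / d + (H' : ℝ) / d := by
    push_cast
    ring
  linarith

end Pool.Agent.Helper39.SC
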