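import Pool.Agent.Helper39.SC.Defs
import Pool.Agent.Helper40.DB.Fund

/-!
# SC-01: the number of the integers `m` for which no form of `T` has a prime factor in `(N, z]`

MODEL: `Pool/Agent/Helper39/SP/CorrD.lean` (theorem `corrD`), which is the same for the forms `W m + d` with a common slope.
PROOF. `C` is the constant of `Helper40.DB.fund t`; `P = PP N z`, `t ≤ N < p` for `p ∈ P`. With `m = a - 1 + x`, `x ∈ [1, L]`: `nuT N z T m = V^(-|T|)` if no
`p ∈ P` divides one of the `w.1 (a - 1 + x) + w.2`, and `0` otherwise. Let `Z p = {x < p | ∃ w ∈ T, p ∣ w.1 (a - 1 + x) + w.2}`; the condition on `x` depends on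
`x % p` only, and `(Z p).card = rhoT T p` (`x ↦ (a - 1 + x) mod p` is a bijection of the residues). By `Prim`, each `w` has no zero modulo `p` if `p ∣ w.1` and
exactly one otherwise, so `rhoT T p ≤ T.card ≤ t`. Multiply `fund` by `V^(-|T|) ≤ V^(-t)` (`0 < V ≤ 1`); `V^(-|T|) ∏ (1 - rhoT/p) = SST N z T`.
-/

set_option autoImplicit false

namespace Pool.Agent.Helper39.SC

open Finset
open Pool.Agent.Helper40.DB (PP VV DD)

private lemma rhoT_eq (T : Finset (ℤ × ℤ)) (p : ℕ) : rhoT T p =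
    (open Classical in ((range p).filter fun m : ℕ => ∃ w ∈ T, (p : ℤ) ∣ w.1 * (m : ℤ) + w.2).card) := by
  classical
  unfold rhoT
  symm
  refine card_bij (fun (m : ℕ) _ => (m : ℤ)) ?_ ?_ ?_
  · intro m hm
    rw [mem_filter] at hm ⊢
    refine ⟨?_, hm.2⟩
    refine (@Finset.mem_sup _ _ (fun a b => Classical.propDecidable (a = b)) _ _ _).2 ⟨m, hm.1, ?_⟩
    exact Finset.mem_singleton_self _
  · intro m _ m' _ h
    exact_mod_cast h
  · intro y hy
    rw [mem_filter] at hy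
    obtain ⟨hy1, hy2⟩ := hy
    obtain ⟨m, hm, hym⟩ := (@Finset.mem_sup _ _ (fun a b => Classical.propDecidable (a = b)) _ _ _).1 hy1
    have hym' : y = (m : ℤ) := Finset.mem_singleton.1 hym
    subst hym'
    exact ⟨m, mem_filter.2 ⟨hm, hy2⟩, rfl⟩

/-- The forbidden residue classes. -/
private noncomputable def forbT (a : ℤ) (T : Finset (ℤ × ℤ)) (p : ℕ) : Finset ℕ :=
  open Classical in (range p).filter fun x => ∃ w ∈ T, (p : ℤ) ∣ w.1 * (a - 1 + (x : ℤ)) + w.2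

private lemma forbT_sub (a : ℤ) (T : Finset (ℤ × ℤ)) (p : ℕ) : forbT a T p ⊆ range p :=
  filter_subset _ _

private lemma dvd_congr_aux {p : ℕ} {u v x y : ℤ} (h : (p : ℤ) ∣ x - y) :
    (p : ℤ) ∣ u * x + v ↔ (p : ℤ) ∣ u * y + v := by
  have h1 : u * x + v = u * y + v + u * (x - y) := by ring
  rw [h1]
  exact dvd_add_left (Dvd.dvd.mul_left h u)

private lemma mem_forbT (a : ℤ) (T : Finset (ℤ × ℤ)) {p : ℕ} (hp : 0 < p) (x : ℕ) :
    x % p ∈ forbT a T p ↔ ∃ w ∈ T, (p : ℤ) ∣ w.1 * (a - 1 + (x : ℤ)) + w.2 := by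
  classical
  unfold forbT
  rw [mem_filter, mem_range]
  have h1 : (p : ℤ) ∣ (a - 1 + ((x % p : ℕ) : ℤ)) - (a - 1 + (x : ℤ)) := by
    have h2 : (a - 1 + ((x % p : ℕ) : ℤ)) - (a - 1 + (x : ℤ)) = -((x : ℤ) - (x : ℤ) % (p : ℤ)) := by
      push_cast
      ring
    rw [h2, dvd_neg]
    exact Int.dvd_self_sub_emod
  constructor
  · rintro ⟨_, w, hw, hd⟩
    exact ⟨w, hw, (dvd_congr_aux h1).1 hd⟩
  · rintro ⟨w, hw, hd⟩
    exact ⟨Nat.mod_lt _ hp, w, hw, (dvd_congr_aux h1).2 hd⟩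

private lemma forbT_card (a : ℤ) (T : Finset (ℤ × ℤ)) {p : ℕ} (hp : 0 < p) :
    (forbT a T p).card = rhoT T p := by
  classical
  have hp' : (0 : ℤ) < p := by exact_mod_cast hp
  rw [rhoT_eq]
  unfold forbT
  have key : ∀ y : ℤ, (((y % p).toNat : ℕ) : ℤ) = y % p := fun y =>
    Int.toNat_of_nonneg (Int.emod_nonneg _ hp'.ne')
  have lt : ∀ y : ℤ, (y % p).toNat < p := by
    intro y
    have h1 := Int.emod_lt_of_pos y hp'
    have h2 := key y
    omega
  refine card_nbij' (fun x => ((a - 1 + (x : ℤ)) % p).toNat) (fun m => (((m : ℤ) - (a - 1)) % p).toNat)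
    ?_ ?_ ?_ ?_
  · intro x hx
    rw [mem_coe, mem_filter, mem_range] at hx ⊢
    obtain ⟨_, w, hw, hd⟩ := hx
    refine ⟨lt _, w, hw, ?_⟩
    rw [key]
    refine (dvd_congr_aux ?_).1 hd
    exact Int.dvd_self_sub_emod
  · intro m hm
    rw [mem_coe, mem_filter, mem_range] at hm ⊢
    obtain ⟨_, w, hw, hd⟩ := hm
    refine ⟨lt _, w, hw, ?_⟩
    rw [key]
    refine (dvd_congr_aux ?_).1 hd
    have h1 : (m : ℤ) - (a - 1 + ((m : ℤ) - (a - 1)) % p) =
        ((m : ℤ) - (a - 1)) - ((m : ℤ) - (a - 1)) % p := by ring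
    rw [h1]
    exact Int.dvd_self_sub_emod
  · intro x hx
    rw [mem_coe, mem_filter, mem_range] at hx
    have h1 : ((((((a - 1 + (x : ℤ)) % p).toNat : ℕ) : ℤ) - (a - 1)) % p) = (x : ℤ) := by
      rw [key, Int.sub_emod, Int.emod_emod, ← Int.sub_emod]
      have h2 : a - 1 + (x : ℤ) - (a - 1) = x := by ring
      rw [h2]
      exact Int.emod_eq_of_lt (by positivity) (by exact_mod_cast hx.1)
    simp only []
    rw [h1]
    exact Int.toNat_natCast x
  · intro m hm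
    rw [mem_coe, mem_filter, mem_range] at hm
    have h1 : ((a - 1 + ((((m : ℤ) - (a - 1)) % p).toNat : ℤ)) % p) = (m : ℤ) := by
      rw [key, Int.add_emod, Int.emod_emod, ← Int.add_emod]
      have h2 : a - 1 + ((m : ℤ) - (a - 1)) = m := by ring
      rw [h2]
      exact Int.emod_eq_of_lt (by positivity) (by exact_mod_cast hm.1)
    simp only []
    rw [h1]
    exact Int.toNat_natCast m

private lemma rhoT_le {N z : ℕ} {T : Finset (ℤ × ℤ)} (hT : Prim N z T) {p : ℕ} (hp : p ∈ PP N z)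
    (hpp : p.Prime) : rhoT T p ≤ T.card := by
  classical
  rw [rhoT_eq]
  have hsub : ((range p).filter fun m : ℕ => ∃ w ∈ T, (p : ℤ) ∣ w.1 * (m : ℤ) + w.2) ⊆
      T.biUnion fun w => (range p).filter fun m : ℕ => (p : ℤ) ∣ w.1 * (m : ℤ) + w.2 := by
    intro m hm
    rw [mem_filter] at hm
    obtain ⟨hm1, w, hw, hd⟩ := hm
    exact mem_biUnion.2 ⟨w, hw, mem_filter.2 ⟨hm1, hd⟩⟩
  refine (card_le_card hsub).trans (card_biUnion_le.trans ?_)
  have h1 : ∀ w ∈ T, ((range p).filter fun m : ℕ => (p : ℤ) ∣ w.1 * (m : ℤ) + w.2).card ≤ 1 := by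
    intro w hw
    rw [card_le_one]
    intro m hm m' hm'
    rw [mem_filter, mem_range] at hm hm'
    have hpi : Prime (p : ℤ) := Nat.prime_iff_prime_int.1 hpp
    by_cases hw1 : (p : ℤ) ∣ w.1
    · exfalso
      refine hT w hw p hp hw1 ?_
      exact (dvd_add_right (Dvd.dvd.mul_right hw1 _)).1 hm.2
    · have h2 : (p : ℤ) ∣ w.1 * ((m : ℤ) - m') := by
        have h3 := dvd_sub hm.2 hm'.2
        have h4 : w.1 * (m : ℤ) + w.2 - (w.1 * (m' : ℤ) + w.2) = w.1 * ((m : ℤ) - m') := by ring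
        rwa [h4] at h3
      have h3 := (hpi.dvd_or_dvd h2).resolve_left hw1
      have h4 := Int.eq_zero_of_abs_lt_dvd h3 (by
        rw [abs_lt]
        constructor <;> omega)
      omega
  calc ∑ w ∈ T, ((range p).filter fun m : ℕ => (p : ℤ) ∣ w.1 * (m : ℤ) + w.2).card
      ≤ ∑ _w ∈ T, 1 := sum_le_sum h1
    _ = T.card := by rw [sum_const, smul_eq_mul, mul_one]

private lemma VV_pos' (N z : ℕ) : 0 < VV N z := by
  unfold VV
  apply prod_pos
  intro p hp
  have h1 : p.Prime := (mem_filter.1 hp).2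
  have h2 : (2 : ℝ) ≤ p := by exact_mod_cast h1.two_le
  have h3 : 1 / (p : ℝ) ≤ 1 / 2 := one_div_le_one_div_of_le (by norm_num) h2
  linarith

private lemma VV_le_one' (N z : ℕ) : VV N z ≤ 1 := by
  unfold VV
  apply prod_le_one
  · intro p hp
    have h1 : p.Prime := (mem_filter.1 hp).2
    have h2 : (2 : ℝ) ≤ p := by exact_mod_cast h1.two_le
    have h3 : 1 / (p : ℝ) ≤ 1 / 2 := one_div_le_one_div_of_le (by norm_num) h2
    linarith
  · intro p _
    have : 0 ≤ 1 / (p : ℝ) := by positivity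
    linarith

theorem corrT (t : ℕ) : ∃ C : ℝ, 0 ≤ C ∧ ∀ (N z : ℕ), t ≤ N → ∀ E : ℕ, Nat.log 2 z ≤ E →
    ∀ T : Finset (ℤ × ℤ), T.card ≤ t → Prim N z T → ∀ b : ℕ, 1 ≤ b → ∀ (a : ℤ) (L : ℕ),
    |∑ m ∈ Ico a (a + L), nuT N z T m - L * SST N z T| ≤
      C * (1 / 4) ^ b * (L * SST N z T) + (VV N z)⁻¹ ^ t * ((2 * E + 3) * 2 ^ (20 * E * (b + 2))) := by
  classical
  obtain ⟨C, hC0, hC⟩ := Pool.Agent.Helper40.DB.fund t
  refine ⟨C, hC0, ?_⟩
  intro N z hN E hE T hT hPrim b hb a L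
  have hP : ∀ p ∈ PP N z, p.Prime ∧ t < p := by
    intro p hp
    unfold PP at hp
    rw [mem_filter, mem_Ioc] at hp
    exact ⟨hp.2, lt_of_le_of_lt hN hp.1.1⟩
  have hlog : ∀ p ∈ PP N z, Nat.log 2 p ≤ E := by
    intro p hp
    unfold PP at hp
    rw [mem_filter, mem_Ioc] at hp
    exact (Nat.log_mono_right hp.1.2).trans hE
  have hZ : ∀ p ∈ PP N z, forbT a T p ⊆ range p ∧ (forbT a T p).card ≤ t := by
    intro p hp
    refine ⟨forbT_sub a T p, ?_⟩
    rw [forbT_card a T (hP p hp).1.pos]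
    exact (rhoT_le hPrim hp (hP p hp).1).trans hT
  have hf := hC (PP N z) hP E hlog (forbT a T) hZ b hb L
  set S : Finset ℕ := (Icc 1 L).filter (fun m => ∀ p ∈ PP N z, m % p ∉ forbT a T p) with hS
  have hprod : ∏ p ∈ PP N z, (1 - ((forbT a T p).card : ℝ) / p) =
      ∏ p ∈ PP N z, (1 - (rhoT T p : ℝ) / p) := by
    apply prod_congr rfl
    intro p hp
    rw [forbT_card a T (hP p hp).1.pos]
  rw [hprod] at hf
  have hsum : ∑ m ∈ Ico a (a + L), nuT N z T m = (VV N z)⁻¹ ^ T.card * S.card := by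
    have h1 : ∑ m ∈ Ico a (a + L), nuT N z T m =
        ∑ x ∈ Icc 1 L, nuT N z T (a - 1 + (x : ℤ)) := by
      refine sum_nbij' (fun m => (m - a + 1).toNat) (fun x => a - 1 + (x : ℤ)) ?_ ?_ ?_ ?_ ?_
      · intro m hm
        rw [mem_Ico] at hm
        rw [mem_Icc]
        omega
      · intro x hx
        rw [mem_Icc] at hx
        rw [mem_Ico]
        omega
      · intro m hm
        rw [mem_Ico] at hm
        omega
      · intro x hx
        rw [mem_Icc] at hx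
        omega
      · intro m hm
        rw [mem_Ico] at hm
        congr 1
        omega
    rw [h1]
    have h2 : ∀ x ∈ Icc 1 L, nuT N z T (a - 1 + (x : ℤ)) =
        if ∀ p ∈ PP N z, x % p ∉ forbT a T p then (VV N z)⁻¹ ^ T.card else 0 := by
      intro x _
      unfold nuT
      have h3 : (∀ p ∈ PP N z, ∀ w ∈ T, ¬ (p : ℤ) ∣ w.1 * (a - 1 + (x : ℤ)) + w.2) ↔
          ∀ p ∈ PP N z, x % p ∉ forbT a T p := by
        constructor
        · intro h p hp hx
          obtain ⟨d, hd, hdv⟩ := (mem_forbT a T (hP p hp).1.pos x).1 hx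
          exact h p hp d hd hdv
        · intro h p hp d hd hdv
          exact h p hp ((mem_forbT a T (hP p hp).1.pos x).2 ⟨d, hd, hdv⟩)
      by_cases h4 : ∀ p ∈ PP N z, x % p ∉ forbT a T p
      · rw [if_pos h4, if_pos (h3.2 h4)]
      · rw [if_neg h4, if_neg (fun h => h4 (h3.1 h))]
    rw [sum_congr rfl h2, ← sum_filter, sum_const, nsmul_eq_mul, mul_comm]
  have hSS : SST N z T = (VV N z)⁻¹ ^ T.card * ∏ p ∈ PP N z, (1 - (rhoT T p : ℝ) / p) := by
    unfold SST VV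
    rw [prod_div_distrib, prod_pow, inv_pow, div_eq_mul_inv, mul_comm]
  have hV := VV_pos' N z
  have hV1 : 1 ≤ (VV N z)⁻¹ := (one_le_inv₀ hV).2 (VV_le_one' N z)
  rw [hsum, hSS]
  set U : ℝ := (VV N z)⁻¹ ^ T.card with hU
  have hU0 : 0 < U := by positivity
  have hUle : U ≤ (VV N z)⁻¹ ^ t := pow_le_pow_right₀ hV1 hT
  set R : ℝ := ∏ p ∈ PP N z, (1 - (rhoT T p : ℝ) / p) with hR
  have e1 : U * (S.card : ℝ) - L * (U * R) = U * ((S.card : ℝ) - L * R) := by ring
  rw [e1, abs_mul, abs_of_pos hU0]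
  calc U * |(S.card : ℝ) - L * R|
      ≤ U * (C * (1 / 4) ^ b * (L * R) + (2 * E + 3) * 2 ^ (20 * E * (b + 2))) :=
        mul_le_mul_of_nonneg_left hf hU0.le
    _ = C * (1 / 4) ^ b * (L * (U * R)) + U * ((2 * E + 3) * 2 ^ (20 * E * (b + 2))) := by ring
    _ ≤ _ := by
        gcongr

end Pool.Agent.Helper39.SC
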