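import Pool.Agent.Helper39.SP.Defs
import Pool.Agent.Helper8.DW.Defs

/-!
# Project SC (MP_e6fa8b): averaged Hardy-Littlewood-Chowla below the critical range: definitions
-/

set_option autoImplicit false

namespace Pool.Agent.Helper39.SC

open Finset
open Pool.Agent.Helper40.DB (PP VV DD)

/-- The normalised indicator function of the integers `m` such that no form `u m + v`, `(u, v) ∈ T`, is divisible by a
prime of `(N, z]`. -/
noncomputable def nuT (N z : ℕ) (T : Finset (ℤ × ℤ)) (m : ℤ) : ℝ :=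
  open Classical in if ∀ p ∈ PP N z, ∀ w ∈ T, ¬ (p : ℤ) ∣ w.1 * m + w.2 then (VV N z)⁻¹ ^ T.card else 0

/-- The number of the zeros modulo `p` of the forms. -/
noncomputable def rhoT (T : Finset (ℤ × ℤ)) (p : ℕ) : ℕ :=
  open Classical in ((range p).filter fun m => ∃ w ∈ T, (p : ℤ) ∣ w.1 * (m : ℤ) + w.2).card

/-- The singular series over the primes in `(N, z]`. -/
noncomputable def SST (N z : ℕ) (T : Finset (ℤ × ℤ)) : ℝ :=
  ∏ p ∈ PP N z, ((1 - (rhoT T p : ℝ) / p) / (1 - 1 / (p : ℝ)) ^ T.card)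

/-- No prime in `(N, z]` divides both coefficients of a form. -/
def Prim (N z : ℕ) (T : Finset (ℤ × ℤ)) : Prop :=
  ∀ w ∈ T, ∀ p ∈ PP N z, (p : ℤ) ∣ w.1 → ¬ (p : ℤ) ∣ w.2

/-- The product of the `(1 - 1 / p)⁻¹` over the primes of `(N, z]` which divide `u`. -/
noncomputable def kk (N z : ℕ) (u : ℤ) : ℝ :=
  open Classical in ∏ p ∈ (PP N z).filter (fun p => (p : ℤ) ∣ u), (1 - 1 / (p : ℝ))⁻¹

/-- The local factors at the primes of `(N, z]` which divide `t` and not `e`, minus one. -/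
noncomputable def g2 (C : ℝ) (N z : ℕ) (e t : ℤ) : ℝ :=
  open Classical in ∏ p ∈ (DD N z t).filter (fun p => ¬ (p : ℤ) ∣ e), (1 + C / (p : ℝ)) - 1

/-- The normalised indicator function of the integers `n` such that no `n + a i` has a prime factor in `(N, z]`. -/
noncomputable def nuZ {k : ℕ} (a : Fin k → ℕ) (N z : ℕ) (n : ℤ) : ℝ :=
  open Classical in if ∀ p ∈ PP N z, ∀ i, ¬ (p : ℤ) ∣ n + a i then (VV N z)⁻¹ ^ k else 0

/-- The difference of the sieve weight and of its expected value `κ ^ k` on a progression. -/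
noncomputable def phZ {k : ℕ} (a : Fin k → ℕ) (N z : ℕ) (κ : ℝ) (n : ℤ) : ℝ :=
  nuZ a 0 N n * (nuZ a N z n - κ ^ k)

/-- The forms `d m + (a i - h)` are primitive. -/
def PrimD {k : ℕ} (a : Fin k → ℕ) (d : ℕ) (h : ℤ) : Prop :=
  ∀ i, IsCoprime (d : ℤ) ((a i : ℤ) - h)

/-- The indicator function of `[1, X]`. -/
noncomputable def pw (X : ℕ) (n : ℤ) : ℝ := if 1 ≤ n ∧ n ≤ X then 1 else 0

/-- The remainder term of the sieve. -/
noncomputable def Rem (k N z b : ℕ) : ℝ :=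
  (N.factorial : ℝ) * ((VV N z)⁻¹ ^ (2 * k) * ((2 * (Nat.log 2 z : ℝ) + 3) * 2 ^ (20 * Nat.log 2 z * (b + 2))))

/-- The coefficient `c d (h - d j)` if `y < h - d j ≤ y + H`, and `0` otherwise. -/
noncomputable def cj (c : ℕ → ℕ → ℝ) (y H d h j : ℕ) : ℝ :=
  if y + d * j < h ∧ h ≤ y + d * j + H then c d (h - d * j) else 0

/-- The absolute value of the sum over the multiples of `e`, with coefficients. -/
noncomputable def Tc (c : ℕ → ℝ) (b : ℕ → ℝ) (y H n e : ℕ) : ℝ :=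
  |∑ h ∈ Helper8.DW.mul n e y H, c h * b (ArithmeticFunction.cardFactors (n + h))|

theorem nuZ_nat {k : ℕ} (a : Fin k → ℕ) (N z n : ℕ) : nuZ a N z (n : ℤ) = SP.nuA a N z n := by
  unfold nuZ SP.nuA
  have h : (∀ p ∈ PP N z, ∀ i, ¬ (p : ℤ) ∣ (n : ℤ) + a i) ↔ (∀ p ∈ PP N z, ∀ i, ¬ p ∣ n + a i) := by
    refine forall₂_congr fun p _ => forall_congr' fun i => ?_
    rw [← Nat.cast_add, Int.natCast_dvd_natCast]
  simp only [h]

end Pool.Agent.Helper39.SC
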