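import Pool.Agent.Helper39.SC.PairsC
import Pool.Agent.Helper8.DW.Dil

/-!
# SC-12: Turán-Kubilius in the windows, with coefficients

MODEL: `tk_d` and `dil` in `Pool/Agent/Helper8/DW/Dil.lean`; copy the proofs (and the private lemmas), replacing `Tm b y H n d` by `Tc (c d) b y H n d` and `Tm b y H n (d * p)` by
`Tc (c d) b y H n (d * p)`.
PROOF of `tk_c`: `Helper8.DW.tk_window` holds for every function bounded by `1`, here `m ↦ c (d m - n) * b (Ω (d m))`.
PROOF of `dil_c`: as `dil`, with `pairs_c` instead of `pairs_bound`; the only change is the constant `K` of `pairs_c`: a block `S_j` is rich if `K (log X)^k ≤ D |S_j| H`. For the other blocks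
`(D |S_j| H)^(4 r) < K^(4 r) (log X)^(4 r k)` and the hypothesis give `|S_j|^(4 r) D ≤ K^(4 r) H`, so `|S_j|^2 ≤ 8 K^2 Z`, `|S_j| / 2^j ≤ 6 K / √Z`; `few_blocks` is applied with
`ε / (144 C K)` (`K ≥ 1`).
-/

set_option autoImplicit false

namespace Pool.Agent.Helper39.SC

open Finset
open Pool.Agent.Helper83.HLC (GG W)

private theorem sc_bad_card (δ : ℝ) (hδ : 0 < δ) : ∃ C0 : ℝ, 0 < C0 ∧ ∀ D : ℕ,
    (((Ico D (2 * D)).filter (fun d => ¬ W d ≤ C0)).card : ℝ) ≤ δ * D := by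
  obtain ⟨C, hC, hs⟩ := Helper83.HLC.sum_W_pow 1
  refine ⟨2 * C / δ, by positivity, fun D => ?_⟩
  have h1 := hs (2 * D)
  simp only [pow_one] at h1
  have h3 : (((Ico D (2 * D)).filter (fun d => ¬ W d ≤ 2 * C / δ)).card : ℝ) * (2 * C / δ) ≤
      C * ((2 * D : ℕ) : ℝ) := by
    rcases Nat.eq_zero_or_pos D with hD | hD
    · subst hD
      simp
    refine le_trans ?_ h1
    calc (((Ico D (2 * D)).filter (fun d => ¬ W d ≤ 2 * C / δ)).card : ℝ) * (2 * C / δ) =
        ∑ _d ∈ (Ico D (2 * D)).filter (fun d => ¬ W d ≤ 2 * C / δ), 2 * C / δ := by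
          rw [Finset.sum_const, nsmul_eq_mul]
      _ ≤ ∑ d ∈ (Ico D (2 * D)).filter (fun d => ¬ W d ≤ 2 * C / δ), W d :=
          Finset.sum_le_sum fun d hd => (not_le.1 (Finset.mem_filter.1 hd).2).le
      _ ≤ ∑ d ∈ Icc 1 (2 * D), W d := by
          refine Finset.sum_le_sum_of_subset_of_nonneg ?_ fun d _ _ =>
            zero_le_one.trans (Helper83.HLC.one_le_W d)
          intro d hd
          have h4 := Finset.mem_Ico.1 (Finset.mem_filter.1 hd).1
          rw [Finset.mem_Icc]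
          omega
  push_cast at h3
  have h4 : (((Ico D (2 * D)).filter (fun d => ¬ W d ≤ 2 * C / δ)).card : ℝ) * (2 * C / δ) =
      (((Ico D (2 * D)).filter (fun d => ¬ W d ≤ 2 * C / δ)).card : ℝ) / δ * (2 * C) := by ring
  rw [h4, show C * (2 * (D : ℝ)) = D * (2 * C) by ring] at h3
  have h5 := le_of_mul_le_mul_right h3 (by positivity)
  rw [div_le_iff₀ hδ] at h5
  linarith

private theorem sc_le_W_totient (d : ℕ) : (d : ℝ) ≤ W d * Nat.totient d := by
  have h1 : (Nat.totient d : ℝ) = d * ∏ p ∈ d.primeFactors, (1 - (p : ℝ)⁻¹) := by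
    have h2 := Nat.totient_eq_mul_prod_factors d
    have h3 : ((Nat.totient d : ℚ) : ℝ) = ((d * ∏ p ∈ d.primeFactors, (1 - (p : ℚ)⁻¹) : ℚ) : ℝ) := by
      rw [h2]
    push_cast at h3
    exact h3
  rw [h1]
  have h2 : 1 ≤ ∏ p ∈ d.primeFactors, ((1 + 2 / (p : ℝ)) * (1 - (p : ℝ)⁻¹)) := by
    have h4 : ∏ _p ∈ d.primeFactors, (1 : ℝ) ≤ ∏ p ∈ d.primeFactors, ((1 + 2 / (p : ℝ)) * (1 - (p : ℝ)⁻¹)) := by
      refine Finset.prod_le_prod (fun _ _ => zero_le_one) fun p hp => ?_
      have h5 : (2 : ℝ) ≤ p := by exact_mod_cast (Nat.prime_of_mem_primeFactors hp).two_le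
      have h6 : (0 : ℝ) < p := by linarith
      have h7 : (1 + 2 / (p : ℝ)) * (1 - (p : ℝ)⁻¹) = 1 + (p - 2) / p ^ 2 := by
        field_simp
        ring
      rw [h7]
      have h8 : 0 ≤ ((p : ℝ) - 2) / p ^ 2 := div_nonneg (by linarith) (by positivity)
      linarith
    rwa [Finset.prod_const_one] at h4
  rw [Finset.prod_mul_distrib] at h2
  unfold W
  calc (d : ℝ) = d * 1 := (mul_one _).symm
    _ ≤ d * ((∏ p ∈ d.primeFactors, (1 + 2 / (p : ℝ))) * ∏ p ∈ d.primeFactors, (1 - (p : ℝ)⁻¹)) :=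
        mul_le_mul_of_nonneg_left h2 (Nat.cast_nonneg _)
    _ = _ := by ring

private theorem sc_mul_sum' (n d y H : ℕ) (hd : 1 ≤ d) (g : ℕ → ℝ) :
    ∑ h ∈ Helper8.DW.mul n d y H, g (n + h) = ∑ m ∈ Ioc ((n + y) / d) ((n + y + H) / d), g (d * m) := by
  refine Finset.sum_bij' (fun h _ => (n + h) / d) (fun m _ => d * m - n) ?_ ?_ ?_ ?_ ?_
  · intro h hh
    unfold Helper8.DW.mul at hh
    rw [Finset.mem_filter, Finset.mem_Ioc] at hh
    obtain ⟨c, hc⟩ := hh.2
    rw [Finset.mem_Ioc, hc, Nat.mul_div_cancel_left _ hd]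
    exact ⟨Nat.div_lt_of_lt_mul (by omega), (Nat.le_div_iff_mul_le hd).2 (by rw [mul_comm]; omega)⟩
  · intro m hm
    rw [Finset.mem_Ioc] at hm
    have h1 : n + y < d * m := by
      have := (Nat.div_lt_iff_lt_mul hd).1 hm.1
      rwa [mul_comm] at this
    have h2 : d * m ≤ n + y + H := by
      have := (Nat.le_div_iff_mul_le hd).1 hm.2
      rwa [mul_comm] at this
    unfold Helper8.DW.mul
    rw [Finset.mem_filter, Finset.mem_Ioc]
    refine ⟨⟨by omega, by omega⟩, ?_⟩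
    rw [show n + (d * m - n) = d * m by omega]
    exact Dvd.intro _ rfl
  · intro h hh
    unfold Helper8.DW.mul at hh
    rw [Finset.mem_filter, Finset.mem_Ioc] at hh
    obtain ⟨c, hc⟩ := hh.2
    simp only [hc, Nat.mul_div_cancel_left _ hd]
    omega
  · intro m hm
    rw [Finset.mem_Ioc] at hm
    have h1 : n + y < d * m := by
      have := (Nat.div_lt_iff_lt_mul hd).1 hm.1
      rwa [mul_comm] at this
    rw [show n + (d * m - n) = d * m by omega, Nat.mul_div_cancel_left _ hd]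
  · intro h hh
    unfold Helper8.DW.mul at hh
    rw [Finset.mem_filter, Finset.mem_Ioc] at hh
    rw [Nat.mul_div_cancel' hh.2]

theorem tk_c {q : ℕ} {b : ℕ → ℝ} (hb : Helper8.DW.Per q b) (c : ℕ → ℝ) (hc : ∀ h, |c h| ≤ 1) {P : Finset ℕ}
    (hP : ∀ p ∈ P, p.Prime) {D H : ℕ} (hD : 1 ≤ D) (hDH : D ≤ H) (hPH : ∀ p ∈ P, p ^ 2 ≤ H / (4 * D))
    (hM : 1 ≤ ∑ p ∈ P, (1 : ℝ) / p) (n d y : ℕ) (hDd : D ≤ d) (hd2 : d < 2 * D) : Tc c b y H n d ≤
      (∑ p ∈ P, Tc c b y H n (d * p)) / (∑ p ∈ P, (1 : ℝ) / p) +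
        4 * (H / D) / √(∑ p ∈ P, (1 : ℝ) / p) := by
  have hd : 1 ≤ d := hD.trans hDd
  have hD0 : (0 : ℝ) < D := by exact_mod_cast hD
  set g : ℕ → ℝ := fun x => c (x - n) * b (ArithmeticFunction.cardFactors x) with hg
  have hg1 : ∀ x, |g x| ≤ 1 := by
    intro x
    rw [hg]
    simp only
    rw [abs_mul]
    exact mul_le_one₀ (hc _) (abs_nonneg _) (hb.le _)
  have hTc : ∀ e, Tc c b y H n e = |∑ h ∈ Helper8.DW.mul n e y H, g (n + h)| := by
    intro e
    unfold Tc
    congr 1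
    refine Finset.sum_congr rfl fun h _ => ?_
    rw [hg]
    simp only [Nat.add_sub_cancel_left]
  set u : ℕ := (n + y) / d with hu
  set v : ℕ := (n + y + H) / d with hv
  have huv : u + H / d ≤ v := Nat.div_add_div_le_add_div
  have hK : H / (4 * D) ≤ H / d := Nat.div_le_div_left (by omega) hd
  have hw : u + (v - u) = v := Nat.add_sub_cancel' ((Nat.le_add_right _ _).trans huv)
  have hKv : H / (4 * D) ≤ v - u := Nat.le_sub_of_add_le (by
    rw [add_comm]
    exact (Nat.add_le_add_left hK u).trans huv)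
  have h1 := Helper8.DW.tk_window (H := v - u) hP (fun p hp => (hPH p hp).trans hKv) hM u (fun m => g (d * m))
    (fun m => hg1 _)
  rw [hw] at h1
  have h2 : ∑ m ∈ Ioc u v, g (d * m) = ∑ h ∈ Helper8.DW.mul n d y H, g (n + h) :=
    (sc_mul_sum' n d y H hd g).symm
  have h3 : ∀ p ∈ P, |∑ m ∈ (Ioc u v).filter (fun m => p ∣ m), g (d * m)| = Tc c b y H n (d * p) := by
    intro p _
    have h4 := sc_mul_sum' n d y H hd (fun x => if d * p ∣ x then g x else 0)
    rw [← Finset.sum_filter] at h4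
    have h5 : (Helper8.DW.mul n d y H).filter (fun h => d * p ∣ n + h) = Helper8.DW.mul n (d * p) y H := by
      unfold Helper8.DW.mul
      rw [Finset.filter_filter]
      refine Finset.filter_congr fun h _ => ?_
      exact ⟨fun h6 => h6.2, fun h6 => ⟨(Dvd.intro _ rfl).trans h6, h6⟩⟩
    rw [h5] at h4
    rw [hTc, h4, Finset.sum_filter]
    congr 1
    refine Finset.sum_congr rfl fun m _ => ?_
    simp only [Nat.mul_dvd_mul_iff_left hd]
  rw [h2, ← hTc d, Finset.sum_congr rfl h3] at h1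
  have hcard : ((v - u : ℕ) : ℝ) ≤ 2 * (H / D) := by
    have h4 := sc_mul_sum' n d y H hd (fun _ => 1)
    simp only [Finset.sum_const, nsmul_eq_mul, mul_one, Nat.card_Ioc] at h4
    have h5 := Helper8.DW.card_mul n d y H hd
    rw [h4] at h5
    have h6 : (H : ℝ) / d ≤ H / D :=
      div_le_div_of_nonneg_left (Nat.cast_nonneg H) hD0 (by exact_mod_cast hDd)
    have h7 : (1 : ℝ) ≤ H / D := by
      rw [le_div_iff₀ hD0, one_mul]
      exact_mod_cast hDH
    linarith
  refine h1.trans (add_le_add le_rfl (div_le_div_of_nonneg_right ?_ (Real.sqrt_nonneg _)))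
  linarith

theorem dil_c {k : ℕ} (a : Fin k → ℕ) (ha : Function.Injective a) {q : ℕ} {b : ℕ → ℝ}
    (hb : Helper8.DW.Per q b) (ε : ℝ) (hε : 0 < ε) :
    ∃ s : ℕ, 1 ≤ s ∧ ∃ H1 X0 : ℕ, ∀ X : ℕ, X0 ≤ X → ∀ D H y : ℕ, 1 ≤ D → H1 * D ≤ H → D * H ≤ X →
      y ≤ X → Real.log X ^ (k * s) * D ≤ ((D : ℝ) * H) ^ s * H →
      ∀ c : ℕ → ℕ → ℝ, (∀ d h, |c d h| ≤ 1) →
      ∑ n ∈ Icc 1 X, GG a n * ∑ d ∈ Ico D (2 * D), Tc (c d) b y H n d ≤ ε * H * X := by
  obtain ⟨C, hC, X1, hGG⟩ := Helper83.HLC.sum_GG a ha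
  obtain ⟨r, hr1, hrM⟩ : ∃ r : ℕ, 1 ≤ r ∧ 1 + (24 * C / ε) ^ 2 ≤ Real.log r - 1 := by
    obtain ⟨r, hr⟩ := exists_nat_ge (Real.exp (2 + (24 * C / ε) ^ 2))
    have h1 : (1 : ℝ) ≤ r := (Real.one_le_exp (by positivity)).trans hr
    refine ⟨r, by exact_mod_cast h1, ?_⟩
    have h2 := Real.log_le_log (Real.exp_pos _) hr
    rw [Real.log_exp] at h2
    linarith
  obtain ⟨C0, hC0, hbad⟩ := sc_bad_card (ε / (12 * C)) (by positivity)
  obtain ⟨K, H0, X2, hF⟩ := pairs_c a ha hb C0 (ε / 12) hC0.le (by positivity)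
  set K1 : ℝ := (K : ℝ) + 1 with hK1
  have hK0 : (0 : ℝ) ≤ K := Nat.cast_nonneg K
  have hK1pos : 1 ≤ K1 := by linarith
  have hK1p : 0 < K1 := by linarith
  obtain ⟨Z1, hm⟩ := Helper8.DW.prm_mass r hr1
  obtain ⟨Z2, hfb⟩ := Helper8.DW.few_blocks r (ε / (144 * C * K1)) (by positivity)
  refine ⟨4 * r, by omega, (Z1 + Z2 + H0 + 2) ^ (2 * r) * 4, max X1 X2,
    fun X hX D H y hD hHD hDHX hyX hlog c hc => ?_⟩
  have hKge : (Z1 + Z2 + H0 + 2) ^ (2 * r) ≤ H / (4 * D) := by
    rw [Nat.le_div_iff_mul_le (by omega)]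
    calc (Z1 + Z2 + H0 + 2) ^ (2 * r) * (4 * D) = (Z1 + Z2 + H0 + 2) ^ (2 * r) * 4 * D := by ring
      _ ≤ H := hHD
  obtain ⟨Z, hZ0, hZH, hHZ⟩ := Helper8.DW.root_exists r hr1 (Z1 + Z2 + H0 + 2) (by omega) (H / (4 * D)) hKge
  have hZ1 : Z1 ≤ Z := by omega
  have hZ2 : Z2 ≤ Z := by omega
  have hZH0 : H0 ≤ Z := by omega
  have hZ2' : 2 ≤ Z := by omega
  have hZR : (2 : ℝ) ≤ Z := by exact_mod_cast hZ2'
  have hZpos : (0 : ℝ) < Z := by linarith
  have hZr : Z ≤ Z ^ r := Nat.le_self_pow (by omega) Z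
  have hZr1 : 1 ≤ Z ^ r := by omega
  have hZrr : Z ^ r * Z ^ r ≤ H / (4 * D) := by
    rw [← pow_add, ← two_mul]
    exact hZH
  have hZD : Z ^ r * Z ^ r * (4 * D) ≤ H := (Nat.le_div_iff_mul_le (by omega)).1 hZrr
  have hDH : D ≤ H := by
    calc D ≤ 4 * D := by omega
      _ ≤ Z ^ r * Z ^ r * (4 * D) := Nat.le_mul_of_pos_left _ (Nat.mul_pos (by omega) (by omega))
      _ ≤ H := hZD
  have hHpos : 0 < H := lt_of_lt_of_le hD hDH
  have hHX : H ≤ X := le_trans (Nat.le_mul_of_pos_left _ hD) hDHX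
  have hHR : (0 : ℝ) < H := by exact_mod_cast hHpos
  have hDR : (0 : ℝ) < D := by exact_mod_cast hD
  have hXR : (0 : ℝ) < X := by exact_mod_cast lt_of_lt_of_le hHpos hHX
  have hsum := hGG X ((le_max_left _ _).trans hX)
  set P : Finset ℕ := Helper8.DW.PZ Z r with hP
  have hPmem : ∀ p ∈ P, Z < p ∧ p ≤ Z ^ r ∧ p.Prime := by
    intro p hp
    rw [hP] at hp
    unfold Helper8.DW.PZ at hp
    rw [Finset.mem_filter, Finset.mem_Ioc] at hp
    exact ⟨hp.1.1, hp.1.2, hp.2⟩
  have hPH : ∀ p ∈ P, p ^ 2 ≤ H / (4 * D) := fun p hp => by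
    rw [pow_two]
    exact (Nat.mul_le_mul (hPmem p hp).2.1 (hPmem p hp).2.1).trans hZrr
  set M : ℝ := ∑ p ∈ P, (1 : ℝ) / p with hMdef
  have hM1 : 1 + (24 * C / ε) ^ 2 ≤ M := hrM.trans (hm Z hZ1)
  have hM2 : 1 ≤ M := le_trans (by nlinarith [sq_nonneg (24 * C / ε)]) hM1
  have hM0 : 0 < M := by linarith
  set A : Finset ℕ := (Ico D (2 * D)).filter (fun d => W d ≤ C0) with hA
  have hAsub : A ⊆ Ico D (2 * D) := Finset.filter_subset _ _
  have hAcard : (A.card : ℝ) ≤ D := by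
    have h1 := Finset.card_le_card hAsub
    rw [Nat.card_Ico] at h1
    have h2 : A.card ≤ D := by omega
    exact_mod_cast h2
  have hAW : ∀ d ∈ A, W d ≤ C0 := fun d hd => (Finset.mem_filter.1 hd).2
  -- blocks
  set J : ℕ := Nat.log 2 (Z ^ r) + 1 with hJ
  set S : ℕ → Finset ℕ := fun j => P.filter (fun p => Nat.log 2 p = j) with hS
  have hmaps : ∀ p ∈ P, Nat.log 2 p ∈ range J := by
    intro p hp
    rw [Finset.mem_range, hJ]
    exact Nat.lt_succ_of_le (Nat.log_mono_right (hPmem p hp).2.1)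
  have hSmem : ∀ j, ∀ p ∈ S j, p ∈ P ∧ 2 ^ j ≤ p ∧ p < 2 * 2 ^ j := by
    intro j p hp
    rw [hS] at hp
    simp only [Finset.mem_filter] at hp
    have h1 := (hPmem p hp.1).2.2.pos
    refine ⟨hp.1, ?_, ?_⟩
    · rw [← hp.2]
      exact Nat.pow_log_le_self 2 h1.ne'
    · have h2 := Nat.lt_pow_succ_log_self (b := 2) one_lt_two p
      rw [hp.2, pow_succ] at h2
      omega
  have hfib : ∀ g : ℕ → ℝ, ∑ j ∈ range J, ∑ p ∈ S j, g p = ∑ p ∈ P, g p := fun g =>
    Finset.sum_fiberwise_of_maps_to hmaps g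
  -- one block
  have hblock : ∀ j, ∑ n ∈ Icc 1 X, GG a n * ∑ d ∈ A, ∑ p ∈ S j, Tc (c d) b y H n (d * p) ≤
      ε / 12 * ((S j).card / (2 ^ j : ℝ)) * H * X + 12 * C * K1 * H * X / √Z := by
    intro j
    have hsZ : 0 < √(Z : ℝ) := Real.sqrt_pos.2 hZpos
    have hpos2 : 0 ≤ 12 * C * K1 * H * X / √Z := by positivity
    have hpos1 : 0 ≤ ε / 12 * ((S j).card / (2 ^ j : ℝ)) * H * X := by positivity
    rcases (S j).eq_empty_or_nonempty with hemp | ⟨p0, hp0⟩
    · have h1 : ∑ n ∈ Icc 1 X, GG a n * ∑ d ∈ A, ∑ p ∈ S j, Tc (c d) b y H n (d * p) = 0 := by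
        rw [hemp]
        simp
      rw [h1]
      linarith
    · obtain ⟨hp0P, hp0l, hp0u⟩ := hSmem j p0 hp0
      have hBZ : 2 ^ j ≤ Z ^ r := hp0l.trans (hPmem p0 hp0P).2.1
      have hB1 : 1 ≤ 2 ^ j := Nat.one_le_two_pow
      have hBBD : 2 ^ j * 2 ^ j * (4 * D) ≤ H := (Nat.mul_le_mul_right _ (Nat.mul_le_mul hBZ hBZ)).trans hZD
      have h0BD : H0 * 2 ^ j * (4 * D) ≤ H :=
        (Nat.mul_le_mul_right _ (Nat.mul_le_mul (hZH0.trans hZr) hBZ)).trans hZD
      have h1BD : 2 ^ j * (4 * D) ≤ H := by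
        refine le_trans (Nat.mul_le_mul_right _ ?_) hBBD
        exact Nat.le_mul_of_pos_left _ hB1
      have hsub : S j ⊆ Ico (2 ^ j) (2 * 2 ^ j) := by
        intro p hp
        rw [Finset.mem_Ico]
        exact ⟨(hSmem j p hp).2.1, (hSmem j p hp).2.2⟩
      by_cases hrich : K * Real.log X ^ k ≤ D * ((S j).card : ℝ) * H
      · have h1 := hF X ((le_max_right _ _).trans hX) D (2 ^ j) H y hD hB1
          (by
            calc (2 * (2 ^ j * D)) ^ 2 = D * (2 ^ j * 2 ^ j * (4 * D)) := by ring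
              _ ≤ D * H := Nat.mul_le_mul_left _ hBBD
              _ ≤ X := hDHX)
          (by
            calc H0 * (2 * (2 ^ j * D)) ≤ H0 * (2 * (2 ^ j * D)) * 2 := Nat.le_mul_of_pos_right _ (by norm_num)
              _ = H0 * 2 ^ j * (4 * D) := by ring
              _ ≤ H := h0BD)
          (by
            calc 2 * (2 ^ j * D) ≤ 2 * (2 ^ j * D) * 2 := Nat.le_mul_of_pos_right _ (by norm_num)
              _ = 2 ^ j * (4 * D) := by ring
              _ ≤ H := h1BD) hHX hyX A hAsub hAW (S j) hsub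
          (fun p hp => (hPmem p (hSmem j p hp).1).2.2) hrich c hc
        push_cast at h1
        linarith
      · rw [not_le] at hrich
        have hcard : ((S j).card : ℝ) / 2 ^ j ≤ 6 * K1 / √Z := by
          obtain ⟨σ, hσ⟩ : ∃ σ : ℝ, σ = ((S j).card : ℝ) / K1 := ⟨_, rfl⟩
          have hσ0 : 0 ≤ σ := by
            rw [hσ]
            positivity
          have hσK : ((S j).card : ℝ) = K1 * σ := by
            rw [hσ]
            field_simp
          have hlk : 0 ≤ Real.log X ^ k := by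
            have h0 : 0 ≤ Real.log (X : ℝ) := Real.log_natCast_nonneg X
            positivity
          have h1 : σ ^ (4 * r) * D ≤ H := by
            have h2 : ((D : ℝ) * σ * H) ^ (4 * r) ≤ (Real.log X ^ k) ^ (4 * r) := by
              refine pow_le_pow_left₀ (by positivity) ?_ _
              have h3 : (D : ℝ) * σ * H = D * ((S j).card : ℝ) * H / K1 := by
                rw [hσ]
                ring
              rw [h3, div_le_iff₀ hK1p]
              refine hrich.le.trans ?_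
              rw [mul_comm]
              refine mul_le_mul_of_nonneg_left ?_ hlk
              linarith
            rw [← pow_mul] at h2
            have h3 := (mul_le_mul_of_nonneg_right h2 hDR.le).trans hlog
            have h4 : ((D : ℝ) * σ * H) ^ (4 * r) * D =
                ((D : ℝ) * H) ^ (4 * r) * (σ ^ (4 * r) * D) := by
              rw [mul_pow, mul_pow, mul_pow]
              ring
            rw [h4] at h3
            exact le_of_mul_le_mul_left h3 (by positivity)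
          have h5 : σ ^ 2 < 8 * Z := by
            by_contra hcon
            rw [not_lt] at hcon
            have h6 : (8 * (Z : ℝ)) ^ (2 * r) ≤ (σ ^ 2) ^ (2 * r) := pow_le_pow_left₀ (by positivity) hcon _
            rw [← pow_mul, show 2 * (2 * r) = 4 * r by ring] at h6
            have h7 : H < (2 * Z) ^ (2 * r) * (4 * D) := by
              have h8 := (Nat.div_lt_iff_lt_mul (show 0 < 4 * D by omega)).1 hHZ
              exact h8
            have h7' : (H : ℝ) < (2 * (Z : ℝ)) ^ (2 * r) * (4 * D) := by exact_mod_cast h7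
            have h9 : (2 * (Z : ℝ)) ^ (2 * r) * 4 ≤ (8 * (Z : ℝ)) ^ (2 * r) := by
              calc (2 * (Z : ℝ)) ^ (2 * r) * 4 ≤ (2 * (Z : ℝ)) ^ (2 * r) * 4 ^ (2 * r) := by
                    refine mul_le_mul_of_nonneg_left ?_ (by positivity)
                    exact le_self_pow₀ (by norm_num) (by omega)
                _ = (8 * (Z : ℝ)) ^ (2 * r) := by
                    rw [← mul_pow]
                    congr 1
                    ring
            have h10 : (8 * (Z : ℝ)) ^ (2 * r) * D ≤ H := (mul_le_mul_of_nonneg_right h6 hDR.le).trans h1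
            have h11 : (2 * (Z : ℝ)) ^ (2 * r) * 4 * D ≤ (8 * (Z : ℝ)) ^ (2 * r) * D :=
              mul_le_mul_of_nonneg_right h9 hDR.le
            have h12 : (2 * (Z : ℝ)) ^ (2 * r) * (4 * D) = (2 * (Z : ℝ)) ^ (2 * r) * 4 * D := by ring
            linarith
          have h7 : (Z : ℝ) ≤ 2 * 2 ^ j := by
            have h8 : Z ≤ 2 * 2 ^ j := (hPmem p0 hp0P).1.le.trans hp0u.le
            exact_mod_cast h8
          have h9 : (σ / 2 ^ j) ^ 2 ≤ (6 / √Z) ^ 2 := by
            rw [div_pow, div_pow, Real.sq_sqrt hZpos.le, div_le_div_iff₀ (by positivity) hZpos]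
            have h10 : (Z : ℝ) ^ 2 ≤ (2 * 2 ^ j) ^ 2 := pow_le_pow_left₀ hZpos.le h7 2
            nlinarith [mul_le_mul_of_nonneg_right h5.le hZpos.le]
          have h11 : σ / 2 ^ j ≤ 6 / √Z := le_of_sq_le_sq h9 (by positivity)
          rw [hσK, show K1 * σ / 2 ^ j = K1 * (σ / 2 ^ j) by ring, show 6 * K1 / √(Z : ℝ) = K1 * (6 / √Z) by ring]
          exact mul_le_mul_of_nonneg_left h11 hK1p.le
        have h2j : (0 : ℝ) < 2 ^ j := by positivity
        have hT : ∀ n ∈ Icc 1 X, GG a n * ∑ d ∈ A, ∑ p ∈ S j, Tc (c d) b y H n (d * p) ≤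
            GG a n * ((A.card : ℝ) * (((S j).card : ℝ) * (2 * H / ((2 ^ j * D : ℕ) : ℝ)))) := by
          intro n _
          refine mul_le_mul_of_nonneg_left ?_ (Helper83.HLC.GG_nonneg a n)
          calc ∑ d ∈ A, ∑ p ∈ S j, Tc (c d) b y H n (d * p)
              ≤ ∑ _d ∈ A, ∑ _p ∈ S j, 2 * (H : ℝ) / ((2 ^ j * D : ℕ) : ℝ) := by
                refine Finset.sum_le_sum fun d hd => Finset.sum_le_sum fun p hp =>
                  Tc_le hb (c d) (hc d) y H n _ (2 ^ j * D) (Nat.mul_pos hB1 hD) ?_ ?_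
                · rw [mul_comm (2 ^ j) D]
                  exact Nat.mul_le_mul (Finset.mem_Ico.1 (hAsub hd)).1 (hSmem j p hp).2.1
                · refine le_trans ?_ h1BD
                  exact Nat.mul_le_mul_left _ (by omega)
            _ = _ := by
                simp only [Finset.sum_const, nsmul_eq_mul]
        calc ∑ n ∈ Icc 1 X, GG a n * ∑ d ∈ A, ∑ p ∈ S j, Tc (c d) b y H n (d * p)
            ≤ ∑ n ∈ Icc 1 X, GG a n * ((A.card : ℝ) * (((S j).card : ℝ) * (2 * H / ((2 ^ j * D : ℕ) : ℝ)))) :=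
              Finset.sum_le_sum hT
          _ = (∑ n ∈ Icc 1 X, GG a n) * ((A.card : ℝ) * (((S j).card : ℝ) * (2 * H / ((2 ^ j * D : ℕ) : ℝ)))) := by
              rw [← Finset.sum_mul]
          _ ≤ (C * X) * ((D : ℝ) * (((S j).card : ℝ) * (2 * H / ((2 ^ j * D : ℕ) : ℝ)))) :=
              mul_le_mul hsum (mul_le_mul_of_nonneg_right hAcard (by positivity)) (by positivity) (by positivity)
          _ = 2 * C * H * X * (((S j).card : ℝ) / 2 ^ j) := by
              push_cast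
              field_simp
          _ ≤ 2 * C * H * X * (6 * K1 / √Z) := mul_le_mul_of_nonneg_left hcard (by positivity)
          _ = 12 * C * K1 * H * X / √Z := by ring
          _ ≤ _ := by linarith
  -- the sum over the blocks
  have hcardsum : ∑ j ∈ range J, ((S j).card / (2 ^ j : ℝ)) ≤ 2 * M := by
    calc ∑ j ∈ range J, ((S j).card / (2 ^ j : ℝ)) ≤ ∑ j ∈ range J, ∑ p ∈ S j, 2 * ((1 : ℝ) / p) := by
          refine Finset.sum_le_sum fun j _ => ?_
          have h1 : ((S j).card / (2 ^ j : ℝ)) = ∑ _p ∈ S j, 1 / (2 ^ j : ℝ) := by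
            rw [Finset.sum_const, nsmul_eq_mul]
            ring
          rw [h1]
          refine Finset.sum_le_sum fun p hp => ?_
          have h2 := (hSmem j p hp).2.2
          have h3 : 0 < p := (hPmem p (hSmem j p hp).1).2.2.pos
          have h4 : (0 : ℝ) < p := by exact_mod_cast h3
          have h5 : (p : ℝ) ≤ 2 * 2 ^ j := by exact_mod_cast h2.le
          rw [mul_one_div, div_le_div_iff₀ (by positivity) h4]
          linarith
      _ = 2 * M := by
          rw [hfib (fun p => 2 * ((1 : ℝ) / p)), ← Finset.mul_sum]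
  have hJb : (J : ℝ) / √Z ≤ ε / (144 * C * K1) := hfb Z hZ2
  have hall : ∑ n ∈ Icc 1 X, GG a n * ∑ d ∈ A, ∑ p ∈ P, Tc (c d) b y H n (d * p) ≤ ε / 6 * M * H * X + ε / 12 * H * X := by
    have h1 : ∑ n ∈ Icc 1 X, GG a n * ∑ d ∈ A, ∑ p ∈ P, Tc (c d) b y H n (d * p) =
        ∑ j ∈ range J, ∑ n ∈ Icc 1 X, GG a n * ∑ d ∈ A, ∑ p ∈ S j, Tc (c d) b y H n (d * p) := by
      rw [Finset.sum_comm]
      refine Finset.sum_congr rfl fun n _ => ?_
      rw [← Finset.mul_sum]
      congr 1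
      rw [Finset.sum_comm (s := range J)]
      exact Finset.sum_congr rfl fun d _ => (hfib (fun p => Tc (c d) b y H n (d * p))).symm
    rw [h1]
    calc ∑ j ∈ range J, ∑ n ∈ Icc 1 X, GG a n * ∑ d ∈ A, ∑ p ∈ S j, Tc (c d) b y H n (d * p)
        ≤ ∑ j ∈ range J, (ε / 12 * ((S j).card / (2 ^ j : ℝ)) * H * X + 12 * C * K1 * H * X / √Z) :=
          Finset.sum_le_sum fun j _ => hblock j
      _ = ε / 12 * H * X * ∑ j ∈ range J, ((S j).card / (2 ^ j : ℝ)) + 12 * C * K1 * H * X * (J / √Z) := by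
          rw [Finset.sum_add_distrib, Finset.sum_const, Finset.card_range, nsmul_eq_mul, Finset.mul_sum]
          congr 1
          · exact Finset.sum_congr rfl fun j _ => by ring
          · ring
      _ ≤ ε / 12 * H * X * (2 * M) + 12 * C * K1 * H * X * (ε / (144 * C * K1)) :=
          add_le_add (mul_le_mul_of_nonneg_left hcardsum (by positivity))
            (mul_le_mul_of_nonneg_left hJb (by positivity))
      _ = ε / 6 * M * H * X + ε / 12 * H * X := by
          field_simp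
          ring
  have hsqrt : C * (4 / √M) ≤ ε / 6 := by
    have h1 : 24 * C / ε ≤ √M := Real.le_sqrt_of_sq_le (by linarith)
    have h2 : 0 < √M := Real.sqrt_pos.2 hM0
    rw [div_le_iff₀ hε] at h1
    rw [mul_div_assoc', div_le_iff₀ h2]
    linarith
  -- the good integers
  have hgood : ∑ n ∈ Icc 1 X, GG a n * ∑ d ∈ A, Tc (c d) b y H n d ≤ ε / 4 * H * X + ε / 6 * H * X := by
    calc ∑ n ∈ Icc 1 X, GG a n * ∑ d ∈ A, Tc (c d) b y H n d
        ≤ ∑ n ∈ Icc 1 X, GG a n * ((∑ d ∈ A, ∑ p ∈ P, Tc (c d) b y H n (d * p)) / M + 4 * H / √M) := by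
          refine Finset.sum_le_sum fun n _ => mul_le_mul_of_nonneg_left ?_ (Helper83.HLC.GG_nonneg a n)
          calc ∑ d ∈ A, Tc (c d) b y H n d ≤ ∑ d ∈ A, ((∑ p ∈ P, Tc (c d) b y H n (d * p)) / M + 4 * (H / D) / √M) := by
                refine Finset.sum_le_sum fun d hd => ?_
                have h1 := Finset.mem_Ico.1 (hAsub hd)
                exact tk_c hb (c d) (hc d) (fun p hp => (hPmem p hp).2.2) hD hDH hPH hM2 n d y h1.1 h1.2
            _ = (∑ d ∈ A, ∑ p ∈ P, Tc (c d) b y H n (d * p)) / M + A.card * (4 * (H / D) / √M) := by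
                rw [Finset.sum_add_distrib, Finset.sum_div, Finset.sum_const, nsmul_eq_mul]
            _ ≤ (∑ d ∈ A, ∑ p ∈ P, Tc (c d) b y H n (d * p)) / M + D * (4 * (H / D) / √M) :=
                add_le_add le_rfl (mul_le_mul_of_nonneg_right hAcard (by positivity))
            _ = _ := by
                congr 1
                field_simp
      _ = (∑ n ∈ Icc 1 X, GG a n * ∑ d ∈ A, ∑ p ∈ P, Tc (c d) b y H n (d * p)) / M +
          (∑ n ∈ Icc 1 X, GG a n) * (4 * H / √M) := by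
          rw [Finset.sum_div, Finset.sum_mul, ← Finset.sum_add_distrib]
          exact Finset.sum_congr rfl fun n _ => by ring
      _ ≤ (ε / 6 * M * H * X + ε / 12 * H * X) / M + (C * X) * (4 * H / √M) :=
          add_le_add (div_le_div_of_nonneg_right hall hM0.le) (mul_le_mul_of_nonneg_right hsum (by positivity))
      _ ≤ ε / 4 * H * X + ε / 6 * H * X := by
          have h1 : (ε / 6 * M * H * X + ε / 12 * H * X) / M ≤ ε / 4 * H * X := by
            rw [div_le_iff₀ hM0]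
            have h2 : 0 ≤ ε / 12 * H * X := by positivity
            nlinarith
          have h3 : (C * X) * (4 * H / √M) = (C * (4 / √M)) * (H * X) := by ring
          have h4 : (C * (4 / √M)) * (H * X) ≤ ε / 6 * (H * X) :=
            mul_le_mul_of_nonneg_right hsqrt (by positivity)
          rw [h3]
          linarith
  -- the bad integers
  have hbadsum : ∑ n ∈ Icc 1 X, GG a n * ∑ d ∈ (Ico D (2 * D)).filter (fun d => ¬ W d ≤ C0), Tc (c d) b y H n d ≤
      ε / 6 * H * X := by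
    calc ∑ n ∈ Icc 1 X, GG a n * ∑ d ∈ (Ico D (2 * D)).filter (fun d => ¬ W d ≤ C0), Tc (c d) b y H n d
        ≤ ∑ n ∈ Icc 1 X, GG a n * (ε / (12 * C) * D * (2 * H / D)) := by
          refine Finset.sum_le_sum fun n _ => mul_le_mul_of_nonneg_left ?_ (Helper83.HLC.GG_nonneg a n)
          calc ∑ d ∈ (Ico D (2 * D)).filter (fun d => ¬ W d ≤ C0), Tc (c d) b y H n d
              ≤ ∑ _d ∈ (Ico D (2 * D)).filter (fun d => ¬ W d ≤ C0), 2 * (H : ℝ) / D :=
                Finset.sum_le_sum fun d hd => Tc_le hb (c d) (hc d) y H n d D hD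
                  (Finset.mem_Ico.1 (Finset.mem_filter.1 hd).1).1 hDH
            _ = (((Ico D (2 * D)).filter (fun d => ¬ W d ≤ C0)).card : ℝ) * (2 * H / D) := by
                rw [Finset.sum_const, nsmul_eq_mul]
            _ ≤ ε / (12 * C) * D * (2 * H / D) := mul_le_mul_of_nonneg_right (hbad D) (by positivity)
      _ = (∑ n ∈ Icc 1 X, GG a n) * (ε / (12 * C) * D * (2 * H / D)) := by rw [Finset.sum_mul]
      _ ≤ (C * X) * (ε / (12 * C) * D * (2 * H / D)) := mul_le_mul_of_nonneg_right hsum (by positivity)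
      _ = ε / 6 * H * X := by
          field_simp
          ring
  have hsplit : ∑ n ∈ Icc 1 X, GG a n * ∑ d ∈ Ico D (2 * D), Tc (c d) b y H n d =
      ∑ n ∈ Icc 1 X, GG a n * ∑ d ∈ A, Tc (c d) b y H n d +
        ∑ n ∈ Icc 1 X, GG a n * ∑ d ∈ (Ico D (2 * D)).filter (fun d => ¬ W d ≤ C0), Tc (c d) b y H n d := by
    rw [← Finset.sum_add_distrib]
    refine Finset.sum_congr rfl fun n _ => ?_
    rw [← mul_add, hA, Finset.sum_filter_add_sum_filter_not]
  rw [hsplit]
  have hpos : 0 ≤ H * X * ε := by positivity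
  linarith

end Pool.Agent.Helper39.SC
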