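import Pool.Agent.Helper39.SC.DilC

/-!
# SC-13: the theorem

PROOF. Let `A_(d, h) = ∑_(n ≤ X, d ∣ n + h) u n * g d n * b (Ω (n + h))`, `u n = ∏ Λ (n + a i)` (real, `≥ 0`, `= GG a n`). `‖A‖ ≤ |Re A| + |Im A|`. For the real parts let `e d h = ±1` be the
sign of `Re A_(d, h)`: `∑_d ∑_(h ∈ Ioc y (y + H)) |Re A_(d, h)| = ∑_n GG a n ∑_d Re (g d n) ∑_(h ∈ mul n d y H) e d h * b (Ω (n + h)) ≤ ∑_n GG a n ∑_d Tc (e d) b y H n d ≤ (ε / 4) H X`
by `dil_c` (`|Re (g d n)| ≤ 1`; `Helper8.DW.mul n d y H` is the set of the `h ∈ Ioc y (y + H)` with `d ∣ n + h`). The same for the imaginary parts. The hypothesis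
`log X ^ k ≤ D H (H / D)^θ` with `θ = 1 / s` is turned into the one of `dil_c` as in `Pool/Agent/Results/MP_e6fa8b_nt/DilatedWindows.lean`.
-/

set_option autoImplicit false

namespace Pool.Agent.Helper39.SC

open Finset
open Pool.Agent.Helper83.HLC (GG)

private noncomputable def sg (x : ℝ) : ℝ := if 0 ≤ x then 1 else -1

private theorem sg_mul (x : ℝ) : |x| = sg x * x := by
  unfold sg
  split_ifs with h
  · rw [abs_of_nonneg h, one_mul]
  · rw [abs_of_neg (not_le.mp h)]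
    ring

private theorem abs_sg (x : ℝ) : |sg x| ≤ 1 := by
  unfold sg
  split_ifs <;> simp

private theorem real_part {k : ℕ} (a : Fin k → ℕ) (b : ℕ → ℝ) (X D H y : ℕ) (G : ℕ → ℕ → ℝ)
    (hG : ∀ d n, |G d n| ≤ 1) (B : ℝ)
    (hB : ∀ c : ℕ → ℕ → ℝ, (∀ d h, |c d h| ≤ 1) →
      ∑ n ∈ Icc 1 X, GG a n * ∑ d ∈ Ico D (2 * D), Tc (c d) b y H n d ≤ B) :
    ∑ d ∈ Ico D (2 * D), ∑ h ∈ Ioc y (y + H), |∑ n ∈ (Icc 1 X).filter (fun n => d ∣ n + h),
      GG a n * G d n * b (ArithmeticFunction.cardFactors (n + h))| ≤ B := by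
  set S : ℕ → ℕ → ℝ := fun d h => ∑ n ∈ (Icc 1 X).filter (fun n => d ∣ n + h),
      GG a n * G d n * b (ArithmeticFunction.cardFactors (n + h)) with hS
  set e : ℕ → ℕ → ℝ := fun d h => sg (S d h) with he
  refine le_trans ?_ (hB e fun d h => abs_sg _)
  have h1 : ∀ d, ∑ h ∈ Ioc y (y + H), |S d h| ≤ ∑ n ∈ Icc 1 X, GG a n * Tc (e d) b y H n d := by
    intro d
    have h2 : ∀ h, |S d h| = ∑ n ∈ (Icc 1 X).filter (fun n => d ∣ n + h),
        e d h * (GG a n * G d n * b (ArithmeticFunction.cardFactors (n + h))) := by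
      intro h
      rw [sg_mul, ← mul_sum]
    rw [sum_congr rfl fun h _ => h2 h]
    rw [sum_comm' (t' := Icc 1 X) (s' := fun n => Helper8.DW.mul n d y H) (by
      intro h n
      unfold Helper8.DW.mul
      simp only [mem_filter]
      tauto)]
    refine sum_le_sum fun n _ => ?_
    have h3 : ∑ h ∈ Helper8.DW.mul n d y H,
        e d h * (GG a n * G d n * b (ArithmeticFunction.cardFactors (n + h))) =
        GG a n * (G d n * ∑ h ∈ Helper8.DW.mul n d y H, e d h * b (ArithmeticFunction.cardFactors (n + h))) := by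
      rw [mul_sum, mul_sum]
      exact sum_congr rfl fun h _ => by ring
    rw [h3]
    refine mul_le_mul_of_nonneg_left ?_ (Helper83.HLC.GG_nonneg a n)
    refine (le_abs_self _).trans ?_
    rw [abs_mul]
    unfold Tc
    exact mul_le_of_le_one_left (abs_nonneg _) (hG d n)
  refine (sum_le_sum fun d _ => h1 d).trans (le_of_eq ?_)
  rw [sum_comm]
  exact sum_congr rfl fun n _ => by rw [mul_sum]

private theorem re_sum {k : ℕ} (a : Fin k → ℕ) (b : ℕ → ℝ) (g : ℕ → ℂ) (T : Finset ℕ) (h : ℕ) :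
    ‖∑ n ∈ T, (∏ i, (ArithmeticFunction.vonMangoldt (n + a i) : ℂ)) * g n *
      (b (ArithmeticFunction.cardFactors (n + h)) : ℂ)‖ ≤
      |∑ n ∈ T, GG a n * (g n).re * b (ArithmeticFunction.cardFactors (n + h))| +
      |∑ n ∈ T, GG a n * (g n).im * b (ArithmeticFunction.cardFactors (n + h))| := by
  refine (Complex.norm_le_abs_re_add_abs_im _).trans (le_of_eq ?_)
  have h0 : ∀ n, (∏ i, (ArithmeticFunction.vonMangoldt (n + a i) : ℂ)) * g n *
      (b (ArithmeticFunction.cardFactors (n + h)) : ℂ) =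
      ((GG a n * b (ArithmeticFunction.cardFactors (n + h)) : ℝ) : ℂ) * g n := by
    intro n
    unfold Helper83.HLC.GG
    push_cast
    ring
  rw [Complex.re_sum, Complex.im_sum]
  congr 2
  · refine sum_congr rfl fun n _ => ?_
    rw [h0, Complex.re_ofReal_mul]
    ring
  · refine sum_congr rfl fun n _ => ?_
    rw [h0, Complex.im_ofReal_mul]
    ring

theorem final {k : ℕ} (a : Fin k → ℕ) (ha : Function.Injective a) {q : ℕ} {b : ℕ → ℝ}
    (hb : Helper8.DW.Per q b) (ε : ℝ) (hε : 0 < ε) :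
    ∃ θ : ℝ, 0 < θ ∧ ∃ H₀ X₀ : ℕ, ∀ X : ℕ, X₀ ≤ X → ∀ D H y : ℕ, 1 ≤ D → H₀ * D ≤ H → D * H ≤ X →
      y ≤ X → Real.log X ^ k ≤ D * H * ((H : ℝ) / D) ^ θ → ∀ g : ℕ → ℕ → ℂ, (∀ d n, ‖g d n‖ ≤ 1) →
        ∑ d ∈ Ico D (2 * D), ∑ h ∈ Ioc y (y + H), ‖∑ n ∈ (Icc 1 X).filter (fun n => d ∣ n + h),
          (∏ i, (ArithmeticFunction.vonMangoldt (n + a i) : ℂ)) * g d n *
            (b (ArithmeticFunction.cardFactors (n + h)) : ℂ)‖ ≤ ε * H * X := by
  obtain ⟨s, hs, H₀, X₀, h⟩ := dil_c a ha hb (ε / 2) (by positivity)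
  have hs0 : (0 : ℝ) < s := by exact_mod_cast hs
  refine ⟨1 / s, by positivity, H₀, X₀, fun X hX D H y hD hHD hDH hy hlog g hg => ?_⟩
  have hD0 : (0 : ℝ) < D := by exact_mod_cast hD
  have h1 : (Real.log X ^ k) ^ s ≤ (D * H * ((H : ℝ) / D) ^ (1 / (s : ℝ))) ^ s :=
    pow_le_pow_left₀ (pow_nonneg (Real.log_natCast_nonneg X) _) hlog s
  rw [← pow_mul, mul_pow, ← Real.rpow_natCast (((H : ℝ) / D) ^ (1 / (s : ℝ))) s,
    ← Real.rpow_mul (by positivity), one_div, inv_mul_cancel₀ hs0.ne', Real.rpow_one] at h1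
  have h2 : Real.log X ^ (k * s) * D ≤ ((D : ℝ) * H) ^ s * H :=
    calc Real.log X ^ (k * s) * D ≤ ((D : ℝ) * H) ^ s * (H / D) * D := mul_le_mul_of_nonneg_right h1 hD0.le
      _ = ((D : ℝ) * H) ^ s * H := by
          field_simp
  have hB := h X hX D H y hD hHD hDH hy h2
  have hre := real_part a b X D H y (fun d n => (g d n).re)
    (fun d n => (Complex.abs_re_le_norm _).trans (hg d n)) _ hB
  have him := real_part a b X D H y (fun d n => (g d n).im)
    (fun d n => (Complex.abs_im_le_norm _).trans (hg d n)) _ hB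
  calc _ ≤ ∑ d ∈ Ico D (2 * D), ∑ h ∈ Ioc y (y + H),
        (|∑ n ∈ (Icc 1 X).filter (fun n => d ∣ n + h),
          GG a n * (g d n).re * b (ArithmeticFunction.cardFactors (n + h))| +
        |∑ n ∈ (Icc 1 X).filter (fun n => d ∣ n + h),
          GG a n * (g d n).im * b (ArithmeticFunction.cardFactors (n + h))|) :=
        sum_le_sum fun d _ => sum_le_sum fun h _ => re_sum a b (g d) _ h
    _ ≤ ε / 2 * H * X + ε / 2 * H * X := by
        simp only [sum_add_distrib]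
        exact add_le_add hre him
    _ = ε * H * X := by ring

end Pool.Agent.Helper39.SC
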