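import Pool.Agent.Helper39.SC.Defs
import Pool.Agent.Helper8.DW.Pair

/-!
# SC-05: the average of the local factors over the pairs of shifts

PROOF. Let `τ = d (u' - h') - d' (u - h)` (an integer, `|τ| ≤ 8 X^2`), `c' = ⌈C⌉₊`, `Q = {p ∈ PP N z | p ∣ τ, p ∤ d}`, `s = ∑_(p ∈ Q) 1/p`.
(1) `g2 = ∏_Q (1 + C/p) - 1 ≤ (∑_Q C/p) ∏_Q (1 + C/p)` and `1 + C/p ≤ (1 + 2/p)^(c')` (Bernoulli), so for `τ ≠ 0`: `g2 ≤ C s W(|τ|)^(c')`. Also `s ≤ W |τ|`.
(2) Cauchy-Schwarz: `∑ s W^(c') ≤ (∑ s)^(1/2) (∑ s W^(2 c'))^(1/2) ≤ (∑ s)^(1/2) (∑ W^(2 c' + 1))^(1/2)` (sums over the pairs with `τ ≠ 0`).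
(3) `∑_(h, h') W(|τ|)^(2 c' + 1) ≤ C' H^2 W(gcd d d')^(2 c' + 1) ≤ C' H^2 C0^(2 c' + 1)`: `Helper8.DW.pair_sum` with `Y = 2 X`, `c / 2` (`|τ| = |d' (h - u) - d (h' - u')|`), `gcd d d' ∣ d`
(`Helper8.DW.W_le_of_dvd` or directly).
(4) `∑_(h, h'), τ ≠ 0, s ≤ (2 / N + η') H^2` for `X ≥ X0(η')`: for a prime `p ≤ Q1 := log X`, `p ∤ d`, and for fixed `h` the class of `h'` modulo `p` is determined, so at most
`H (H / p + 1)` pairs: `∑_(N < p ≤ Q1) (1/p) (H^2 / p + H) ≤ H^2 (1/N) + H (1 + log Q1)` (`∑_(p > N) 1/p^2 ≤ 1/N`), and `H (1 + log log X) ≤ η' H^2 / 2` as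
`H^2 ≥ c log X`; the primes `p > Q1` dividing `τ ≠ 0` are at most `log |τ| / log Q1` in number, so they contribute pointwise at most
`(3 log X / log log X) / log X ≤ η' / 2`.
So `∑ g2 ≤ C (2/N + η')^(1/2) (C' C0^(2c'+1))^(1/2) H^2 ≤ (C1 / √N + η) H^2`.
-/

set_option autoImplicit false

namespace Pool.Agent.Helper39.SC

open Finset
open Pool.Agent.Helper40.DB (PP VV DD)

private lemma coe_filter_prod (S : Finset ℕ) (f : ℝ → ℝ) (P : ℤ → Prop) [DecidablePred P]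
    [DecidablePred fun p : ℕ => P (p : ℤ)] (T : Finset ℤ) (hT : ∀ n : ℤ, n ∈ T ↔ ∃ p ∈ S, (p : ℤ) = n) :
    ∏ p ∈ T.filter P, f (p : ℝ) = ∏ p ∈ S.filter (fun p : ℕ => P (p : ℤ)), f (p : ℝ) := by
  symm
  refine Finset.prod_bij (fun p _ => (p : ℤ)) ?_ ?_ ?_ ?_
  · intro p hp
    rw [Finset.mem_filter] at hp ⊢
    exact ⟨(hT _).2 ⟨p, hp.1, rfl⟩, hp.2⟩
  · intro a _ b _ hab
    exact_mod_cast hab
  · intro n hn
    rw [Finset.mem_filter, hT] at hn
    obtain ⟨⟨p, hp, rfl⟩, h2⟩ := hn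
    exact ⟨p, Finset.mem_filter.2 ⟨hp, h2⟩, rfl⟩
  · intro p _
    push_cast
    rfl

open Classical in
private lemma g2_eq (C : ℝ) (N z : ℕ) (e t : ℤ) :
    g2 C N z e t = ∏ p ∈ (DD N z t).filter (fun p : ℕ => ¬ (p : ℤ) ∣ e), (1 + C / (p : ℝ)) - 1 := by
  unfold g2
  first
  | rfl
  | (congr 1
     refine coe_filter_prod (DD N z t) (fun x => 1 + C / x) (fun p => ¬ p ∣ e) _ ?_
     intro n
     simp [eq_comm])

/-- The sum of the reciprocals of the primes of `(N, z]` which divide `t` and not `e`. -/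
private noncomputable def ss (N z : ℕ) (e t : ℤ) : ℝ :=
  open Classical in ∑ p ∈ (DD N z t).filter (fun p : ℕ => ¬ (p : ℤ) ∣ e), 1 / (p : ℝ)

private lemma one_le_prod_one_add (Q : Finset ℕ) (f : ℕ → ℝ) (hf : ∀ p ∈ Q, 0 ≤ f p) :
    1 ≤ ∏ p ∈ Q, (1 + f p) := by
  have h := Finset.prod_le_prod (s := Q) (f := fun _ => (1 : ℝ)) (g := fun p => 1 + f p)
    (fun _ _ => zero_le_one) (fun p hp => by have := hf p hp; linarith)
  simpa using h

private lemma prod_sub_one_le (Q : Finset ℕ) (f : ℕ → ℝ) (hf : ∀ p ∈ Q, 0 ≤ f p) :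
    ∏ p ∈ Q, (1 + f p) - 1 ≤ (∑ p ∈ Q, f p) * ∏ p ∈ Q, (1 + f p) := by
  classical
  induction Q using Finset.induction_on with
  | empty => simp
  | insert q Q hq ih =>
    have hf' : ∀ p ∈ Q, 0 ≤ f p := fun p hp => hf p (Finset.mem_insert_of_mem hp)
    rw [Finset.prod_insert hq, Finset.sum_insert hq]
    have h1 := ih hf'
    have h2 := hf q (Finset.mem_insert_self _ _)
    have h3 := one_le_prod_one_add Q f hf'
    have h4 : 0 ≤ ∑ p ∈ Q, f p := Finset.sum_nonneg hf'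
    have h5 : 0 ≤ (f q + ∑ p ∈ Q, f p) * f q * ∏ p ∈ Q, (1 + f p) := by positivity
    nlinarith

private lemma sum_le_prod_one_add (Q : Finset ℕ) (f : ℕ → ℝ) (hf : ∀ p ∈ Q, 0 ≤ f p) :
    ∑ p ∈ Q, f p ≤ ∏ p ∈ Q, (1 + f p) := by
  classical
  induction Q using Finset.induction_on with
  | empty => simp
  | insert q Q hq ih =>
    have hf' : ∀ p ∈ Q, 0 ≤ f p := fun p hp => hf p (Finset.mem_insert_of_mem hp)
    rw [Finset.prod_insert hq, Finset.sum_insert hq]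
    have h1 := ih hf'
    have h2 := hf q (Finset.mem_insert_self _ _)
    have h3 := one_le_prod_one_add Q f hf'
    nlinarith

open Classical in
private lemma mem_Q {N z : ℕ} {e t : ℤ} {p : ℕ} (h : p ∈ (DD N z t).filter (fun p : ℕ => ¬ (p : ℤ) ∣ e)) :
    N < p ∧ p ≤ z ∧ p.Prime ∧ (p : ℤ) ∣ t ∧ ¬ (p : ℤ) ∣ e := by
  rw [Finset.mem_filter, DD, Finset.mem_filter, PP, Finset.mem_filter, Finset.mem_Ioc] at h
  exact ⟨h.1.1.1.1, h.1.1.1.2, h.1.1.2, h.1.2, h.2⟩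

open Classical in
private lemma Q_subset (N z : ℕ) (e t : ℤ) (ht : t ≠ 0) :
    (DD N z t).filter (fun p : ℕ => ¬ (p : ℤ) ∣ e) ⊆ t.natAbs.primeFactors := by
  intro p hp
  obtain ⟨-, -, h1, h2, -⟩ := mem_Q hp
  rw [Nat.mem_primeFactors]
  exact ⟨h1, Int.natCast_dvd.1 h2, Int.natAbs_ne_zero.2 ht⟩

private lemma ss_nonneg (N z : ℕ) (e t : ℤ) : 0 ≤ ss N z e t := by
  unfold ss
  exact Finset.sum_nonneg fun p _ => by positivity

private lemma ss_le_W (N z : ℕ) (e t : ℤ) (ht : t ≠ 0) : ss N z e t ≤ Helper83.HLC.W t.natAbs := by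
  classical
  unfold ss Helper83.HLC.W
  calc ∑ p ∈ (DD N z t).filter (fun p : ℕ => ¬ (p : ℤ) ∣ e), 1 / (p : ℝ)
      ≤ ∑ p ∈ t.natAbs.primeFactors, 1 / (p : ℝ) := by
        refine Finset.sum_le_sum_of_subset_of_nonneg ?_ (fun p _ _ => by positivity)
        intro p hp
        exact Q_subset N z e t ht (by convert hp)
    _ ≤ ∑ p ∈ t.natAbs.primeFactors, 2 / (p : ℝ) := by
        refine Finset.sum_le_sum fun p _ => ?_
        exact div_le_div_of_nonneg_right (by norm_num) (Nat.cast_nonneg p)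
    _ ≤ ∏ p ∈ t.natAbs.primeFactors, (1 + 2 / (p : ℝ)) :=
        sum_le_prod_one_add _ _ fun p _ => by positivity

private lemma g2_le (C : ℝ) (hC : 0 ≤ C) (N z : ℕ) (e t : ℤ) (ht : t ≠ 0) :
    g2 C N z e t ≤ C * (ss N z e t * Helper83.HLC.W t.natAbs ^ ⌈C⌉₊) := by
  classical
  have hsub := Q_subset N z e t ht
  have h1 : g2 C N z e t ≤ (∑ p ∈ (DD N z t).filter (fun p : ℕ => ¬ (p : ℤ) ∣ e), C / (p : ℝ)) *
      ∏ p ∈ (DD N z t).filter (fun p : ℕ => ¬ (p : ℤ) ∣ e), (1 + C / (p : ℝ)) := by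
    rw [g2_eq]
    convert prod_sub_one_le ((DD N z t).filter (fun p : ℕ => ¬ (p : ℤ) ∣ e)) (fun p : ℕ => C / (p : ℝ))
      (fun p _ => by positivity) using 1
  have h2 : ∑ p ∈ (DD N z t).filter (fun p : ℕ => ¬ (p : ℤ) ∣ e), C / (p : ℝ) = C * ss N z e t := by
    unfold ss
    rw [Finset.mul_sum]
    refine Finset.sum_congr (by congr) fun p _ => ?_
    ring
  have h3 : ∏ p ∈ (DD N z t).filter (fun p : ℕ => ¬ (p : ℤ) ∣ e), (1 + C / (p : ℝ)) ≤
      Helper83.HLC.W t.natAbs ^ ⌈C⌉₊ := by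
    unfold Helper83.HLC.W
    rw [← Finset.prod_pow]
    calc ∏ p ∈ (DD N z t).filter (fun p : ℕ => ¬ (p : ℤ) ∣ e), (1 + C / (p : ℝ))
        ≤ ∏ p ∈ t.natAbs.primeFactors, (1 + C / (p : ℝ)) := by
          refine Finset.prod_le_prod_of_subset_of_one_le hsub ?_ ?_
          · intro p _; positivity
          · intro p _ _
            have : 0 ≤ C / (p : ℝ) := by positivity
            linarith
      _ ≤ ∏ p ∈ t.natAbs.primeFactors, (1 + 2 / (p : ℝ)) ^ ⌈C⌉₊ := by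
          refine Finset.prod_le_prod (fun p _ => by positivity) fun p _ => ?_
          have h4 := one_add_mul_le_pow (a := 2 / (p : ℝ))
            (le_trans (by norm_num : (-2 : ℝ) ≤ 0) (by positivity)) ⌈C⌉₊
          have h5 : C / (p : ℝ) ≤ (⌈C⌉₊ : ℝ) * (2 / (p : ℝ)) := by
            have h6 : C ≤ (⌈C⌉₊ : ℝ) * 2 := by
              have := Nat.le_ceil C
              have h7 : (0 : ℝ) ≤ (⌈C⌉₊ : ℝ) := Nat.cast_nonneg _
              linarith
            calc C / (p : ℝ) ≤ ((⌈C⌉₊ : ℝ) * 2) / (p : ℝ) :=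
                  div_le_div_of_nonneg_right h6 (Nat.cast_nonneg p)
              _ = _ := by ring
          linarith
  have h8 := ss_nonneg N z e t
  calc g2 C N z e t ≤ _ := h1
    _ ≤ (C * ss N z e t) * Helper83.HLC.W t.natAbs ^ ⌈C⌉₊ := by
        rw [h2]
        exact mul_le_mul_of_nonneg_left h3 (by positivity)
    _ = _ := by ring

/-- The integer `τ`. -/
private def tt (d d' u u' : ℕ) (q : ℕ × ℕ) : ℤ := (d : ℤ) * ((u' : ℤ) - q.2) - d' * ((u : ℤ) - q.1)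

private lemma tt_eq (d d' u u' : ℕ) (q : ℕ × ℕ) :
    tt d d' u u' q = (d' : ℤ) * ((q.1 : ℤ) - u) - d * ((q.2 : ℤ) - u') := by
  unfold tt; ring

open Classical in
private lemma count_le {p d : ℕ} (hp : p.Prime) (hpd : ¬ (p : ℤ) ∣ (d : ℤ)) (d' u u' y H : ℕ) :
    (((Ioc y (y + H) ×ˢ Ioc y (y + H)).filter fun q => (p : ℤ) ∣ tt d d' u u' q).card : ℝ) ≤
      (H : ℝ) * ((H : ℝ) / p + 1) := by
  have hcard : ((Ioc y (y + H) ×ˢ Ioc y (y + H)).filter fun q => (p : ℤ) ∣ tt d d' u u' q).card ≤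
      (Ioc y (y + H) ×ˢ range (H / p + 1)).card := by
    refine Finset.card_le_card_of_injOn (fun q => (q.1, (q.2 - y) / p)) ?_ ?_
    · intro q hq
      have hq' := Finset.mem_filter.1 (Finset.mem_coe.1 hq)
      rw [Finset.mem_product, Finset.mem_Ioc, Finset.mem_Ioc] at hq'
      have h1 : q.2 - y ≤ H := by omega
      have h2 := Nat.div_le_div_right (c := p) h1
      refine Finset.mem_coe.2 (Finset.mem_product.2 ⟨Finset.mem_Ioc.2 hq'.1.1, Finset.mem_range.2 ?_⟩)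
      show (q.2 - y) / p < H / p + 1
      omega
    · intro a ha b hb hab
      have ha' := Finset.mem_filter.1 (Finset.mem_coe.1 ha)
      have hb' := Finset.mem_filter.1 (Finset.mem_coe.1 hb)
      rw [Finset.mem_product, Finset.mem_Ioc, Finset.mem_Ioc] at ha' hb'
      have e1 : a.1 = b.1 := (Prod.ext_iff.1 hab).1
      have e2 : (a.2 - y) / p = (b.2 - y) / p := (Prod.ext_iff.1 hab).2
      have e3 : (p : ℤ) ∣ (d : ℤ) * ((a.2 : ℤ) - b.2) := by
        have h := dvd_sub hb'.2 ha'.2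
        have h' : tt d d' u u' b - tt d d' u u' a = (d : ℤ) * ((a.2 : ℤ) - b.2) := by
          unfold tt
          rw [e1]
          ring
        rwa [h'] at h
      have hpZ : Prime (p : ℤ) := Nat.prime_iff_prime_int.1 hp
      have e4 : (p : ℤ) ∣ (a.2 : ℤ) - b.2 := (hpZ.dvd_or_dvd e3).resolve_left hpd
      have e5 : (a.2 - y) % p = (b.2 - y) % p := by
        have h4 : ((a.2 - y : ℕ) : ℤ) - ((b.2 - y : ℕ) : ℤ) = (a.2 : ℤ) - b.2 := by
          rw [Nat.cast_sub (by omega), Nat.cast_sub (by omega)]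
          ring
        have h5 : (b.2 - y) ≡ (a.2 - y) [MOD p] := by
          rw [Nat.modEq_iff_dvd, h4]
          exact e4
        exact h5.symm
      have e6 : a.2 - y = b.2 - y := by
        rw [← Nat.div_add_mod (a.2 - y) p, ← Nat.div_add_mod (b.2 - y) p, e2, e5]
      have e7 : a.2 = b.2 := by omega
      exact Prod.ext e1 e7
  have h2 : (Ioc y (y + H) ×ˢ range (H / p + 1)).card = H * (H / p + 1) := by
    rw [Finset.card_product, Nat.card_Ioc, Finset.card_range]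
    congr 1
    omega
  rw [h2] at hcard
  calc (((Ioc y (y + H) ×ˢ Ioc y (y + H)).filter fun q => (p : ℤ) ∣ tt d d' u u' q).card : ℝ)
      ≤ ((H * (H / p + 1) : ℕ) : ℝ) := by exact_mod_cast hcard
    _ = (H : ℝ) * (((H / p : ℕ) : ℝ) + 1) := by push_cast; ring
    _ ≤ _ := by
        have := Nat.cast_div_le (α := ℝ) (m := H) (n := p)
        exact mul_le_mul_of_nonneg_left (by linarith) (Nat.cast_nonneg H)

private lemma large_primes (M : ℕ) (hM : 2 ≤ M) (n : ℕ) (hn : n ≠ 0) (T : Finset ℕ)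
    (hT : T ⊆ n.primeFactors) (hT' : ∀ p ∈ T, M < p) :
    ∑ p ∈ T, 1 / (p : ℝ) ≤ Real.log n / (M * Real.log M) := by
  have hM0 : (0 : ℝ) < M := by exact_mod_cast (by omega : 0 < M)
  have hlM : 0 < Real.log M := Real.log_pos (by exact_mod_cast (by omega : 1 < M))
  have h1 : (T.card : ℝ) * Real.log M ≤ Real.log n := by
    have h2 : ∏ p ∈ T, p ≤ n := by
      have h3 : ∏ p ∈ T, p ∣ n :=
        (Finset.prod_dvd_prod_of_subset _ _ _ hT).trans (Nat.prod_primeFactors_dvd n)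
      exact Nat.le_of_dvd (Nat.pos_of_ne_zero hn) h3
    have h4 : M ^ T.card ≤ ∏ p ∈ T, p := by
      rw [← Finset.prod_const]
      exact Finset.prod_le_prod' fun p hp => (hT' p hp).le
    have h5 : ((M : ℝ)) ^ T.card ≤ n := by exact_mod_cast h4.trans h2
    have h6 := Real.log_le_log (by positivity) h5
    rwa [Real.log_pow] at h6
  calc ∑ p ∈ T, 1 / (p : ℝ) ≤ ∑ _p ∈ T, 1 / (M : ℝ) := by
        refine Finset.sum_le_sum fun p hp => ?_
        exact one_div_le_one_div_of_le hM0 (by exact_mod_cast (hT' p hp).le)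
    _ = (T.card : ℝ) / M := by rw [Finset.sum_const, nsmul_eq_mul]; ring
    _ ≤ _ := by
        rw [div_le_div_iff₀ hM0 (by positivity)]
        nlinarith

private lemma small_sum (N M H : ℕ) (hN : 1 ≤ N) (T : Finset ℕ) (hT : ∀ p ∈ T, N < p ∧ p ≤ M) :
    ∑ p ∈ T, (1 / (p : ℝ)) * ((H : ℝ) * ((H : ℝ) / p + 1)) ≤
      (H : ℝ) ^ 2 * (1 / N) + H * (1 + Real.log M) := by
  rcases Nat.lt_or_ge M N with hMN | hMN
  · have : T = ∅ := by
      refine Finset.eq_empty_of_forall_notMem fun p hp => ?_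
      have := hT p hp
      omega
    rw [this, Finset.sum_empty]
    have h1 : 0 ≤ Real.log M := Real.log_natCast_nonneg M
    positivity
  · have h1 : ∑ p ∈ T, (1 / (p : ℝ)) * ((H : ℝ) * ((H : ℝ) / p + 1)) =
        (H : ℝ) ^ 2 * ∑ p ∈ T, ((p : ℝ) ^ 2)⁻¹ + H * ∑ p ∈ T, (p : ℝ)⁻¹ := by
      rw [Finset.mul_sum, Finset.mul_sum, ← Finset.sum_add_distrib]
      refine Finset.sum_congr rfl fun p hp => ?_
      have h2 : (p : ℝ) ≠ 0 := by
        have := hT p hp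
        exact_mod_cast (by omega : p ≠ 0)
      field_simp
    have h3 : ∑ p ∈ T, ((p : ℝ) ^ 2)⁻¹ ≤ 1 / N := by
      calc ∑ p ∈ T, ((p : ℝ) ^ 2)⁻¹ ≤ ∑ p ∈ Ioc N M, ((p : ℝ) ^ 2)⁻¹ := by
            refine Finset.sum_le_sum_of_subset_of_nonneg ?_ (fun p _ _ => by positivity)
            intro p hp
            exact Finset.mem_Ioc.2 (hT p hp)
        _ ≤ (N : ℝ)⁻¹ - (M : ℝ)⁻¹ := sum_Ioc_inv_sq_le_sub (by omega) hMN
        _ ≤ 1 / N := by
            have : (0 : ℝ) ≤ (M : ℝ)⁻¹ := by positivity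
            rw [one_div]
            linarith
    have h4 : ∑ p ∈ T, (p : ℝ)⁻¹ ≤ 1 + Real.log M := by
      have h5 := harmonic_le_one_add_log M
      rw [harmonic_eq_sum_Icc] at h5
      push_cast at h5
      refine le_trans ?_ h5
      refine Finset.sum_le_sum_of_subset_of_nonneg ?_ (fun p _ _ => by positivity)
      intro p hp
      have := hT p hp
      exact Finset.mem_Icc.2 ⟨by omega, this.2⟩
    rw [h1]
    have h6 : (0 : ℝ) ≤ H := Nat.cast_nonneg H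
    have h7 := mul_le_mul_of_nonneg_left h3 (by positivity : (0 : ℝ) ≤ (H : ℝ) ^ 2)
    have h8 := mul_le_mul_of_nonneg_left h4 h6
    linarith

open Classical in
private lemma sum_ss_le (N z y H d d' u u' : ℕ) (hN : 1 ≤ N) (hH : 2 ≤ H) (B : ℝ)
    (hB : ∀ q ∈ Ioc y (y + H) ×ˢ Ioc y (y + H), Real.log (tt d d' u u' q).natAbs ≤ B) :
    ∑ q ∈ (Ioc y (y + H) ×ˢ Ioc y (y + H)).filter (fun q => tt d d' u u' q ≠ 0),
      ss N z d (tt d d' u u' q) ≤
      (H : ℝ) ^ 2 * (1 / N) + H * (1 + Real.log (H ^ 2 : ℕ)) +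
        (H : ℝ) ^ 2 * (B / ((H ^ 2 : ℕ) * Real.log (H ^ 2 : ℕ))) := by
  obtain ⟨M, hM⟩ : ∃ M, M = H ^ 2 := ⟨_, rfl⟩
  have hM2 : 2 ≤ M := by rw [hM]; nlinarith
  rw [← hM]
  have hMpos : (0 : ℝ) < M := by exact_mod_cast (by omega : 0 < M)
  have hlM : 0 < Real.log M := Real.log_pos (by exact_mod_cast (by omega : 1 < M))
  -- pointwise
  have h1 : ∀ q ∈ (Ioc y (y + H) ×ˢ Ioc y (y + H)).filter (fun q => tt d d' u u' q ≠ 0),
      ss N z d (tt d d' u u' q) ≤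
        (∑ p ∈ (PP N z).filter (fun p : ℕ => p ≤ M ∧ ¬ (p : ℤ) ∣ (d : ℤ)),
          if (p : ℤ) ∣ tt d d' u u' q then 1 / (p : ℝ) else 0) + B / (M * Real.log M) := by
    intro q hq
    rw [Finset.mem_filter] at hq
    have h2 := Q_subset N z d (tt d d' u u' q) hq.2
    have h3 : ss N z d (tt d d' u u' q) =
        ∑ p ∈ ((DD N z (tt d d' u u' q)).filter (fun p : ℕ => ¬ (p : ℤ) ∣ (d : ℤ))).filter (fun p : ℕ => p ≤ M),
          1 / (p : ℝ) +
        ∑ p ∈ ((DD N z (tt d d' u u' q)).filter (fun p : ℕ => ¬ (p : ℤ) ∣ (d : ℤ))).filter (fun p : ℕ => ¬ p ≤ M),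
          1 / (p : ℝ) := by
      unfold ss
      rw [Finset.sum_filter_add_sum_filter_not]
    rw [h3]
    refine add_le_add ?_ ?_
    · rw [← Finset.sum_filter]
      refine le_of_eq (Finset.sum_congr ?_ fun _ _ => rfl)
      ext p
      simp only [Finset.mem_filter, DD]
      tauto
    · have h4 := large_primes M hM2 (tt d d' u u' q).natAbs (Int.natAbs_ne_zero.2 hq.2)
        (((DD N z (tt d d' u u' q)).filter (fun p : ℕ => ¬ (p : ℤ) ∣ (d : ℤ))).filter (fun p : ℕ => ¬ p ≤ M))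
        ((Finset.filter_subset _ _).trans h2) (fun p hp => not_le.1 (Finset.mem_filter.1 hp).2)
      refine h4.trans ?_
      exact div_le_div_of_nonneg_right (hB q hq.1) (by positivity)
  have hlog0 : 0 ≤ B ∨ (Ioc y (y + H) ×ˢ Ioc y (y + H)) = ∅ := by
    rcases Finset.eq_empty_or_nonempty (Ioc y (y + H) ×ˢ Ioc y (y + H)) with h | ⟨q, hq⟩
    · exact Or.inr h
    · exact Or.inl ((Real.log_natCast_nonneg _).trans (hB q hq))
  have hB0 : 0 ≤ B := by
    rcases hlog0 with h | h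
    · exact h
    · exfalso
      have h5 : (y + 1, y + 1) ∈ Ioc y (y + H) ×ˢ Ioc y (y + H) := by
        rw [Finset.mem_product, Finset.mem_Ioc]
        constructor <;> constructor <;> simp <;> omega
      rw [h] at h5
      exact absurd h5 (Finset.notMem_empty _)
  refine (Finset.sum_le_sum h1).trans ?_
  rw [Finset.sum_add_distrib]
  refine add_le_add ?_ ?_
  · rw [Finset.sum_comm]
    refine le_trans (Finset.sum_le_sum (g := fun p : ℕ => (1 / (p : ℝ)) * ((H : ℝ) * ((H : ℝ) / p + 1))) ?_)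
      (small_sum N M H hN _ ?_)
    · intro p hp
      rw [Finset.mem_filter, PP, Finset.mem_filter] at hp
      have h6 := count_le hp.1.2 hp.2.2 d' u u' y H
      rw [← Finset.sum_filter, Finset.sum_const, nsmul_eq_mul, mul_comm]
      refine mul_le_mul_of_nonneg_left (le_trans ?_ h6) (by positivity)
      have h7 : (((Ioc y (y + H) ×ˢ Ioc y (y + H)).filter (fun q => tt d d' u u' q ≠ 0)).filter
          (fun q => (p : ℤ) ∣ tt d d' u u' q)).card ≤
          ((Ioc y (y + H) ×ˢ Ioc y (y + H)).filter (fun q => (p : ℤ) ∣ tt d d' u u' q)).card := by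
        refine Finset.card_le_card ?_
        intro q hq
        rw [Finset.mem_filter, Finset.mem_filter] at hq
        exact Finset.mem_filter.2 ⟨hq.1.1, hq.2⟩
      exact_mod_cast h7
    · intro p hp
      rw [Finset.mem_filter, PP, Finset.mem_filter, Finset.mem_Ioc] at hp
      exact ⟨hp.1.1.1, hp.2.1⟩
  · rw [Finset.sum_const, nsmul_eq_mul]
    refine mul_le_mul_of_nonneg_right ?_ (by positivity)
    have h8 : ((Ioc y (y + H) ×ˢ Ioc y (y + H)).filter (fun q => tt d d' u u' q ≠ 0)).card ≤ H ^ 2 := by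
      refine (Finset.card_filter_le _ _).trans ?_
      rw [Finset.card_product, Nat.card_Ioc]
      refine le_of_eq ?_
      rw [Nat.add_sub_cancel_left]
      ring
    exact_mod_cast h8

private lemma tt_log {X y H d d' u u' : ℕ} (hX : 6 ≤ X) (hd : d ≤ X) (hd' : d' ≤ X) (hy : y + H ≤ 3 * X)
    (hu : u ≤ X) (hu' : u' ≤ X) : ∀ q ∈ Ioc y (y + H) ×ˢ Ioc y (y + H),
    Real.log (tt d d' u u' q).natAbs ≤ 3 * Real.log X := by
  intro q hq
  rw [Finset.mem_product, Finset.mem_Ioc, Finset.mem_Ioc] at hq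
  have hX0 : (0 : ℝ) < X := by exact_mod_cast (by omega : 0 < X)
  rcases Nat.eq_zero_or_pos (tt d d' u u' q).natAbs with h | h
  · rw [h, Nat.cast_zero, Real.log_zero]
    have := Real.log_natCast_nonneg X
    linarith
  · have h1 : |tt d d' u u' q| ≤ (X : ℤ) ^ 3 := by
      unfold tt
      have c1 : (0 : ℤ) ≤ d := Int.natCast_nonneg d
      have c2 : (0 : ℤ) ≤ d' := Int.natCast_nonneg d'
      have c3 : (d : ℤ) ≤ X := by exact_mod_cast hd
      have c4 : (d' : ℤ) ≤ X := by exact_mod_cast hd'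
      have c5 : (q.1 : ℤ) ≤ 3 * X := by exact_mod_cast (by omega : q.1 ≤ 3 * X)
      have c6 : (q.2 : ℤ) ≤ 3 * X := by exact_mod_cast (by omega : q.2 ≤ 3 * X)
      have c7 : (u : ℤ) ≤ X := by exact_mod_cast hu
      have c8 : (u' : ℤ) ≤ X := by exact_mod_cast hu'
      have c9 : (0 : ℤ) ≤ q.1 := Int.natCast_nonneg _
      have c10 : (0 : ℤ) ≤ q.2 := Int.natCast_nonneg _
      have c11 : (0 : ℤ) ≤ u := Int.natCast_nonneg _
      have c12 : (0 : ℤ) ≤ u' := Int.natCast_nonneg _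
      have c13 : (6 : ℤ) ≤ X := by exact_mod_cast hX
      have d1 : |(u' : ℤ) - q.2| ≤ 3 * X := by rw [abs_le]; constructor <;> linarith
      have d2 : |(u : ℤ) - q.1| ≤ 3 * X := by rw [abs_le]; constructor <;> linarith
      have d3 : |(d : ℤ) * ((u' : ℤ) - q.2)| ≤ X * (3 * X) := by
        rw [abs_mul, abs_of_nonneg c1]
        exact mul_le_mul c3 d1 (abs_nonneg _) (by linarith)
      have d4 : |(d' : ℤ) * ((u : ℤ) - q.1)| ≤ X * (3 * X) := by
        rw [abs_mul, abs_of_nonneg c2]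
        exact mul_le_mul c4 d2 (abs_nonneg _) (by linarith)
      have d5 : |(d : ℤ) * ((u' : ℤ) - q.2) - d' * ((u : ℤ) - q.1)| ≤ X * (3 * X) + X * (3 * X) :=
        (abs_sub _ _).trans (add_le_add d3 d4)
      refine d5.trans ?_
      have d6 : (0 : ℤ) ≤ X ^ 2 := by positivity
      nlinarith
    have h2 : (tt d d' u u' q).natAbs ≤ X ^ 3 := by
      have h3 : ((tt d d' u u' q).natAbs : ℤ) ≤ (X : ℤ) ^ 3 := by
        rw [Int.natCast_natAbs]
        exact h1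
      exact_mod_cast h3
    have h4 : ((tt d d' u u' q).natAbs : ℝ) ≤ (X : ℝ) ^ 3 := by exact_mod_cast h2
    have h5 := Real.log_le_log (by exact_mod_cast h) h4
    rw [Real.log_pow] at h5
    push_cast at h5
    exact h5

private lemma exists_H0 (c η' : ℝ) (hc : 0 < c) (hη : 0 < η') : ∃ H0 : ℕ, ∀ H : ℕ, H0 ≤ H →
    2 ≤ H ∧ 1 + Real.log (H ^ 2 : ℕ) ≤ η' / 2 * H ∧ 3 / (c * Real.log (H ^ 2 : ℕ)) ≤ η' / 2 := by
  have h1 : Filter.Tendsto (fun H : ℕ => (H : ℝ)) Filter.atTop Filter.atTop :=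
    tendsto_natCast_atTop_atTop
  have h2 : Filter.Tendsto (fun x : ℝ => (1 + 2 * Real.log x) / x) Filter.atTop (nhds 0) := by
    have a1 : Filter.Tendsto (fun x : ℝ => Real.log x / x) Filter.atTop (nhds 0) := by
      have := Real.isLittleO_log_id_atTop.tendsto_div_nhds_zero
      simpa using this
    have a2 : Filter.Tendsto (fun x : ℝ => 1 / x) Filter.atTop (nhds 0) := by
      simpa using tendsto_inv_atTop_zero (𝕜 := ℝ)
    have a3 := a2.add (a1.const_mul 2)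
    rw [mul_zero, add_zero] at a3
    refine a3.congr fun x => ?_
    ring
  have h3 := (h2.comp h1).eventually (gt_mem_nhds (by positivity : (0 : ℝ) < η' / 2))
  have h4 : ∀ᶠ H : ℕ in Filter.atTop, 3 / (c * (η' / 2)) ≤ Real.log H :=
    (Real.tendsto_log_atTop.comp h1).eventually_ge_atTop _
  obtain ⟨H0, hH0⟩ := Filter.eventually_atTop.1 (h3.and h4)
  refine ⟨max H0 2, fun H hH => ?_⟩
  have hH2 : 2 ≤ H := le_trans (le_max_right _ _) hH
  obtain ⟨b1, b2⟩ := hH0 H (le_trans (le_max_left _ _) hH)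
  have hHpos : (0 : ℝ) < H := by exact_mod_cast (by omega : 0 < H)
  have hlog : Real.log (H ^ 2 : ℕ) = 2 * Real.log H := by
    push_cast
    rw [Real.log_pow]
    push_cast
    ring
  have hlH : 0 < Real.log H := Real.log_pos (by exact_mod_cast (by omega : 1 < H))
  refine ⟨hH2, ?_, ?_⟩
  · rw [hlog]
    have b1' : (1 + 2 * Real.log (H : ℝ)) / H < η' / 2 := b1
    rw [div_lt_iff₀ hHpos] at b1'
    exact b1'.le
  · rw [hlog, div_le_iff₀ (by positivity)]
    have b3 : 3 / (c * (η' / 2)) * (c * (η' / 2)) = 3 := by field_simp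
    have b4 := mul_le_mul_of_nonneg_right b2 (by positivity : (0 : ℝ) ≤ c * (η' / 2))
    rw [b3] at b4
    nlinarith [mul_pos (mul_pos hc (by positivity : (0 : ℝ) < η' / 2)) hlH]

open Classical in
private lemma cauchy (P : Finset (ℕ × ℕ)) (s w : ℕ × ℕ → ℝ) (k : ℕ) (hs : ∀ q ∈ P, 0 ≤ s q)
    (hw : ∀ q ∈ P, 0 ≤ w q) (hsw : ∀ q ∈ P, s q ≤ w q) :
    (∑ q ∈ P, s q * w q ^ k) ^ 2 ≤ (∑ q ∈ P, s q) * ∑ q ∈ P, w q ^ (2 * k + 1) := by
  have h1 := Finset.sum_mul_sq_le_sq_mul_sq P (fun q => √(s q)) (fun q => √(s q) * w q ^ k)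
  have h2 : ∑ q ∈ P, √(s q) * (√(s q) * w q ^ k) = ∑ q ∈ P, s q * w q ^ k := by
    refine Finset.sum_congr rfl fun q hq => ?_
    rw [← mul_assoc, Real.mul_self_sqrt (hs q hq)]
  have h3 : ∑ q ∈ P, √(s q) ^ 2 = ∑ q ∈ P, s q :=
    Finset.sum_congr rfl fun q hq => Real.sq_sqrt (hs q hq)
  have h4 : ∑ q ∈ P, (√(s q) * w q ^ k) ^ 2 ≤ ∑ q ∈ P, w q ^ (2 * k + 1) := by
    refine Finset.sum_le_sum fun q hq => ?_
    rw [mul_pow, Real.sq_sqrt (hs q hq), ← pow_mul, pow_succ, mul_comm k 2, mul_comm (s q)]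
    exact mul_le_mul_of_nonneg_left (hsw q hq) (pow_nonneg (hw q hq) _)
  rw [h2, h3] at h1
  exact h1.trans (mul_le_mul_of_nonneg_left h4 (Finset.sum_nonneg hs))

open Classical in
theorem g_pair (C : ℝ) (hC : 0 ≤ C) (C0 c : ℝ) (hc : 0 < c) : ∃ C1 : ℝ, 0 ≤ C1 ∧ ∀ η : ℝ, 0 < η →
    ∃ X0 : ℕ, ∀ X : ℕ, X0 ≤ X → ∀ N z y H d d' : ℕ, 1 ≤ N → 1 ≤ H → c * Real.log X ≤ (H : ℝ) ^ 2 →
    1 ≤ d → 1 ≤ d' → d ≤ 2 * H → d' ≤ 2 * d → d ≤ X → d' ≤ X → y + H ≤ 3 * X →
    Helper83.HLC.W d ≤ C0 → ∀ u u' : ℕ, u ≤ X → u' ≤ X →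
    ∑ h ∈ Ioc y (y + H), ∑ h' ∈ Ioc y (y + H),
      (if (d : ℤ) * ((u' : ℤ) - h') = d' * ((u : ℤ) - h) then 0
        else g2 C N z d ((d : ℤ) * ((u' : ℤ) - h') - d' * ((u : ℤ) - h))) ≤
      (C1 / √(N : ℝ) + η) * H ^ 2 := by
  obtain ⟨C', hC', hpair⟩ := Helper8.DW.pair_sum (2 * ⌈C⌉₊ + 1) (c / 2) (by positivity)
  obtain ⟨K, hK⟩ : ∃ K : ℝ, K = C' * |C0| ^ (2 * ⌈C⌉₊ + 1) := ⟨_, rfl⟩
  have hK0 : 0 ≤ K := by rw [hK]; positivity
  refine ⟨C * √K, by positivity, fun η hη => ?_⟩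
  obtain ⟨η', hη'⟩ : ∃ η' : ℝ, η' = η ^ 2 / (C ^ 2 * K + 1) := ⟨_, rfl⟩
  have hη'0 : 0 < η' := by rw [hη']; positivity
  obtain ⟨H0, hH0⟩ := exists_H0 c η' hc hη'0
  obtain ⟨X1, hX1⟩ : ∃ X1 : ℕ, (H0 : ℝ) ^ 2 ≤ c * Real.log X1 := by
    have h1 : Filter.Tendsto (fun X : ℕ => c * Real.log (X : ℝ)) Filter.atTop Filter.atTop :=
      (Real.tendsto_log_atTop.comp tendsto_natCast_atTop_atTop).const_mul_atTop hc
    exact (h1.eventually_ge_atTop _).exists
  refine ⟨max (max X1 6) 1, ?_⟩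
  intro X hX N z y H d d' hN hH hcH hd hd' hdH hdd hdX hdX' hyH hWd u u' hu hu'
  have hX6 : 6 ≤ X := le_trans (le_trans (le_max_right _ _) (le_max_left _ _)) hX
  have hXX1 : X1 ≤ X := le_trans (le_trans (le_max_left _ _) (le_max_left _ _)) hX
  have hXpos : (0 : ℝ) < X := by exact_mod_cast (by omega : 0 < X)
  have hHpos : (0 : ℝ) < H := by exact_mod_cast (by omega : 0 < H)
  have hNpos : (0 : ℝ) < N := by exact_mod_cast (by omega : 0 < N)
  have hH0H : H0 ≤ H := by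
    have h2 : (H0 : ℝ) ^ 2 ≤ (H : ℝ) ^ 2 := by
      rcases Nat.eq_zero_or_pos X1 with h | h
      · rw [h, Nat.cast_zero, Real.log_zero, mul_zero] at hX1
        exact hX1.trans (by positivity)
      · have h3 : Real.log X1 ≤ Real.log X :=
          Real.log_le_log (by exact_mod_cast h) (by exact_mod_cast hXX1)
        exact (hX1.trans (mul_le_mul_of_nonneg_left h3 hc.le)).trans hcH
    have h4 : (H0 : ℝ) ≤ H := by
      have := sq_le_sq.1 h2
      rwa [abs_of_nonneg (Nat.cast_nonneg _), abs_of_nonneg (Nat.cast_nonneg _)] at this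
    exact_mod_cast h4
  obtain ⟨hH2, hA, hB⟩ := hH0 H hH0H
  obtain ⟨P, hP⟩ : ∃ P : Finset (ℕ × ℕ), P = (Ioc y (y + H) ×ˢ Ioc y (y + H)).filter
      (fun q => tt d d' u u' q ≠ 0) := ⟨_, rfl⟩
  -- the first moment
  have hS1 : ∑ q ∈ P, ss N z d (tt d d' u u' q) ≤ (1 / N + η') * H ^ 2 := by
    have h1 := sum_ss_le N z y H d d' u u' hN hH2 (3 * Real.log X)
      (tt_log hX6 hdX hdX' hyH hu hu')
    rw [← hP] at h1
    refine h1.trans ?_
    have h2 : (H : ℝ) * (1 + Real.log (H ^ 2 : ℕ)) ≤ H * (η' / 2 * H) :=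
      mul_le_mul_of_nonneg_left hA hHpos.le
    have hlog : 0 < Real.log (H ^ 2 : ℕ) := Real.log_pos (by
      have : 1 < H ^ 2 := by nlinarith
      exact_mod_cast this)
    have h3 : 3 * Real.log X / ((H ^ 2 : ℕ) * Real.log (H ^ 2 : ℕ)) ≤ 3 / (c * Real.log (H ^ 2 : ℕ)) := by
      rw [div_le_div_iff₀ (by positivity) (by positivity)]
      have h4 : c * Real.log X ≤ ((H ^ 2 : ℕ) : ℝ) := by push_cast; exact hcH
      have h5 := mul_le_mul_of_nonneg_right h4 hlog.le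
      nlinarith
    have h6 := mul_le_mul_of_nonneg_left (h3.trans hB) (by positivity : (0 : ℝ) ≤ (H : ℝ) ^ 2)
    calc _ ≤ (H : ℝ) ^ 2 * (1 / N) + H * (η' / 2 * H) + (H : ℝ) ^ 2 * (η' / 2) := by linarith
      _ = _ := by ring
  -- the high moment
  have hS2 : ∑ q ∈ P, Helper83.HLC.W (tt d d' u u' q).natAbs ^ (2 * ⌈C⌉₊ + 1) ≤ K * H ^ 2 := by
    have hlog2 : c / 2 * Real.log ((2 * X : ℕ) : ℝ) ≤ (H : ℝ) ^ 2 := by
      have h1 : Real.log ((2 * X : ℕ) : ℝ) ≤ 2 * Real.log X := by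
        have h2 : ((2 * X : ℕ) : ℝ) ≤ (X : ℝ) ^ 2 := by
          have : 2 * X ≤ X ^ 2 := by nlinarith
          exact_mod_cast this
        have h3 := Real.log_le_log (by push_cast; positivity) h2
        rw [Real.log_pow] at h3
        push_cast at h3 ⊢
        exact h3
      calc c / 2 * Real.log ((2 * X : ℕ) : ℝ) ≤ c / 2 * (2 * Real.log X) :=
            mul_le_mul_of_nonneg_left h1 (by positivity)
        _ = c * Real.log X := by ring
        _ ≤ _ := hcH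
    have h1 := hpair (2 * X) (by omega) y H d d' hH hlog2 hd hd' hdH hdd (by omega) (by omega)
      (by omega) u u' (by omega) (by omega)
    have hW1 : ∀ n, 0 ≤ Helper83.HLC.W n := fun n => by
      unfold Helper83.HLC.W
      positivity
    have h2 : ∑ q ∈ P, Helper83.HLC.W (tt d d' u u' q).natAbs ^ (2 * ⌈C⌉₊ + 1) ≤
        ∑ h ∈ Ioc y (y + H), ∑ h' ∈ Ioc y (y + H),
          Helper83.HLC.W ((d' : ℤ) * ((h : ℤ) - u) - d * ((h' : ℤ) - u')).natAbs ^ (2 * ⌈C⌉₊ + 1) := by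
      rw [← Finset.sum_product', hP]
      refine (Finset.sum_le_sum_of_subset_of_nonneg (Finset.filter_subset _ _)
        (fun q _ _ => pow_nonneg (hW1 _) _)).trans (le_of_eq ?_)
      refine Finset.sum_congr rfl fun q _ => ?_
      rw [tt_eq]
    refine (h2.trans h1).trans ?_
    have h3 : Helper83.HLC.W (Nat.gcd d d') ≤ |C0| :=
      ((Helper8.DW.W_le_of_dvd (Nat.gcd_dvd_left d d') (by omega)).trans hWd).trans (le_abs_self _)
    have h4 := pow_le_pow_left₀ (hW1 _) h3 (2 * ⌈C⌉₊ + 1)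
    calc C' * (H : ℝ) ^ 2 * Helper83.HLC.W (Nat.gcd d d') ^ (2 * ⌈C⌉₊ + 1)
        ≤ C' * (H : ℝ) ^ 2 * |C0| ^ (2 * ⌈C⌉₊ + 1) := mul_le_mul_of_nonneg_left h4 (by positivity)
      _ = K * H ^ 2 := by rw [hK]; ring
  -- Cauchy-Schwarz
  have hcs := cauchy P (fun q => ss N z d (tt d d' u u' q))
    (fun q => Helper83.HLC.W (tt d d' u u' q).natAbs) ⌈C⌉₊ (fun q _ => ss_nonneg _ _ _ _)
    (fun q _ => by unfold Helper83.HLC.W; positivity)
    (fun q hq => ss_le_W _ _ _ _ (by rw [hP] at hq; exact (Finset.mem_filter.1 hq).2))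
  have hmain : ∑ q ∈ P, ss N z d (tt d d' u u' q) * Helper83.HLC.W (tt d d' u u' q).natAbs ^ ⌈C⌉₊ ≤
      √((1 / N + η') * K) * H ^ 2 := by
    have hS10 : 0 ≤ ∑ q ∈ P, ss N z d (tt d d' u u' q) := Finset.sum_nonneg fun q _ => ss_nonneg _ _ _ _
    have h1 : (∑ q ∈ P, ss N z d (tt d d' u u' q) * Helper83.HLC.W (tt d d' u u' q).natAbs ^ ⌈C⌉₊) ^ 2 ≤
        ((1 / N + η') * K) * (H ^ 2) ^ 2 := by
      refine hcs.trans ?_
      calc _ ≤ ((1 / (N : ℝ) + η') * H ^ 2) * (K * H ^ 2) :=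
            mul_le_mul hS1 hS2 (Finset.sum_nonneg fun q _ => by unfold Helper83.HLC.W; positivity)
              (by positivity)
        _ = _ := by ring
    have h2 := Real.le_sqrt_of_sq_le h1
    rwa [Real.sqrt_mul (by positivity), Real.sqrt_sq (by positivity)] at h2
  have hsq : C * √((1 / N + η') * K) ≤ C * √K / √(N : ℝ) + η := by
    have h1 : √((1 / N + η') * K) ≤ √(K / N) + √(η' * K) := by
      rw [show (1 / (N : ℝ) + η') * K = K / N + η' * K by ring]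
      rw [Real.sqrt_le_left (by positivity), add_sq, Real.sq_sqrt (by positivity), Real.sq_sqrt (by positivity)]
      have : 0 ≤ √(K / N) * √(η' * K) := by positivity
      linarith
    have h2 : C * √(η' * K) ≤ η := by
      have h3 : (C * √(η' * K)) ^ 2 ≤ η ^ 2 := by
        rw [mul_pow, Real.sq_sqrt (by positivity), hη']
        have h4 : C ^ 2 * (η ^ 2 / (C ^ 2 * K + 1) * K) = η ^ 2 * ((C ^ 2 * K) / (C ^ 2 * K + 1)) := by ring
        rw [h4]
        have h5 : C ^ 2 * K / (C ^ 2 * K + 1) ≤ 1 := by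
          rw [div_le_one (by positivity)]
          linarith
        have h6 : (0 : ℝ) ≤ η ^ 2 := by positivity
        nlinarith
      have := abs_le_of_sq_le_sq' h3 hη.le
      exact this.2
    calc C * √((1 / N + η') * K) ≤ C * (√(K / N) + √(η' * K)) := mul_le_mul_of_nonneg_left h1 hC
      _ = C * √(K / N) + C * √(η' * K) := by ring
      _ ≤ C * √(K / N) + η := by linarith
      _ = _ := by rw [Real.sqrt_div hK0]; ring
  calc ∑ h ∈ Ioc y (y + H), ∑ h' ∈ Ioc y (y + H),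
      (if (d : ℤ) * ((u' : ℤ) - h') = d' * ((u : ℤ) - h) then 0
        else g2 C N z d ((d : ℤ) * ((u' : ℤ) - h') - d' * ((u : ℤ) - h)))
      = ∑ q ∈ P, g2 C N z d (tt d d' u u' q) := by
        rw [← Finset.sum_product', hP, Finset.sum_filter]
        refine Finset.sum_congr rfl fun q _ => ?_
        by_cases h : (d : ℤ) * ((u' : ℤ) - q.2) = d' * ((u : ℤ) - q.1)
        · rw [if_pos h, if_neg]
          rw [ne_eq, not_not]
          unfold tt
          rw [h, sub_self]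
        · rw [if_neg h, if_pos]
          · rfl
          · unfold tt
            exact sub_ne_zero.2 h
    _ ≤ ∑ q ∈ P, C * (ss N z d (tt d d' u u' q) * Helper83.HLC.W (tt d d' u u' q).natAbs ^ ⌈C⌉₊) := by
        refine Finset.sum_le_sum fun q hq => ?_
        rw [hP] at hq
        exact g2_le C hC N z d _ (Finset.mem_filter.1 hq).2
    _ = C * ∑ q ∈ P, ss N z d (tt d d' u u' q) * Helper83.HLC.W (tt d d' u u' q).natAbs ^ ⌈C⌉₊ := by
        rw [Finset.mul_sum]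
    _ ≤ C * (√((1 / N + η') * K) * H ^ 2) := mul_le_mul_of_nonneg_left hmain hC
    _ = (C * √((1 / N + η') * K)) * H ^ 2 := by ring
    _ ≤ (C * √K / √(N : ℝ) + η) * H ^ 2 := mul_le_mul_of_nonneg_right hsq (by positivity)

end Pool.Agent.Helper39.SC
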