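import Pool.Agent.Helper39.SC.KeySq
import Pool.Agent.Helper83.HLC.RSum

/-!
# SC-10: the averages over the multiples of the elements of `E`, with arbitrary coefficients

PROOF. `blocks` with `f = b ∘ Ω` and `M = 4 X` (`(n + y + H)/d + J ≤ 3 X + J ≤ 4 X`): `Tc (c d) b y H n d ≤ (1/J) ∑_(m ∈ Icc 1 M) |G d m n|`,
`G d m n = ∑_(j < J) cj c y H d (d m - n) j * b (Ω (d (m - j)))`. `G ≠ 0` only if `y < d m - n ≤ y + H + 2 D J ≤ y + 2 H` (`H0 ≥ 2 J`), so by `card_m` for at most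
`2 H / D + 1 ≤ 3 H / D` values of `m`. Cauchy-Schwarz over the triples `(n, d, m)` with `G ≠ 0` and the weights `GG a n ≥ 0`:
`∑ GG |G| ≤ (∑_n GG a n |E| 3 H / D)^(1/2) (∑ GG G^2)^(1/2) ≤ (C X |E| 3 H / D)^(1/2) (ε' J^2 (|E| / D) H X)^(1/2)` (`Helper83.HLC.sum_GG`, `key_sq` with `ε' = ε^2 / (3 C)`).
-/

set_option autoImplicit false

namespace Pool.Agent.Helper39.SC

open Finset
open Pool.Agent.Helper83.HLC (GG W)

theorem key {k : ℕ} (a : Fin k → ℕ) (ha : Function.Injective a) {q : ℕ} {b : ℕ → ℝ}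
    (hb : Helper8.DW.Per q b) (C0 ε : ℝ) (hε : 0 < ε) :
    ∃ K H0 X0 : ℕ, ∀ X : ℕ, X0 ≤ X → ∀ D H y : ℕ, 1 ≤ D → D ^ 2 ≤ X → H0 * D ≤ H → H ≤ X →
    y ≤ X → ∀ E ⊆ Ico D (2 * D), (∀ d ∈ E, W d ≤ C0) → K * Real.log X ^ k ≤ E.card * H →
    ∀ c : ℕ → ℕ → ℝ, (∀ d h, |c d h| ≤ 1) →
    ∑ n ∈ Icc 1 X, GG a n * ∑ d ∈ E, Tc (c d) b y H n d ≤ ε * (E.card / D) * H * X := by
  obtain ⟨C, hC, X1, h1⟩ := Helper83.HLC.sum_GG a ha
  obtain ⟨J, K, H0, X0, hJ, hk⟩ := key_sq a ha hb C0 (ε ^ 2 / (3 * C)) (by positivity)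
  refine ⟨K, H0 + 2 * J, X0 + X1 + J, fun X hX D H y hD hDX hH hHX hy E hE hW hK c hc => ?_⟩
  have hJD : 2 * J * D ≤ H := le_trans (Nat.mul_le_mul_right D (by omega)) hH
  have hH0 : H0 * D ≤ H := le_trans (Nat.mul_le_mul_right D (by omega)) hH
  have hDH : D ≤ H := by
    refine le_trans ?_ hJD
    calc D = 1 * D := (one_mul D).symm
      _ ≤ 2 * J * D := Nat.mul_le_mul_right D (by omega)
  have hs := hk X (by omega) D H y hD hDX hH0 hHX hy E hE hW hK c hc (4 * X)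
  set G : ℕ → ℕ → ℕ → ℝ := fun d m n => ∑ j ∈ range J,
    cj c y H d (d * m - n) j * b (ArithmeticFunction.cardFactors (d * (m - j))) with hG
  have hJr : (0 : ℝ) < J := by exact_mod_cast hJ
  have hDr : (0 : ℝ) < D := by exact_mod_cast hD
  have hDHr : (D : ℝ) ≤ H := by exact_mod_cast hDH
  -- the blocks
  have h2 : ∀ n ∈ Icc 1 X, ∀ d ∈ E, Tc (c d) b y H n d ≤
      (1 / (J : ℝ)) * ∑ m ∈ Icc 1 (4 * X), |G d m n| := by
    intro n hn d hd
    have hd1 : 1 ≤ d := hD.trans (mem_Ico.1 (hE hd)).1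
    have hn' := (mem_Icc.1 hn).2
    have hM : (n + y + H) / d + J ≤ 4 * X := by
      have := Nat.div_le_self (n + y + H) d
      omega
    exact blocks c (fun x => b (ArithmeticFunction.cardFactors x)) n d y H J (4 * X) hd1 hJ hM
  -- the support
  have h3 : ∀ n ∈ Icc 1 X, ∀ d ∈ E, ∑ m ∈ Icc 1 (4 * X), (if G d m n ≠ 0 then (1 : ℝ) else 0) ≤
      3 * H / D := by
    intro n _ d hd
    have hd' := mem_Ico.1 (hE hd)
    have hd1 : 1 ≤ d := hD.trans hd'.1
    have hsub : (Icc 1 (4 * X)).filter (fun m => G d m n ≠ 0) ⊆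
        (Icc 1 (4 * X)).filter (fun m => y < d * m - n ∧ d * m - n ≤ y + 2 * H) := by
      intro m hm
      rw [mem_filter] at hm ⊢
      refine ⟨hm.1, ?_⟩
      obtain ⟨j, hj, hne⟩ := Finset.exists_ne_zero_of_sum_ne_zero hm.2
      have hc0 : cj c y H d (d * m - n) j ≠ 0 := left_ne_zero_of_mul hne
      unfold cj at hc0
      have hj' := mem_range.1 hj
      split_ifs at hc0 with hcond
      · have hdj : d * j ≤ 2 * J * D := by
          calc d * j ≤ (2 * D) * J := Nat.mul_le_mul (by omega) (by omega)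
            _ = 2 * J * D := by ring
        constructor
        · omega
        · omega
      · exact absurd rfl hc0
    have hcard := card_m n d y (2 * H) (4 * X) hd1
    have h4 : (((Icc 1 (4 * X)).filter (fun m => G d m n ≠ 0)).card : ℝ) ≤ ((2 * H : ℕ) : ℝ) / d + 1 :=
      le_trans (by exact_mod_cast Finset.card_le_card hsub) hcard
    have h5 : ((2 * H : ℕ) : ℝ) / d ≤ 2 * H / D := by
      push_cast
      exact div_le_div_of_nonneg_left (by positivity) hDr (by exact_mod_cast hd'.1)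
    have h6 : (1 : ℝ) ≤ H / D := by rwa [le_div_iff₀ hDr, one_mul]
    rw [Finset.sum_ite, Finset.sum_const_zero, add_zero, Finset.sum_const, nsmul_eq_mul, mul_one]
    calc (((Icc 1 (4 * X)).filter (fun m => G d m n ≠ 0)).card : ℝ) ≤ 2 * H / D + 1 := by linarith
      _ ≤ 2 * H / D + H / D := by linarith
      _ = 3 * H / D := by ring
  have hGG : ∑ n ∈ Icc 1 X, GG a n ≤ C * X := h1 X (by omega)
  -- Cauchy-Schwarz
  set T : Finset (ℕ × ℕ × ℕ) := (Icc 1 X) ×ˢ E ×ˢ (Icc 1 (4 * X)) with hT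
  have hCS := Finset.sum_mul_sq_le_sq_mul_sq T
    (fun t => Real.sqrt (GG a t.1) * (if G t.2.1 t.2.2 t.1 ≠ 0 then (1 : ℝ) else 0))
    (fun t => Real.sqrt (GG a t.1) * |G t.2.1 t.2.2 t.1|)
  have e1 : ∑ t ∈ T, (Real.sqrt (GG a t.1) * (if G t.2.1 t.2.2 t.1 ≠ 0 then (1 : ℝ) else 0)) *
      (Real.sqrt (GG a t.1) * |G t.2.1 t.2.2 t.1|) =
      ∑ n ∈ Icc 1 X, GG a n * ∑ d ∈ E, ∑ m ∈ Icc 1 (4 * X), |G d m n| := by
    rw [hT, Finset.sum_product]
    refine Finset.sum_congr rfl fun n _ => ?_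
    rw [Finset.sum_product, Finset.mul_sum]
    refine Finset.sum_congr rfl fun d _ => ?_
    rw [Finset.mul_sum]
    refine Finset.sum_congr rfl fun m _ => ?_
    dsimp only
    have hsq : Real.sqrt (GG a n) * Real.sqrt (GG a n) = GG a n :=
      Real.mul_self_sqrt (Helper83.HLC.GG_nonneg a n)
    by_cases h0 : G d m n = 0
    · rw [h0]
      simp
    · rw [if_pos h0]
      linear_combination |G d m n| * hsq
  have e2 : ∑ t ∈ T, (Real.sqrt (GG a t.1) * (if G t.2.1 t.2.2 t.1 ≠ 0 then (1 : ℝ) else 0)) ^ 2 ≤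
      C * X * (E.card * (3 * H / D)) := by
    rw [hT, Finset.sum_product]
    calc ∑ n ∈ Icc 1 X, ∑ u ∈ E ×ˢ (Icc 1 (4 * X)),
        (Real.sqrt (GG a n) * (if G u.1 u.2 n ≠ 0 then (1 : ℝ) else 0)) ^ 2
        ≤ ∑ n ∈ Icc 1 X, GG a n * (E.card * (3 * H / D)) := by
          refine Finset.sum_le_sum fun n hn => ?_
          rw [Finset.sum_product]
          have : ∀ d ∈ E, ∑ m ∈ Icc 1 (4 * X),
              (Real.sqrt (GG a n) * (if G d m n ≠ 0 then (1 : ℝ) else 0)) ^ 2 ≤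
              GG a n * (3 * H / D) := by
            intro d hd
            refine le_trans (le_of_eq ?_) (mul_le_mul_of_nonneg_left (h3 n hn d hd)
              (Helper83.HLC.GG_nonneg a n))
            rw [Finset.mul_sum]
            refine Finset.sum_congr rfl fun m _ => ?_
            rw [mul_pow, Real.sq_sqrt (Helper83.HLC.GG_nonneg a n)]
            split_ifs <;> simp
          refine (Finset.sum_le_sum this).trans (le_of_eq ?_)
          rw [Finset.sum_const, nsmul_eq_mul]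
          ring
      _ = (∑ n ∈ Icc 1 X, GG a n) * (E.card * (3 * H / D)) := by rw [Finset.sum_mul]
      _ ≤ C * X * (E.card * (3 * H / D)) :=
          mul_le_mul_of_nonneg_right hGG (by positivity)
  have e3 : ∑ t ∈ T, (Real.sqrt (GG a t.1) * |G t.2.1 t.2.2 t.1|) ^ 2 ≤
      ε ^ 2 / (3 * C) * J ^ 2 * (E.card / D) * H * X := by
    refine le_trans (le_of_eq ?_) hs
    rw [hT, Finset.sum_product]
    refine Finset.sum_congr rfl fun n _ => ?_
    rw [Finset.sum_product, Finset.mul_sum]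
    refine Finset.sum_congr rfl fun d _ => ?_
    rw [Finset.mul_sum]
    refine Finset.sum_congr rfl fun m _ => ?_
    dsimp only
    rw [mul_pow, Real.sq_sqrt (Helper83.HLC.GG_nonneg a n), sq_abs]
  rw [e1] at hCS
  have e4 : ∑ n ∈ Icc 1 X, GG a n * ∑ d ∈ E, ∑ m ∈ Icc 1 (4 * X), |G d m n| ≤
      ε * J * (E.card / D) * H * X := by
    have hnn : 0 ≤ ∑ t ∈ T, (Real.sqrt (GG a t.1) * |G t.2.1 t.2.2 t.1|) ^ 2 :=
      Finset.sum_nonneg fun _ _ => sq_nonneg _
    have h7 := hCS.trans (mul_le_mul e2 e3 hnn (by positivity))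
    have h8 : C * X * (E.card * (3 * H / D)) * (ε ^ 2 / (3 * C) * J ^ 2 * (E.card / D) * H * X) =
        (ε * J * (E.card / D) * H * X) ^ 2 := by
      field_simp
    rw [h8] at h7
    exact (pow_le_pow_iff_left₀ (Finset.sum_nonneg fun n _ => mul_nonneg
      (Helper83.HLC.GG_nonneg a n) (Finset.sum_nonneg fun d _ => Finset.sum_nonneg fun m _ =>
      abs_nonneg _)) (by positivity) two_ne_zero).1 h7
  calc ∑ n ∈ Icc 1 X, GG a n * ∑ d ∈ E, Tc (c d) b y H n d
      ≤ ∑ n ∈ Icc 1 X, GG a n * ∑ d ∈ E, (1 / (J : ℝ)) * ∑ m ∈ Icc 1 (4 * X), |G d m n| :=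
        Finset.sum_le_sum fun n hn => mul_le_mul_of_nonneg_left
          (Finset.sum_le_sum fun d hd => h2 n hn d hd) (Helper83.HLC.GG_nonneg a n)
    _ = (1 / (J : ℝ)) * ∑ n ∈ Icc 1 X, GG a n * ∑ d ∈ E, ∑ m ∈ Icc 1 (4 * X), |G d m n| := by
        rw [Finset.mul_sum]
        refine Finset.sum_congr rfl fun n _ => ?_
        rw [← Finset.mul_sum]
        ring
    _ ≤ (1 / (J : ℝ)) * (ε * J * (E.card / D) * H * X) :=
        mul_le_mul_of_nonneg_left e4 (by positivity)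
    _ = ε * (E.card / D) * H * X := by
        field_simp

end Pool.Agent.Helper39.SC
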