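import Pool.Agent.Helper8.DW.Defs
import Pool.Agent.Helper83.HLC.Final
import Pool.Agent.Helper13.MRF.Final

/-!
# SC-07: weighted short sums of a function of `Ω` with mean zero

PROOF. Let `f n = b (s + Ω n)` (only `s mod q` matters), `|f| ≤ 1`, `f = f_c + μ`, `μ = (∑_(n ≤ M) f n) / M`, `f_c` is `Centred M`.
(1) `|μ| ≤ δ` for `M ≥ M1(δ)`, uniformly in `s`: `∑_(i < q) b (s + i + Ω n) = 0`, and the means of `n ↦ b (s + i + Ω n)` and `b (s + Ω n)` differ by at most `i δ'` (`MRP.LAWx` with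
`d = 1`, applied `i` times; `hL := MRP.lawx`). Compare `mx_lam` in `Helper83/HLC/Final.lean`.
(2) For `J` large and `M ≥ M2(J)`: `∑_(t ≤ J) |∑_(n ≤ M) f_c n f_c (n + t)| ≤ δ J M`: `Helper83.HLC.final` with `k = 0`, `y = 0`, `g = f_c / 2` (see
`Pool/Agent/Helper39/SP/TwoPt.lean`). With `μ`: `∑_(t ≤ J) |∑_(n ≤ M) f n f (n + t)| ≤ (δ + 3 δ) J M + J^2` or so.
(3) Expand the square: `∑_m (∑_j c_j f(m - j))^2 ≤ ∑_(j, j') |∑_(m ≤ M) f (m - j) f (m - j')|`; for `m ≥ J` substitute `n = m - max(j, j')`, `t = |j - j'|`; the `m < J` and the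
boundary terms contribute at most `4 J^3`. So the sum is at most `J M + 2 J (5 δ J M + J^2) + 4 J^3 ≤ ε J^2 M` for `J ≥ 2 / ε`, `δ` small and `M ≥ M0(J)`.
(`m - j` is truncated; for `m ≤ j` the value is `b (s + Ω 0)`, bounded by `1`.)
-/

set_option autoImplicit false

namespace Pool.Agent.Helper39.SC

open Finset

private theorem sj_period {q : ℕ} {b : ℕ → ℝ} (hb : Helper8.DW.Per q b) (m : ℕ) :
    ∑ i ∈ range q, b (m + i) = 0 := by
  induction m with
  | zero =>
    simpa using hb.zero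
  | succ m ih =>
    have h1 := Finset.sum_range_succ (fun i => b (m + i)) q
    have h2 := Finset.sum_range_succ' (fun i => b (m + i)) q
    have h3 : ∑ i ∈ range q, b (m + (i + 1)) = ∑ i ∈ range q, b (m + 1 + i) :=
      Finset.sum_congr rfl fun i _ => by rw [show m + (i + 1) = m + 1 + i by omega]
    rw [h3] at h2
    have h4 := hb.per m
    simp only [Nat.add_zero] at h2
    linarith

private theorem sj_mx {q : ℕ} {b : ℕ → ℝ} (hb : Helper8.DW.Per q b) (δ : ℝ) (hδ : 0 < δ) :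
    ∃ x0 : ℕ, ∀ x : ℕ, x0 ≤ x → ∀ s : ℕ, |MRP.mx x (MRP.up s b)| ≤ δ := by
  have hq : (0 : ℝ) < q := by exact_mod_cast hb.pos
  obtain ⟨x0, h0⟩ := MRP.lawx (δ / q) (by positivity) 1 le_rfl
  refine ⟨x0, fun x hx s => ?_⟩
  have hstep : ∀ t, |MRP.mx x (MRP.up (t + 1) b) - MRP.mx x (MRP.up t b)| ≤ δ / q := by
    intro t
    have h1 := (h0 x hx (MRP.up t b) (fun m => hb.le _)).1
    have h2 : MRP.up 1 (MRP.up t b) = MRP.up (t + 1) b := by
      funext m
      unfold MRP.up
      rw [show m + 1 + t = m + (t + 1) by omega]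
    rwa [h2] at h1
  have hk : ∀ k, |MRP.mx x (MRP.up (s + k) b) - MRP.mx x (MRP.up s b)| ≤ k * (δ / q) := by
    intro k
    induction k with
    | zero => simp
    | succ k ih =>
      have h1 := hstep (s + k)
      have h2 := abs_sub_le (MRP.mx x (MRP.up (s + (k + 1)) b)) (MRP.mx x (MRP.up (s + k) b))
        (MRP.mx x (MRP.up s b))
      rw [show s + (k + 1) = s + k + 1 by omega] at h2 ⊢
      push_cast
      linarith
  have hsum : ∑ k ∈ range q, MRP.mx x (MRP.up (s + k) b) = 0 := by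
    unfold MRP.mx MRP.up
    rw [← Finset.sum_div, Finset.sum_comm]
    have h1 : ∀ n ∈ Icc 1 x, ∑ k ∈ range q, b (MRP.Om n + (s + k)) = 0 := by
      intro n _
      have h2 := sj_period hb (MRP.Om n + s)
      rw [← h2]
      exact Finset.sum_congr rfl fun i _ => by rw [Nat.add_assoc]
    rw [Finset.sum_eq_zero h1, zero_div]
  have h3 : (q : ℝ) * MRP.mx x (MRP.up s b) =
      ∑ k ∈ range q, (MRP.mx x (MRP.up s b) - MRP.mx x (MRP.up (s + k) b)) := by
    rw [Finset.sum_sub_distrib, hsum, Finset.sum_const, card_range, nsmul_eq_mul, sub_zero]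
  have h4 : (q : ℝ) * |MRP.mx x (MRP.up s b)| ≤ q * δ := by
    rw [← abs_of_pos hq, ← abs_mul, h3, abs_of_pos hq]
    refine (Finset.abs_sum_le_sum_abs _ _).trans ?_
    have h5 : ∀ k ∈ range q, |MRP.mx x (MRP.up s b) - MRP.mx x (MRP.up (s + k) b)| ≤ δ := by
      intro k hk'
      rw [abs_sub_comm]
      refine (hk k).trans ?_
      have h6 : (k : ℝ) ≤ q := by exact_mod_cast (Finset.mem_range.1 hk').le
      calc (k : ℝ) * (δ / q) ≤ q * (δ / q) := by gcongr
        _ = δ := by field_simp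
    refine (Finset.sum_le_card_nsmul _ _ _ h5).trans ?_
    rw [card_range, nsmul_eq_mul]
  exact le_of_mul_le_mul_left h4 hq

/-- The shifts of a two-point sum. -/
private theorem sj_corr (F : ℕ → ℝ) (hF : ∀ n, |F n| ≤ 1) (M j t : ℕ) (hj : j + t ≤ M) :
    |∑ m ∈ Icc 1 M, F (m - j) * F (m - (j + t))| ≤
      |∑ n ∈ Icc 1 M, F n * F (n + t)| + 2 * ((j + t : ℕ) : ℝ) := by
  have hprod : ∀ x y, |F x * F y| ≤ 1 := by
    intro x y
    rw [abs_mul]
    exact mul_le_one₀ (hF x) (abs_nonneg _) (hF y)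
  have hbd : ∀ (n : ℕ) (G : ℕ → ℝ), (∀ m, |G m| ≤ 1) → |∑ m ∈ range n, G m| ≤ n := by
    intro n G hG
    refine (Finset.abs_sum_le_sum_abs _ _).trans ?_
    refine (Finset.sum_le_card_nsmul _ _ 1 fun m _ => hG m).trans ?_
    rw [card_range, nsmul_eq_mul, mul_one]
  have hI : ∀ G : ℕ → ℝ, ∑ m ∈ Icc 1 M, G m = ∑ m ∈ range M, G (m + 1) := by
    intro G
    rw [Finset.sum_bij' (fun m _ => m - 1) (fun m _ => m + 1)]
    · intro a ha
      rw [mem_Icc] at ha
      rw [mem_range]
      omega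
    · intro a ha
      rw [mem_range] at ha
      rw [mem_Icc]
      omega
    · intro a ha
      rw [mem_Icc] at ha
      omega
    · intro a _
      omega
    · intro a ha
      rw [mem_Icc] at ha
      rw [show a - 1 + 1 = a by omega]
  obtain ⟨R, rfl⟩ := Nat.exists_eq_add_of_le hj
  rw [hI, hI]
  rw [Finset.sum_range_add (fun m => F (m + 1 - j) * F (m + 1 - (j + t))) (j + t) R]
  rw [show j + t + R = R + (j + t) by omega,
    Finset.sum_range_add (fun m => F (m + 1) * F (m + 1 + t)) R (j + t)]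
  have e1 : ∑ x ∈ range R, F (j + t + x + 1 - j) * F (j + t + x + 1 - (j + t)) =
      ∑ x ∈ range R, F (x + 1) * F (x + 1 + t) := by
    refine Finset.sum_congr rfl fun x _ => ?_
    rw [show j + t + x + 1 - j = x + 1 + t by omega, show j + t + x + 1 - (j + t) = x + 1 by omega,
      mul_comm]
  rw [e1]
  have h1 := hbd (j + t) (fun m => F (m + 1 - j) * F (m + 1 - (j + t))) (fun m => hprod _ _)
  have h2 := hbd (j + t) (fun m => F (R + m + 1) * F (R + m + 1 + t)) (fun m => hprod _ _)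
  set A := ∑ x ∈ range (j + t), F (x + 1 - j) * F (x + 1 - (j + t))
  set B := ∑ x ∈ range R, F (x + 1) * F (x + 1 + t)
  set C := ∑ x ∈ range (j + t), F (R + x + 1) * F (R + x + 1 + t)
  have h3 : |A + B| ≤ |A| + |B| := abs_add_le _ _
  have h4 : |B| ≤ |B + C| + |C| := by
    have := abs_sub_abs_le_abs_sub B (-C)
    have h5 : B - -C = B + C := by ring
    rw [h5, abs_neg] at this
    linarith
  linarith

/-- The sums over the pairs with a given distance. -/
private theorem sj_pairs (a : ℕ → ℝ) (ha : ∀ t, 0 ≤ a t) (J j : ℕ) (hj : j < J) :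
    ∑ i ∈ range J, a (if j ≤ i then i - j else j - i) ≤ a 0 + 2 * ∑ t ∈ Ioc 0 J, a t := by
  have h0 : ∑ i ∈ range J, a (if j ≤ i then i - j else j - i) =
      ∑ i ∈ (range J).filter (fun i => j ≤ i), a (i - j) +
        ∑ i ∈ (range J).filter (fun i => ¬ j ≤ i), a (j - i) := by
    rw [← Finset.sum_filter_add_sum_filter_not (range J) (fun i => j ≤ i)]
    congr 1
    · refine Finset.sum_congr rfl fun i hi => ?_
      rw [if_pos (mem_filter.1 hi).2]
    · refine Finset.sum_congr rfl fun i hi => ?_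
      rw [if_neg (mem_filter.1 hi).2]
  have h1 : ∑ i ∈ (range J).filter (fun i => j ≤ i), a (i - j) ≤ ∑ t ∈ range J, a t := by
    rw [← Finset.sum_image (f := a) (g := fun i => i - j)
      (s := (range J).filter (fun i => j ≤ i))]
    · refine Finset.sum_le_sum_of_subset_of_nonneg ?_ fun _ _ _ => ha _
      intro t ht
      rw [mem_image] at ht
      obtain ⟨i, hi, rfl⟩ := ht
      rw [mem_filter, mem_range] at hi
      rw [mem_range]
      omega
    · intro x hx y hy hxy
      rw [Finset.mem_coe, mem_filter] at hx hy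
      simp only at hxy
      omega
  have h2 : ∑ i ∈ (range J).filter (fun i => ¬ j ≤ i), a (j - i) ≤ ∑ t ∈ Ioc 0 J, a t := by
    rw [← Finset.sum_image (f := a) (g := fun i => j - i)
      (s := (range J).filter (fun i => ¬ j ≤ i))]
    · refine Finset.sum_le_sum_of_subset_of_nonneg ?_ fun _ _ _ => ha _
      intro t ht
      rw [mem_image] at ht
      obtain ⟨i, hi, rfl⟩ := ht
      rw [mem_filter, mem_range] at hi
      rw [mem_Ioc]
      omega
    · intro x hx y hy hxy
      rw [Finset.mem_coe, mem_filter] at hx hy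
      simp only at hxy
      omega
  have h3 : ∑ t ∈ range J, a t ≤ a 0 + ∑ t ∈ Ioc 0 J, a t := by
    have h4 : range J ⊆ insert 0 (Ioc 0 J) := by
      intro t ht
      rw [mem_range] at ht
      rw [mem_insert, mem_Ioc]
      omega
    have h5 : (0 : ℕ) ∉ Ioc 0 J := by simp
    refine (Finset.sum_le_sum_of_subset_of_nonneg h4 fun _ _ _ => ha _).trans ?_
    rw [Finset.sum_insert h5]
  rw [h0]
  linarith

theorem smoothJ {q : ℕ} {b : ℕ → ℝ} (hb : Helper8.DW.Per q b) (ε : ℝ) (hε : 0 < ε) :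
    ∃ J M0 : ℕ, 1 ≤ J ∧ ∀ M : ℕ, M0 ≤ M → ∀ s : ℕ, ∀ c : ℕ → ℝ, (∀ j, |c j| ≤ 1) →
    ∑ m ∈ Icc 1 M, (∑ j ∈ range J, c j * b (s + ArithmeticFunction.cardFactors (m - j))) ^ 2 ≤
      ε * J ^ 2 * M := by
  obtain ⟨K, X₀, h⟩ := Helper83.HLC.final
    (MRC.expx_bridge MRP.mrchi0x_holds MRP.mrchi1x_holds MRP.lawx) MRP.lawx 0 Fin.elim0
    (fun i => i.elim0) (ε / 12) (by positivity)
  obtain ⟨X₁, h1⟩ := sj_mx hb (ε / 12) (by positivity)
  set J : ℕ := max 1 (max ⌈K⌉₊ ⌈3 / ε⌉₊) with hJ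
  have hJ1 : 1 ≤ J := le_max_left _ _
  have hJK : K ≤ J := (Nat.le_ceil K).trans (by
    exact_mod_cast (le_max_left _ _).trans (le_max_right _ _))
  have hJe : 3 / ε ≤ J := (Nat.le_ceil _).trans (by
    exact_mod_cast (le_max_right _ _).trans (le_max_right _ _))
  have hJR : (1 : ℝ) ≤ J := by exact_mod_cast hJ1
  have hJe' : 3 ≤ ε * J := by
    rw [div_le_iff₀ hε] at hJe
    linarith
  refine ⟨J, max (max X₀ X₁) (max J ⌈6 * J / ε⌉₊), hJ1, fun M hM s c hc => ?_⟩
  have hM0 : X₀ ≤ M := (le_max_left _ _).trans ((le_max_left _ _).trans hM)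
  have hM1 : X₁ ≤ M := (le_max_right _ _).trans ((le_max_left _ _).trans hM)
  have hMJ : J ≤ M := (le_max_left _ _).trans ((le_max_right _ _).trans hM)
  have hM2 : 6 * (J : ℝ) / ε ≤ M := (Nat.le_ceil _).trans (by
    exact_mod_cast (le_max_right _ _).trans ((le_max_right _ _).trans hM))
  have hM2' : 6 * (J : ℝ) ≤ ε * M := by
    rw [div_le_iff₀ hε] at hM2
    linarith
  have hMR : (1 : ℝ) ≤ M := hJR.trans (by exact_mod_cast hMJ)
  set F : ℕ → ℝ := fun n => b (s + ArithmeticFunction.cardFactors n) with hF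
  have hF1 : ∀ n, |F n| ≤ 1 := fun n => hb.le _
  set μ : ℝ := (∑ m ∈ Icc 1 M, F m) / M with hμ
  have hμ1 : |μ| ≤ ε / 12 := by
    have h2 := h1 M hM1 s
    have h3 : MRP.mx M (MRP.up s b) = μ := by
      unfold MRP.mx MRP.up
      rw [hμ]
      congr 1
      refine Finset.sum_congr rfl fun n _ => ?_
      rw [hF]
      simp only
      rw [add_comm]
    rwa [h3] at h2
  -- the two-point averages
  have h2 := h M J 0 hM0 (by rw [pow_zero, mul_one]; exact hJK) hMJ (Nat.zero_le _)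
    (fun n => F n - μ) (Or.inr ⟨fun m => b (s + m), fun m => hb.le _, fun n => by
      rw [hμ, hF]⟩) (fun n => ((F n : ℝ) : ℂ)) (fun n => by
      rw [Complex.norm_real, Real.norm_eq_abs]
      exact hF1 n)
  have h3 : ∑ t ∈ Ioc 0 J, |∑ n ∈ Icc 1 M, F n * F (n + t)| ≤ ε / 6 * J * M := by
    have e1 : ∀ t, |∑ n ∈ Icc 1 M, F n * F (n + t)| ≤
        ‖∑ n ∈ Icc 1 M, (∏ i : Fin 0, (ArithmeticFunction.vonMangoldt
          (n + (Fin.elim0 i : ℕ)) : ℂ)) * ((F n : ℝ) : ℂ) * ((F (n + t) - μ : ℝ) : ℂ)‖ +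
          ε / 12 * M := by
      intro t
      have e2 : ∑ n ∈ Icc 1 M, (∏ i : Fin 0, (ArithmeticFunction.vonMangoldt
          (n + (Fin.elim0 i : ℕ)) : ℂ)) * ((F n : ℝ) : ℂ) * ((F (n + t) - μ : ℝ) : ℂ) =
          ((∑ n ∈ Icc 1 M, F n * F (n + t) - ∑ n ∈ Icc 1 M, F n * μ : ℝ) : ℂ) := by
        push_cast
        rw [← Finset.sum_sub_distrib]
        refine Finset.sum_congr rfl fun n _ => ?_
        simp
        ring
      rw [e2, Complex.norm_real, Real.norm_eq_abs]
      have e3 : |∑ n ∈ Icc 1 M, F n * μ| ≤ ε / 12 * M := by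
        refine (Finset.abs_sum_le_sum_abs _ _).trans ?_
        refine (Finset.sum_le_card_nsmul _ _ (ε / 12) fun n _ => ?_).trans ?_
        · rw [abs_mul]
          calc |F n| * |μ| ≤ 1 * (ε / 12) := mul_le_mul (hF1 n) hμ1 (abs_nonneg _) zero_le_one
            _ = ε / 12 := one_mul _
        · rw [Nat.card_Icc, nsmul_eq_mul, Nat.add_sub_cancel]
          linarith
      have e4 := abs_sub_abs_le_abs_sub (∑ n ∈ Icc 1 M, F n * F (n + t)) (∑ n ∈ Icc 1 M, F n * μ)
      linarith
    refine (Finset.sum_le_sum fun t _ => e1 t).trans ?_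
    rw [Finset.sum_add_distrib, Finset.sum_const, Nat.card_Ioc, nsmul_eq_mul, Nat.sub_zero]
    rw [Nat.zero_add] at h2
    have e5 : (J : ℝ) * (ε / 12 * M) = ε / 12 * J * M := by ring
    rw [e5]
    have e6 : ε / 6 * J * M = ε / 12 * J * M + ε / 12 * J * M := by ring
    rw [e6]
    exact add_le_add h2 le_rfl
  set a : ℕ → ℝ := fun t => |∑ n ∈ Icc 1 M, F n * F (n + t)| with ha
  have ha0 : ∀ t, 0 ≤ a t := fun t => abs_nonneg _
  have ha1 : a 0 ≤ M := by
    rw [ha]
    simp only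
    refine (Finset.abs_sum_le_sum_abs _ _).trans ?_
    refine (Finset.sum_le_card_nsmul _ _ 1 fun n _ => ?_).trans ?_
    · rw [abs_mul]
      exact mul_le_one₀ (hF1 _) (abs_nonneg _) (hF1 _)
    · rw [Nat.card_Icc, nsmul_eq_mul, Nat.add_sub_cancel, mul_one]
  -- every pair
  have hpair : ∀ j ∈ range J, ∀ i ∈ range J,
      |∑ m ∈ Icc 1 M, F (m - j) * F (m - i)| ≤ a (if j ≤ i then i - j else j - i) + 2 * J := by
    intro j hj i hi
    rw [mem_range] at hj hi
    split_ifs with hji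
    · have h5 := sj_corr F hF1 M j (i - j) (by omega)
      rw [show j + (i - j) = i by omega] at h5
      have h6 : (i : ℝ) ≤ J := by exact_mod_cast hi.le
      refine h5.trans ?_
      rw [ha]
      simp only
      linarith
    · have h5 := sj_corr F hF1 M i (j - i) (by omega)
      rw [show i + (j - i) = j by omega] at h5
      have h6 : (j : ℝ) ≤ J := by exact_mod_cast hj.le
      have h7 : ∑ m ∈ Icc 1 M, F (m - j) * F (m - i) = ∑ m ∈ Icc 1 M, F (m - i) * F (m - j) :=
        Finset.sum_congr rfl fun m _ => mul_comm _ _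
      rw [h7]
      refine h5.trans ?_
      rw [ha]
      simp only
      linarith
  -- the expansion of the square
  have hexp : ∑ m ∈ Icc 1 M, (∑ j ∈ range J, c j * b (s + ArithmeticFunction.cardFactors (m - j))) ^ 2 =
      ∑ j ∈ range J, ∑ i ∈ range J, c j * c i * ∑ m ∈ Icc 1 M, F (m - j) * F (m - i) := by
    have e1 : ∀ m, (∑ j ∈ range J, c j * b (s + ArithmeticFunction.cardFactors (m - j))) ^ 2 =
        ∑ j ∈ range J, ∑ i ∈ range J, c j * c i * (F (m - j) * F (m - i)) := by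
      intro m
      rw [sq, Finset.sum_mul_sum]
      refine Finset.sum_congr rfl fun j _ => Finset.sum_congr rfl fun i _ => ?_
      rw [hF]
      ring
    rw [Finset.sum_congr rfl fun m _ => e1 m, Finset.sum_comm]
    refine Finset.sum_congr rfl fun j _ => ?_
    rw [Finset.sum_comm]
    refine Finset.sum_congr rfl fun i _ => ?_
    rw [Finset.mul_sum]
  rw [hexp]
  have hfin : ∑ j ∈ range J, ∑ i ∈ range J, c j * c i * ∑ m ∈ Icc 1 M, F (m - j) * F (m - i) ≤
      ∑ j ∈ range J, (a 0 + 2 * ∑ t ∈ Ioc 0 J, a t + 2 * J * J) := by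
    refine Finset.sum_le_sum fun j hj => ?_
    calc ∑ i ∈ range J, c j * c i * ∑ m ∈ Icc 1 M, F (m - j) * F (m - i) ≤
        ∑ i ∈ range J, (a (if j ≤ i then i - j else j - i) + 2 * J) := by
          refine Finset.sum_le_sum fun i hi => ?_
          refine (le_abs_self _).trans ?_
          rw [abs_mul]
          calc |c j * c i| * |∑ m ∈ Icc 1 M, F (m - j) * F (m - i)| ≤
              1 * |∑ m ∈ Icc 1 M, F (m - j) * F (m - i)| := by
                refine mul_le_mul_of_nonneg_right ?_ (abs_nonneg _)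
                rw [abs_mul]
                exact mul_le_one₀ (hc _) (abs_nonneg _) (hc _)
            _ ≤ _ := by
                rw [one_mul]
                exact hpair j hj i hi
      _ = ∑ i ∈ range J, a (if j ≤ i then i - j else j - i) + J * (2 * J) := by
          rw [Finset.sum_add_distrib, Finset.sum_const, card_range, nsmul_eq_mul]
      _ ≤ _ := by
          have := sj_pairs a ha0 J j (mem_range.1 hj)
          nlinarith
  refine hfin.trans ?_
  rw [Finset.sum_const, card_range, nsmul_eq_mul]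
  have h8 : (J : ℝ) * (a 0 + 2 * ∑ t ∈ Ioc 0 J, a t + 2 * J * J) ≤
      J * (M + 2 * (ε / 6 * J * M) + 2 * J * J) := by
    refine mul_le_mul_of_nonneg_left ?_ (by linarith)
    linarith
  refine h8.trans ?_
  have h9 : (J : ℝ) * M * 3 ≤ J * M * (ε * J) :=
    mul_le_mul_of_nonneg_left hJe' (by positivity)
  have h10 : (J : ℝ) * J * (6 * J) ≤ J * J * (ε * M) :=
    mul_le_mul_of_nonneg_left hM2' (by positivity)
  nlinarith

end Pool.Agent.Helper39.SC
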