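import Pool.Agent.Helper39.SC.Second
import Pool.Agent.Helper39.SC.SmoothJ
import Pool.Agent.Helper39.SC.Blocks
import Pool.Agent.Helper39.SP.Major
import Pool.Agent.Helper40.DB.Major

/-!
# SC-09: the mean square over the blocks

PROOF. If `E = ∅` both sides are `0`. Let `f = b ∘ Ω`, `V d m h = (∑_(j < J) cj c y H d h j * f (d (m - j)))^2`, `0 ≤ V ≤ J^2`; `V d m h = 0` unless `y < h ≤ y + H'`, `H' = H + 2 D J ≤ 2 H`
(`H0 ≥ 2 J`), for `d < 2 D`. `F n = ∑_(d ∈ E) ∑_(m ∈ Icc 1 M) V d m (d m - n)`; by `card_m`, `F n ≤ |E| (H'/D + 1) J^2 ≤ 3 |E| (H/D) J^2 =: 3 B`.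
ORDER OF THE CHOICES: `η` small (`4^(k+1) q √η ≤ ε / 8`), `second` (with `C0`, `η`) gives `b`, `N` (call the first one `b'`), `s = 80 (b' + 2)`, `Λ = (VV 0 N)⁻¹ ^ k`; `ε1` small
(`(4 s)^k C0^k Λ * 8 ε1 ≤ ε / 8`), `smoothJ` with `ε1` gives `J`, `M0`; then `η1 = ε / 8`, `K`, `H0`, `X0`. `z` from `Helper40.DB.exists_z` (`1 ≤ z`, `z^s ≤ X < (z+1)^s`).
(1) Bad `n`: some prime `p < 2 D` divides some `n + a i`. If also `GG a n ≠ 0` then `n + a i` is a power of `p`; there are at most `k * 2 D * (Nat.log 2 (2 X) + 1)` such `n ≤ X`,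
`GG a n ≤ (log (2 X))^k` and `F n ≤ 3 B`: total `≤ η1 B X` for large `X`, because `D ≤ √X`.
(2) Let `F' n = F n` for the other `n` and `F' n = 0` for the bad ones; `0 ≤ F' / B ≤ 4`. `SP.majorant` (`s ≥ 4`): `∑ GG F' ≤ (4 s)^k ∑_n nuA a 0 N n nuA a N z n F' n + η1 B X`.
(3) `F' n ≤ ∑_(d ∈ E) ∑_m V d m (d m - n) [PrimD a d (d m - n)]`: if `n = d m - h` (`V ≠ 0` forces `h = d m - n ≥ 1`, so no truncation) and a prime `p` divides `d` and `a i - h`, then
`p ∣ n + a i = d m + (a i - h)`, `p ≤ d < 2 D`, so `n` is bad. `exchange` (for every `d`, `Φ m h = V d m h [PrimD a d h]`), `nuZ_nat`: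
`∑_n nuA a 0 N n nuA a N z n F' n ≤ ∑_(d ∈ E) ∑_(h ∈ Ioc y (y + H')) ∑_(m ∈ Icc 1 M) pw X (d m - h) nuZ a 0 N (d m - h) nuZ a N z (d m - h) V d m h [PrimD]`, and
`nuZ a 0 N * nuZ a N z = phZ a N z κ + κ^k nuZ a 0 N`, `κ = kk N z d ≤ W d ≤ C0` (`kk_le_W`). (`M` may be replaced by `min M (4 X / D)`, since `pw ≠ 0` gives `d m ≤ X + h ≤ 4 X`.)
(I) The part with `κ^k nuZ a 0 N ≤ C0^k Λ`: for fixed `d, h`: `∑_(m ≤ 4 X / D) V d m h ≤ ε1 J^2 (4 X / D)` by `smoothJ` with `s = Ω d`, `c_j = cj c y H d h j` (`Ω (d (m - j)) = Ω d + Ω (m - j)` for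
`m > j`; for the `m ≤ j` and `d m > h` the coefficient `cj` is `0`: `h > y + d j ≥ d m` is impossible; use a bound only for `pw ≠ 0`). Total `≤ C0^k Λ |E| 2 H ε1 J^2 4 X / D`.
(II) The part with `phZ`: expand `V = ∑_(j, j' < J) cj cj' f (d (m - j)) f (d (m - j'))`, and `f (d (m - j)) = b (r + Ω (m - j))`, `r = Ω d % q` (`Per`), for `m > j` (when `pw ≠ 0` and
`cj ≠ 0`). Split `E` according to `r`. For fixed `r, j, j'`: the sum is at most `∑_(m ≤ 4 X / D) |∑_(d ∈ E) ∑_h γ d h pw phZ|`, `γ d h = cj cj' [Ω d % q = r] [PrimD a d h]`, and by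
Cauchy-Schwarz and `second` (window length `H' ≤ 2 H`) at most `(4 X / D)^(1/2) (η (X / D) (|E| 2 H)^2 / s^(2 k))^(1/2) = 4 √η (X / D) |E| H / s^k`. There are `q J^2` such sums, so
`(4 s)^k` times the total is at most `4^(k+1) q √η J^2 (X / D) |E| H`.
(`second` allows the window length `H' ≤ 2 X`.)
-/

set_option autoImplicit false

namespace Pool.Agent.Helper39.SC

open Finset
open Pool.Agent.Helper40.DB (PP VV DD)
open Pool.Agent.Helper83.HLC (GG W)

private theorem lit' (k : ℕ) (η : ℝ) (hη : 0 < η) :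
    ∀ᶠ y : ℝ in Filter.atTop, 32 * k * Real.log y ^ (k + 1) ≤ η / 2 * Real.sqrt y := by
  have h := isLittleO_log_rpow_rpow_atTop ((k : ℝ) + 1) (show (0 : ℝ) < 1 / 2 by norm_num)
  have hc : 0 < η / 2 / (32 * k + 1) := by positivity
  filter_upwards [h.def hc, Filter.eventually_ge_atTop 1] with y hy hy1
  have hl : 0 ≤ Real.log y := Real.log_nonneg hy1
  have e1 : Real.log y ^ ((k : ℝ) + 1) = Real.log y ^ (k + 1) := by
    rw [← Real.rpow_natCast]; push_cast; rfl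
  rw [e1, ← Real.sqrt_eq_rpow, Real.norm_of_nonneg (pow_nonneg hl _), Real.norm_of_nonneg (Real.sqrt_nonneg _)] at hy
  have h0 : (0 : ℝ) < 32 * k + 1 := by positivity
  calc 32 * k * Real.log y ^ (k + 1) ≤ (32 * k + 1) * Real.log y ^ (k + 1) := by
        have := pow_nonneg hl (k + 1)
        nlinarith
    _ ≤ (32 * k + 1) * (η / 2 / (32 * k + 1) * Real.sqrt y) := by gcongr
    _ = _ := by field_simp

private theorem GG_le_log' {k : ℕ} (a : Fin k → ℕ) (X n : ℕ) (hn : n ∈ Icc 1 X) (hX : ∑ i, a i ≤ X) :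
    GG a n ≤ Real.log (2 * X) ^ k := by
  have hn' := Finset.mem_Icc.1 hn
  unfold Pool.Agent.Helper83.HLC.GG
  calc ∏ i, ArithmeticFunction.vonMangoldt (n + a i)
      ≤ ∏ _i : Fin k, Real.log (2 * X) := by
        refine Finset.prod_le_prod (fun i _ => ArithmeticFunction.vonMangoldt_nonneg) fun i _ => ?_
        refine le_trans ArithmeticFunction.vonMangoldt_le_log ?_
        have h1 : a i ≤ ∑ i, a i := Finset.single_le_sum (f := a) (fun _ _ => Nat.zero_le _) (Finset.mem_univ i)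
        have h2 : n + a i ≤ 2 * X := by omega
        refine Real.log_le_log ?_ (by exact_mod_cast h2)
        have : 0 < n + a i := by omega
        exact_mod_cast this
    _ = _ := by simp

/-- The integers with a small prime factor. -/
private def Bad {k : ℕ} (a : Fin k → ℕ) (D n : ℕ) : Prop := ∃ p : ℕ, p.Prime ∧ p < 2 * D ∧ ∃ i, p ∣ n + a i

open Classical in
private theorem bad_sum {k : ℕ} (a : Fin k → ℕ) (η : ℝ) (hη : 0 < η) :
    ∃ X0 : ℕ, ∀ X : ℕ, X0 ≤ X → ∀ D : ℕ, 1 ≤ D → D ^ 2 ≤ X →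
    ∑ n ∈ (Icc 1 X).filter (fun n => Bad a D n), GG a n ≤ η * X := by
  obtain ⟨Y, hY⟩ := Filter.eventually_atTop.1 (lit' k η hη)
  refine ⟨max (∑ i, a i + 2) ⌈Y⌉₊, fun X hX D hD1 hDX => ?_⟩
  have hX1 : ∑ i, a i + 2 ≤ X := le_trans (le_max_left _ _) hX
  have hX3 : Y ≤ X := le_trans (Nat.le_ceil Y) (by exact_mod_cast le_trans (le_max_right _ _) hX)
  have hXr : (2 : ℝ) ≤ X := by exact_mod_cast (show 2 ≤ X by omega)
  have hl2X : 0 ≤ Real.log (2 * X) := Real.log_nonneg (by linarith)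
  have hbad : ((Icc 1 X).filter fun n => Bad a D n).filter (fun n => GG a n ≠ 0) ⊆
      ((univ : Finset (Fin k)) ×ˢ (range (2 * D) ×ˢ range (Nat.log 2 (2 * X) + 1))).image
        (fun t : Fin k × ℕ × ℕ => t.2.1 ^ t.2.2 - a t.1) := by
    intro n hn
    obtain ⟨hn1, hn3⟩ := Finset.mem_filter.1 hn
    obtain ⟨hn1, hn2⟩ := Finset.mem_filter.1 hn1
    have hn1' := Finset.mem_Icc.1 hn1
    obtain ⟨p, hpp, hpz, i, hpi⟩ := hn2
    have h1 : ArithmeticFunction.vonMangoldt (n + a i) ≠ 0 := by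
      intro h
      apply hn3
      unfold Pool.Agent.Helper83.HLC.GG
      exact Finset.prod_eq_zero (Finset.mem_univ i) h
    rw [ArithmeticFunction.vonMangoldt_ne_zero_iff, isPrimePow_nat_iff] at h1
    obtain ⟨q, j, hq, hj, hqj⟩ := h1
    have hpq : p = q := by
      rw [← hqj] at hpi
      exact (Nat.prime_dvd_prime_iff_eq hpp hq).1 (hpp.dvd_of_dvd_pow hpi)
    subst hpq
    have h2 : a i ≤ ∑ i, a i := Finset.single_le_sum (f := a) (fun _ _ => Nat.zero_le _) (Finset.mem_univ i)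
    have h3 : p ^ j ≤ 2 * X := by omega
    have h4 : j ≤ Nat.log 2 (2 * X) := by
      refine Nat.le_log_of_pow_le (by norm_num) (le_trans (Nat.pow_le_pow_left hpp.two_le j) h3)
    refine Finset.mem_image.2 ⟨(i, p, j), ?_, ?_⟩
    · simp only [Finset.mem_product, Finset.mem_univ, Finset.mem_range, true_and]
      omega
    · simp only
      omega
  have hcard : ((((Icc 1 X).filter fun n => Bad a D n).filter (fun n => GG a n ≠ 0)).card : ℝ) ≤
      k * ((2 * D) * (Nat.log 2 (2 * X) + 1)) := by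
    have h1 := le_trans (Finset.card_le_card hbad) Finset.card_image_le
    rw [Finset.card_product, Finset.card_product, Finset.card_range, Finset.card_range, Finset.card_univ,
      Fintype.card_fin] at h1
    exact_mod_cast h1
  have hlg : ((Nat.log 2 (2 * X) : ℕ) : ℝ) ≤ 2 * Real.log (2 * X) := by
    have h1 : (2 : ℕ) ^ Nat.log 2 (2 * X) ≤ 2 * X := Nat.pow_log_le_self 2 (by omega)
    have h2 : ((2 : ℝ)) ^ Nat.log 2 (2 * X) ≤ 2 * X := by exact_mod_cast h1
    have h3 := Real.log_le_log (by positivity) h2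
    rw [Real.log_pow] at h3
    have h4 : (0.6931471803 : ℝ) < Real.log 2 := Real.log_two_gt_d9
    have h5 : (0 : ℝ) ≤ ((Nat.log 2 (2 * X) : ℕ) : ℝ) := Nat.cast_nonneg _
    nlinarith
  have hlone : (1 : ℝ) ≤ 2 * Real.log (2 * X) := by
    have h1 : Real.log 2 ≤ Real.log (2 * X) := Real.log_le_log (by norm_num) (by linarith)
    have h4 : (0.6931471803 : ℝ) < Real.log 2 := Real.log_two_gt_d9
    linarith
  have hsum : ∑ n ∈ (Icc 1 X).filter (fun n => Bad a D n), GG a n ≤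
      k * ((2 * D) * (Nat.log 2 (2 * X) + 1)) * (Real.log (2 * X) ^ k) := by
    have h1 : ∑ n ∈ (Icc 1 X).filter (fun n => Bad a D n), GG a n =
        ∑ n ∈ ((Icc 1 X).filter fun n => Bad a D n).filter (fun n => GG a n ≠ 0), GG a n := by
      symm
      exact Finset.sum_filter_of_ne fun n _ hn => hn
    rw [h1]
    refine le_trans (Finset.sum_le_card_nsmul _ _ (Real.log (2 * X) ^ k) fun n hn => ?_) ?_
    · obtain ⟨hn1, hn3⟩ := Finset.mem_filter.1 hn
      obtain ⟨hn1, hn2⟩ := Finset.mem_filter.1 hn1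
      exact GG_le_log' a X n hn1 (by omega)
    · rw [nsmul_eq_mul]
      exact mul_le_mul_of_nonneg_right hcard (pow_nonneg hl2X k)
  refine le_trans hsum ?_
  have hzX : (D : ℝ) ≤ Real.sqrt X := by
    refine Real.le_sqrt_of_sq_le ?_
    exact_mod_cast hDX
  have hfin := hY (2 * X) (by linarith)
  have hs2 : Real.sqrt (2 * X) ≤ 2 * Real.sqrt X := by
    refine Real.sqrt_le_iff.2 ⟨by positivity, ?_⟩
    rw [mul_pow, Real.sq_sqrt (by positivity)]
    linarith
  have hL := pow_nonneg hl2X k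
  calc (k : ℝ) * ((2 * D) * (Nat.log 2 (2 * X) + 1)) * (Real.log (2 * X) ^ k)
      ≤ k * ((4 * D) * (2 * Real.log (2 * X) + 2 * Real.log (2 * X))) * (Real.log (2 * X) ^ k * 2) := by
        refine mul_le_mul (mul_le_mul_of_nonneg_left (mul_le_mul ?_ (add_le_add hlg hlone) (by positivity)
          (by positivity)) (by positivity)) (by linarith) hL (by positivity)
        have : (0 : ℝ) ≤ D := Nat.cast_nonneg D
        linarith
    _ = (32 * k * Real.log (2 * X) ^ (k + 1)) * D := by ring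
    _ ≤ (η / 2 * Real.sqrt (2 * X)) * Real.sqrt X := by
        refine mul_le_mul hfin hzX (by positivity) (by positivity)
    _ ≤ (η / 2 * (2 * Real.sqrt X)) * Real.sqrt X := by gcongr
    _ = η * (Real.sqrt X * Real.sqrt X) := by ring
    _ = η * X := by rw [Real.mul_self_sqrt (by positivity)]

/-- The square of the sum over a block. -/
private noncomputable def Vv (c : ℕ → ℕ → ℝ) (b : ℕ → ℝ) (y H J d m h : ℕ) : ℝ :=
  (∑ j ∈ range J, cj c y H d h j * b (ArithmeticFunction.cardFactors (d * (m - j)))) ^ 2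

private theorem abs_cj_le {c : ℕ → ℕ → ℝ} (hc : ∀ d h, |c d h| ≤ 1) (y H d h j : ℕ) :
    |cj c y H d h j| ≤ 1 := by
  unfold cj
  split_ifs
  · exact hc _ _
  · simp

private theorem Vv_nonneg (c : ℕ → ℕ → ℝ) (b : ℕ → ℝ) (y H J d m h : ℕ) : 0 ≤ Vv c b y H J d m h :=
  sq_nonneg _

private theorem Vv_le {c : ℕ → ℕ → ℝ} (hc : ∀ d h, |c d h| ≤ 1) {b : ℕ → ℝ} (hb : ∀ m, |b m| ≤ 1)
    (y H J d m h : ℕ) : Vv c b y H J d m h ≤ (J : ℝ) ^ 2 := by
  unfold Vv
  rw [sq_le_sq, abs_of_nonneg (show (0 : ℝ) ≤ (J : ℝ) from Nat.cast_nonneg J)]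
  refine le_trans (Finset.abs_sum_le_sum_abs _ _) ?_
  refine le_trans (Finset.sum_le_card_nsmul _ _ 1 fun j _ => ?_) (by simp)
  rw [abs_mul]
  calc |cj c y H d h j| * |b (ArithmeticFunction.cardFactors (d * (m - j)))| ≤ 1 * 1 :=
        mul_le_mul (abs_cj_le hc _ _ _ _ _) (hb _) (abs_nonneg _) zero_le_one
    _ = 1 := one_mul 1

private theorem cj_supp {c : ℕ → ℕ → ℝ} {y H d h j : ℕ} (h0 : cj c y H d h j ≠ 0) :
    y + d * j < h ∧ h ≤ y + d * j + H := by
  by_contra hc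
  exact h0 (if_neg hc)

private theorem Vv_supp {c : ℕ → ℕ → ℝ} {b : ℕ → ℝ} {y H J D d m h : ℕ} (hd : d < 2 * D)
    (h0 : Vv c b y H J d m h ≠ 0) : y < h ∧ h ≤ y + (H + 2 * D * J) := by
  have h1 : ∃ j ∈ range J, cj c y H d h j * b (ArithmeticFunction.cardFactors (d * (m - j))) ≠ 0 := by
    by_contra hcon
    push Not at hcon
    apply h0
    unfold Vv
    rw [Finset.sum_eq_zero hcon]
    norm_num
  obtain ⟨j, hj, h2⟩ := h1
  have h3 := cj_supp (left_ne_zero_of_mul h2)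
  have hj' := Finset.mem_range.1 hj
  have h4 : d * j ≤ 2 * D * J := Nat.mul_le_mul hd.le hj'.le
  have h5 : 0 ≤ d * j := Nat.zero_le _
  constructor <;> omega

private theorem Vv_eq {c : ℕ → ℕ → ℝ} {b : ℕ → ℝ} {y H J d m h : ℕ} (hd : 1 ≤ d) (hm : h < d * m) :
    Vv c b y H J d m h = (∑ j ∈ range J, cj c y H d h j *
      b (ArithmeticFunction.cardFactors d + ArithmeticFunction.cardFactors (m - j))) ^ 2 := by
  unfold Vv
  congr 1
  refine Finset.sum_congr rfl fun j _ => ?_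
  by_cases h0 : cj c y H d h j = 0
  · rw [h0, zero_mul, zero_mul]
  · have h1 := cj_supp h0
    have h2 : j < m := by
      by_contra hcon
      have h3 : d * m ≤ d * j := Nat.mul_le_mul_left d (by omega)
      omega
    rw [ArithmeticFunction.cardFactors_mul (by omega) (by omega)]

private theorem per_mod {q : ℕ} {b : ℕ → ℝ} (hb : Helper8.DW.Per q b) (n x : ℕ) :
    b (n + x) = b (n % q + x) := by
  have h : ∀ t r : ℕ, b (r + q * t) = b r := by
    intro t
    induction t with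
    | zero => intro r; simp
    | succ t ih =>
      intro r
      rw [show r + q * (t + 1) = (r + q * t) + q by ring, hb.per, ih]
  have h1 := Nat.mod_add_div n q
  calc b (n + x) = b ((n % q + x) + q * (n / q)) := by
        congr 1
        omega
    _ = _ := h _ _

private theorem F_le {c : ℕ → ℕ → ℝ} (hc : ∀ d h, |c d h| ≤ 1) {b : ℕ → ℝ} (hb : ∀ m, |b m| ≤ 1)
    {y H J D M n : ℕ} (hD : 1 ≤ D) (hH : 2 * D * J ≤ H) (hDH : D ≤ H) {E : Finset ℕ}
    (hE : E ⊆ Ico D (2 * D)) :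
    ∑ d ∈ E, ∑ m ∈ Icc 1 M, Vv c b y H J d m (d * m - n) ≤ 3 * (E.card * ((H : ℝ) / D) * J ^ 2) := by
  have hD0 : (0 : ℝ) < D := by exact_mod_cast hD
  have h1 : ∀ d ∈ E, ∑ m ∈ Icc 1 M, Vv c b y H J d m (d * m - n) ≤ 3 * ((H : ℝ) / D) * J ^ 2 := by
    intro d hd
    have hd' := Finset.mem_Ico.1 (hE hd)
    have h2 : ∑ m ∈ Icc 1 M, Vv c b y H J d m (d * m - n) =
        ∑ m ∈ (Icc 1 M).filter (fun m => y < d * m - n ∧ d * m - n ≤ y + (H + 2 * D * J)),
          Vv c b y H J d m (d * m - n) := by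
      symm
      refine Finset.sum_filter_of_ne fun m _ hm => ?_
      exact Vv_supp hd'.2 hm
    rw [h2]
    refine le_trans (Finset.sum_le_card_nsmul _ _ ((J : ℝ) ^ 2) fun m _ => Vv_le hc hb _ _ _ _ _ _) ?_
    rw [nsmul_eq_mul]
    refine mul_le_mul_of_nonneg_right ?_ (by positivity)
    refine le_trans (card_m n d y (H + 2 * D * J) M (by omega)) ?_
    have h3 : ((H + 2 * D * J : ℕ) : ℝ) ≤ 2 * H := by exact_mod_cast (show H + 2 * D * J ≤ 2 * H by omega)
    have h4 : (D : ℝ) ≤ d := by exact_mod_cast hd'.1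
    have h5 : (1 : ℝ) ≤ H / D := by
      rw [one_le_div hD0]
      exact_mod_cast hDH
    calc ((H + 2 * D * J : ℕ) : ℝ) / d + 1 ≤ (2 * H) / D + H / D := by
          refine add_le_add ?_ h5
          exact div_le_div₀ (by positivity) h3 hD0 h4
      _ = 3 * ((H : ℝ) / D) := by ring
  refine le_trans (Finset.sum_le_card_nsmul _ _ _ h1) ?_
  rw [nsmul_eq_mul]
  exact le_of_eq (by ring)

private theorem nu_split {k : ℕ} (a : Fin k → ℕ) (N z : ℕ) (κ : ℝ) (n : ℕ) :
    SP.nuA a 0 N n * SP.nuA a N z n = phZ a N z κ (n : ℤ) + κ ^ k * nuZ a 0 N (n : ℤ) := by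
  unfold phZ
  rw [← nuZ_nat, ← nuZ_nat]
  ring

private theorem nuZ_le {k : ℕ} (a : Fin k → ℕ) (N z : ℕ) (n : ℤ) :
    0 ≤ nuZ a N z n ∧ nuZ a N z n ≤ (VV N z)⁻¹ ^ k := by
  have h0 := Pool.Agent.Helper40.DB.VV_pos N z
  unfold nuZ
  split_ifs
  · exact ⟨by positivity, le_refl _⟩
  · exact ⟨le_refl _, by positivity⟩

private theorem pw_supp {X : ℕ} {n : ℤ} (h : pw X n ≠ 0) : 1 ≤ n ∧ n ≤ X ∧ pw X n = 1 := by
  unfold pw at h ⊢
  split_ifs at h ⊢ with h1
  · exact ⟨h1.1, h1.2, rfl⟩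
  · exact absurd rfl h

private theorem pw_nonneg (X : ℕ) (n : ℤ) : 0 ≤ pw X n ∧ pw X n ≤ 1 := by
  unfold pw
  split_ifs
  · exact ⟨zero_le_one, le_refl _⟩
  · exact ⟨le_refl _, zero_le_one⟩

/-- The terms with a nonzero weight. -/
private theorem pw_range {X D d m h : ℕ} (hD : 1 ≤ D) (hd : D ≤ d) (hh : h ≤ 3 * X)
    (hp : pw X ((d : ℤ) * m - h) ≠ 0) : h < d * m ∧ m ≤ 4 * X / D ∧ pw X ((d : ℤ) * m - h) = 1 := by
  obtain ⟨h1, h2, h3⟩ := pw_supp hp
  have h4 : h < d * m := by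
    have : (h : ℤ) < (d : ℤ) * m := by omega
    exact_mod_cast this
  refine ⟨h4, ?_, h3⟩
  rw [Nat.le_div_iff_mul_le (by omega)]
  have h5 : d * m ≤ 4 * X := by
    have : (d : ℤ) * m ≤ 4 * X := by omega
    exact_mod_cast this
  calc m * D ≤ m * d := Nat.mul_le_mul_left m hd
    _ = d * m := Nat.mul_comm _ _
    _ ≤ 4 * X := h5

private theorem part_one {c : ℕ → ℕ → ℝ} (hc : ∀ d h, |c d h| ≤ 1) {b : ℕ → ℝ} {ε1 : ℝ} {J M' : ℕ}
    (hsm : ∀ s : ℕ, ∀ c : ℕ → ℝ, (∀ j, |c j| ≤ 1) →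
      ∑ m ∈ Icc 1 M', (∑ j ∈ range J, c j * b (s + ArithmeticFunction.cardFactors (m - j))) ^ 2 ≤
        ε1 * J ^ 2 * M') {X D d y H h M : ℕ} (hD : 1 ≤ D) (hd : D ≤ d) (hh : h ≤ 3 * X)
    (hM' : M' = 4 * X / D) :
    ∑ m ∈ Icc 1 M, pw X ((d : ℤ) * m - h) * Vv c b y H J d m h ≤ ε1 * J ^ 2 * M' := by
  classical
  refine le_trans ?_ (hsm (ArithmeticFunction.cardFactors d) (fun j => cj c y H d h j)
    (fun j => abs_cj_le hc _ _ _ _ _))
  have h1 : ∑ m ∈ Icc 1 M, pw X ((d : ℤ) * m - h) * Vv c b y H J d m h =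
      ∑ m ∈ (Icc 1 M).filter (fun m : ℕ => pw X ((d : ℤ) * m - h) ≠ 0), (∑ j ∈ range J, cj c y H d h j *
      b (ArithmeticFunction.cardFactors d + ArithmeticFunction.cardFactors (m - j))) ^ 2 := by
    rw [Finset.sum_filter]
    refine Finset.sum_congr rfl fun m _ => ?_
    split_ifs with h2
    · obtain ⟨h3, h4, h5⟩ := pw_range hD hd hh h2
      rw [h5, one_mul, Vv_eq (by omega) h3]
    · rw [not_not] at h2
      rw [h2, zero_mul]
  rw [h1]
  refine Finset.sum_le_sum_of_subset_of_nonneg ?_ fun _ _ _ => sq_nonneg _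
  intro m hm
  obtain ⟨h2, h3⟩ := Finset.mem_filter.1 hm
  obtain ⟨-, h4, -⟩ := pw_range hD hd hh h3
  rw [Finset.mem_Icc] at h2 ⊢
  exact ⟨h2.1, by rw [hM']; exact h4⟩

private theorem cauchy_one {S g : ℕ → ℝ} {M M' s k : ℕ} (hg : ∀ m, |g m| ≤ 1) {η A U : ℝ} (hη : 0 ≤ η)
    (hA : 0 ≤ A) (hU : 0 ≤ U) (hM' : (M' : ℝ) ≤ 4 * A) (hS0 : ∀ m, M' < m → S m = 0)
    (hS : (s : ℝ) ^ (2 * k) * ∑ m ∈ Icc 1 M', S m ^ 2 ≤ η * A * U ^ 2) :
    (s : ℝ) ^ k * ∑ m ∈ Icc 1 M, g m * S m ≤ 2 * √η * A * U := by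
  have h1 : ∑ m ∈ Icc 1 M, g m * S m ≤ ∑ m ∈ Icc 1 M', |S m| := by
    calc ∑ m ∈ Icc 1 M, g m * S m ≤ ∑ m ∈ Icc 1 M, |S m| := by
          refine Finset.sum_le_sum fun m _ => ?_
          refine le_trans (le_abs_self _) ?_
          rw [abs_mul]
          exact mul_le_of_le_one_left (abs_nonneg _) (hg m)
      _ = ∑ m ∈ (Icc 1 M).filter (fun m => S m ≠ 0), |S m| := by
          symm
          refine Finset.sum_filter_of_ne fun m _ hm => ?_
          intro h
          exact hm (by rw [h, abs_zero])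
      _ ≤ _ := by
          refine Finset.sum_le_sum_of_subset_of_nonneg ?_ fun _ _ _ => abs_nonneg _
          intro m hm
          obtain ⟨h2, h3⟩ := Finset.mem_filter.1 hm
          rw [Finset.mem_Icc] at h2 ⊢
          refine ⟨h2.1, ?_⟩
          by_contra hcon
          exact h3 (hS0 m (by omega))
  have h2 : (∑ m ∈ Icc 1 M', |S m|) ^ 2 ≤ M' * ∑ m ∈ Icc 1 M', S m ^ 2 := by
    refine le_trans sq_sum_le_card_mul_sum_sq (le_of_eq ?_)
    rw [Nat.card_Icc]
    simp only [sq_abs]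
    norm_num
  have hs : (0 : ℝ) ≤ (s : ℝ) ^ k := by positivity
  have h3 : (s : ℝ) ^ k * ∑ m ∈ Icc 1 M', |S m| ≤ 2 * √η * A * U := by
    have h0 : 0 ≤ ∑ m ∈ Icc 1 M', |S m| := Finset.sum_nonneg fun _ _ => abs_nonneg _
    rw [← pow_le_pow_iff_left₀ (by positivity) (by positivity) (two_ne_zero)]
    calc ((s : ℝ) ^ k * ∑ m ∈ Icc 1 M', |S m|) ^ 2 = (s : ℝ) ^ (2 * k) * (∑ m ∈ Icc 1 M', |S m|) ^ 2 := by
          rw [mul_pow, ← pow_mul, mul_comm k 2]
      _ ≤ (s : ℝ) ^ (2 * k) * (M' * ∑ m ∈ Icc 1 M', S m ^ 2) :=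
          mul_le_mul_of_nonneg_left h2 (by positivity)
      _ = M' * ((s : ℝ) ^ (2 * k) * ∑ m ∈ Icc 1 M', S m ^ 2) := by ring
      _ ≤ M' * (η * A * U ^ 2) := mul_le_mul_of_nonneg_left hS (Nat.cast_nonneg _)
      _ ≤ 4 * A * (η * A * U ^ 2) := mul_le_mul_of_nonneg_right hM' (by positivity)
      _ = (2 * A * U) ^ 2 * η := by ring
      _ = (2 * √η * A * U) ^ 2 := by
          have := Real.sq_sqrt hη
          calc (2 * A * U) ^ 2 * η = (2 * A * U) ^ 2 * √η ^ 2 := by rw [this]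
            _ = _ := by ring
  exact le_trans (mul_le_mul_of_nonneg_left h1 hs) h3

open Classical in
/-- The coefficients of the second moment. -/
private noncomputable def gam {k : ℕ} (a : Fin k → ℕ) (c : ℕ → ℕ → ℝ) (y H q : ℕ) (t : ℕ × ℕ × ℕ) (d h : ℕ) : ℝ :=
  if ArithmeticFunction.cardFactors d % q = t.1 ∧ PrimD a d h then cj c y H d h t.2.1 * cj c y H d h t.2.2 else 0

/-- The values of the periodic function. -/
private noncomputable def gb (b : ℕ → ℝ) (t : ℕ × ℕ × ℕ) (m : ℕ) : ℝ :=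
  b (t.1 + ArithmeticFunction.cardFactors (m - t.2.1)) * b (t.1 + ArithmeticFunction.cardFactors (m - t.2.2))

private theorem abs_mul_le_one {x y : ℝ} (hx : |x| ≤ 1) (hy : |y| ≤ 1) : |x * y| ≤ 1 := by
  rw [abs_mul]
  calc |x| * |y| ≤ 1 * 1 := mul_le_mul hx hy (abs_nonneg _) zero_le_one
    _ = 1 := one_mul 1

open Classical in
private theorem expand {k : ℕ} (a : Fin k → ℕ) {q : ℕ} {b : ℕ → ℝ} (hb : Helper8.DW.Per q b)
    (c : ℕ → ℕ → ℝ) {X D y H J d m h : ℕ} (hD : 1 ≤ D) (hd : D ≤ d) (hh : h ≤ 3 * X) (P : ℝ) :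
    pw X ((d : ℤ) * m - h) * (P * (if PrimD a d h then Vv c b y H J d m h else 0)) =
      ∑ t ∈ range q ×ˢ (range J ×ˢ range J), gb b t m * (gam a c y H q t d h * pw X ((d : ℤ) * m - h) * P) := by
  by_cases hp : pw X ((d : ℤ) * m - h) = 0
  · rw [hp]
    simp
  by_cases hP : PrimD a d h
  swap
  · rw [if_neg hP]
    symm
    rw [mul_zero, mul_zero]
    refine Finset.sum_eq_zero fun t _ => ?_
    unfold gam
    rw [if_neg (fun h => hP h.2)]
    ring
  obtain ⟨h3, h4, h5⟩ := pw_range hD hd hh hp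
  rw [if_pos hP, h5, one_mul, Vv_eq (by omega) h3, Finset.sum_product]
  symm
  rw [Finset.sum_eq_single (ArithmeticFunction.cardFactors d % q)]
  · rw [Finset.sum_product, sq, Finset.sum_mul_sum, Finset.mul_sum]
    refine Finset.sum_congr rfl fun j _ => ?_
    rw [Finset.mul_sum]
    refine Finset.sum_congr rfl fun j' _ => ?_
    unfold gam gb
    rw [if_pos ⟨rfl, hP⟩,
      per_mod hb (ArithmeticFunction.cardFactors d) (ArithmeticFunction.cardFactors (m - j)),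
      per_mod hb (ArithmeticFunction.cardFactors d) (ArithmeticFunction.cardFactors (m - j'))]
    ring
  · intro r _ hr
    refine Finset.sum_eq_zero fun t _ => ?_
    unfold gam
    rw [if_neg (fun h => hr h.1.symm)]
    ring
  · intro hr
    exact absurd (Finset.mem_range.2 (Nat.mod_lt _ hb.pos)) hr

open Classical in
private theorem part_two {k : ℕ} (a : Fin k → ℕ) {q : ℕ} {b : ℕ → ℝ} (hb : Helper8.DW.Per q b)
    {c : ℕ → ℕ → ℝ} (hc : ∀ d h, |c d h| ≤ 1) {η : ℝ} (hη : 0 ≤ η) {N z s X D y H H' J M : ℕ} (hD : 1 ≤ D)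
    {E : Finset ℕ} (hE : E ⊆ Ico D (2 * D)) (hh : y + H' ≤ 3 * X)
    (hsec : ∀ γ : ℕ → ℕ → ℝ, (∀ d h, |γ d h| ≤ 1) → (∀ d h : ℕ, ¬ PrimD a d h → γ d h = 0) →
      (s : ℝ) ^ (2 * k) * ∑ m ∈ Icc 1 (4 * X / D), (∑ d ∈ E, ∑ h ∈ Ioc y (y + H'),
      γ d h * pw X ((d : ℤ) * m - h) * phZ a N z (kk N z d) ((d : ℤ) * m - h)) ^ 2 ≤
      η * (X / D) * (E.card * H') ^ 2) :
    (s : ℝ) ^ k * ∑ d ∈ E, ∑ h ∈ Ioc y (y + H'), ∑ m ∈ Icc 1 M, pw X ((d : ℤ) * m - h) *
      (phZ a N z (kk N z d) ((d : ℤ) * m - h) * (if PrimD a d h then Vv c b y H J d m h else 0)) ≤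
      q * J ^ 2 * (2 * √η * (X / D) * (E.card * H')) := by
  have hd : ∀ d ∈ E, D ≤ d := fun d hd => (Finset.mem_Ico.1 (hE hd)).1
  have h1 : ∑ d ∈ E, ∑ h ∈ Ioc y (y + H'), ∑ m ∈ Icc 1 M, pw X ((d : ℤ) * m - h) *
      (phZ a N z (kk N z d) ((d : ℤ) * m - h) * (if PrimD a d h then Vv c b y H J d m h else 0)) =
      ∑ t ∈ range q ×ˢ (range J ×ˢ range J), ∑ m ∈ Icc 1 M, gb b t m * ∑ d ∈ E, ∑ h ∈ Ioc y (y + H'),
        gam a c y H q t d h * pw X ((d : ℤ) * m - h) * phZ a N z (kk N z d) ((d : ℤ) * m - h) := by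
    calc _ = ∑ d ∈ E, ∑ h ∈ Ioc y (y + H'), ∑ m ∈ Icc 1 M, ∑ t ∈ range q ×ˢ (range J ×ˢ range J),
          gb b t m * (gam a c y H q t d h * pw X ((d : ℤ) * m - h) * phZ a N z (kk N z d) ((d : ℤ) * m - h)) := by
          refine Finset.sum_congr rfl fun d hd' => Finset.sum_congr rfl fun h hh' =>
            Finset.sum_congr rfl fun m _ => ?_
          refine expand a hb c hD (hd d hd') ?_ _
          have := (Finset.mem_Ioc.1 hh').2
          omega
      _ = ∑ d ∈ E, ∑ h ∈ Ioc y (y + H'), ∑ t ∈ range q ×ˢ (range J ×ˢ range J), ∑ m ∈ Icc 1 M,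
          gb b t m * (gam a c y H q t d h * pw X ((d : ℤ) * m - h) * phZ a N z (kk N z d) ((d : ℤ) * m - h)) :=
          Finset.sum_congr rfl fun d _ => Finset.sum_congr rfl fun h _ => Finset.sum_comm
      _ = ∑ d ∈ E, ∑ t ∈ range q ×ˢ (range J ×ˢ range J), ∑ h ∈ Ioc y (y + H'), ∑ m ∈ Icc 1 M,
          gb b t m * (gam a c y H q t d h * pw X ((d : ℤ) * m - h) * phZ a N z (kk N z d) ((d : ℤ) * m - h)) :=
          Finset.sum_congr rfl fun d _ => Finset.sum_comm
      _ = ∑ t ∈ range q ×ˢ (range J ×ˢ range J), ∑ d ∈ E, ∑ h ∈ Ioc y (y + H'), ∑ m ∈ Icc 1 M,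
          gb b t m * (gam a c y H q t d h * pw X ((d : ℤ) * m - h) * phZ a N z (kk N z d) ((d : ℤ) * m - h)) :=
          Finset.sum_comm
      _ = _ := by
          refine Finset.sum_congr rfl fun t _ => ?_
          calc _ = ∑ d ∈ E, ∑ m ∈ Icc 1 M, ∑ h ∈ Ioc y (y + H'),
              gb b t m * (gam a c y H q t d h * pw X ((d : ℤ) * m - h) *
                phZ a N z (kk N z d) ((d : ℤ) * m - h)) := Finset.sum_congr rfl fun d _ => Finset.sum_comm
            _ = ∑ m ∈ Icc 1 M, ∑ d ∈ E, ∑ h ∈ Ioc y (y + H'),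
              gb b t m * (gam a c y H q t d h * pw X ((d : ℤ) * m - h) *
                phZ a N z (kk N z d) ((d : ℤ) * m - h)) := Finset.sum_comm
            _ = _ := by
              refine Finset.sum_congr rfl fun m _ => ?_
              rw [Finset.mul_sum]
              refine Finset.sum_congr rfl fun d _ => ?_
              rw [Finset.mul_sum]
  rw [h1, Finset.mul_sum]
  have hA : (0 : ℝ) ≤ (X : ℝ) / D := by positivity
  have h2 : ∀ t ∈ range q ×ˢ (range J ×ˢ range J), (s : ℝ) ^ k * ∑ m ∈ Icc 1 M, gb b t m *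
      ∑ d ∈ E, ∑ h ∈ Ioc y (y + H'), gam a c y H q t d h * pw X ((d : ℤ) * m - h) *
        phZ a N z (kk N z d) ((d : ℤ) * m - h) ≤ 2 * √η * (X / D) * (E.card * H') := by
    intro t _
    refine cauchy_one (M' := 4 * X / D) ?_ hη hA (by positivity) ?_ ?_ (hsec (gam a c y H q t) ?_ ?_)
    · intro m
      exact abs_mul_le_one (hb.le _) (hb.le _)
    · have h3 : ((4 * X / D : ℕ) : ℝ) ≤ ((4 * X : ℕ) : ℝ) / D := Nat.cast_div_le
      push_cast at h3
      calc ((4 * X / D : ℕ) : ℝ) ≤ 4 * X / D := h3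
        _ = 4 * (X / D) := by ring
    · intro m hm
      refine Finset.sum_eq_zero fun d hd' => Finset.sum_eq_zero fun h hh' => ?_
      have h4 := (Finset.mem_Ioc.1 hh').2
      have h5 : pw X ((d : ℤ) * m - h) = 0 := by
        by_contra hcon
        have := (pw_range hD (hd d hd') (by omega) hcon).2.1
        omega
      rw [h5]
      ring
    · intro d h
      unfold gam
      split_ifs
      · exact abs_mul_le_one (abs_cj_le hc _ _ _ _ _) (abs_cj_le hc _ _ _ _ _)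
      · simp
    · intro d h hP
      unfold gam
      rw [if_neg (fun h => hP h.2)]
  refine le_trans (Finset.sum_le_card_nsmul _ _ _ h2) ?_
  rw [nsmul_eq_mul, Finset.card_product, Finset.card_product, Finset.card_range, Finset.card_range]
  push_cast
  exact le_of_eq (by ring)

open Classical in
/-- The passage from `n` to `d m - h`. -/
private theorem not_bad {k : ℕ} (a : Fin k → ℕ) {c : ℕ → ℕ → ℝ} {b : ℕ → ℝ} {y H J D d m n : ℕ} (hd1 : 1 ≤ d)
    (hd : d < 2 * D) (hn : ¬ Bad a D n) :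
    Vv c b y H J d m (d * m - n) ≤
      if PrimD a d ((d * m - n : ℕ) : ℤ) then Vv c b y H J d m (d * m - n) else 0 := by
  split_ifs with hP
  · exact le_refl _
  by_contra hcon
  have h0 : Vv c b y H J d m (d * m - n) ≠ 0 := by
    intro h
    exact hcon (le_of_eq h)
  have h1 := Vv_supp hd h0
  apply hP
  intro i
  rw [Int.isCoprime_iff_gcd_eq_one]
  by_contra hg
  obtain ⟨p, hp, hpg⟩ := Nat.exists_prime_and_dvd hg
  apply hn
  have h2 : (p : ℤ) ∣ (d : ℤ) := dvd_trans (by exact_mod_cast hpg) (Int.gcd_dvd_left (d : ℤ) _)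
  have h3 : (p : ℤ) ∣ ((a i : ℤ) - ((d * m - n : ℕ) : ℤ)) :=
    dvd_trans (by exact_mod_cast hpg) (Int.gcd_dvd_right (d : ℤ) _)
  have h4 : p ≤ d := Nat.le_of_dvd hd1 (by exact_mod_cast h2)
  refine ⟨p, hp, by omega, i, ?_⟩
  have h5 : ((n + a i : ℕ) : ℤ) = (d : ℤ) * m + ((a i : ℤ) - ((d * m - n : ℕ) : ℤ)) := by
    have h6 : n ≤ d * m := by omega
    push_cast [Nat.cast_sub h6]
    ring
  have h7 : (p : ℤ) ∣ ((n + a i : ℕ) : ℤ) := by
    rw [h5]
    exact dvd_add (dvd_mul_of_dvd_left h2 _) h3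
  exact_mod_cast h7

theorem key_sq {k : ℕ} (a : Fin k → ℕ) (ha : Function.Injective a) {q : ℕ} {b : ℕ → ℝ}
    (hb : Helper8.DW.Per q b) (C0 ε : ℝ) (hε : 0 < ε) :
    ∃ J K H0 X0 : ℕ, 1 ≤ J ∧ ∀ X : ℕ, X0 ≤ X → ∀ D H y : ℕ, 1 ≤ D → D ^ 2 ≤ X → H0 * D ≤ H → H ≤ X →
    y ≤ X → ∀ E ⊆ Ico D (2 * D), (∀ d ∈ E, W d ≤ C0) → K * Real.log X ^ k ≤ E.card * H →
    ∀ c : ℕ → ℕ → ℝ, (∀ d h, |c d h| ≤ 1) → ∀ M : ℕ,
    ∑ n ∈ Icc 1 X, GG a n * ∑ d ∈ E, ∑ m ∈ Icc 1 M,
      (∑ j ∈ range J, cj c y H d (d * m - n) j * b (ArithmeticFunction.cardFactors (d * (m - j)))) ^ 2 ≤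
      ε * J ^ 2 * (E.card / D) * H * X := by
  classical
  have hq : (1 : ℝ) ≤ q := by exact_mod_cast hb.pos
  obtain ⟨η, hη, hηε⟩ : ∃ η : ℝ, 0 < η ∧ 4 ^ (k + 1) * q * √η = ε / 8 := by
    refine ⟨(ε / 8 / (4 ^ (k + 1) * q)) ^ 2, by positivity, ?_⟩
    rw [Real.sqrt_sq (by positivity)]
    field_simp
  obtain ⟨b', N, hN, K, X1, hsec⟩ := second a ha C0 η hη
  obtain ⟨s, hs⟩ : ∃ s, s = 80 * (b' + 2) := ⟨_, rfl⟩
  rw [← hs] at hsec
  have hs1 : (1 : ℝ) ≤ s := by exact_mod_cast (show 1 ≤ s by omega)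
  have hVV := Pool.Agent.Helper40.DB.VV_pos 0 N
  obtain ⟨Λ, hΛ⟩ : ∃ Λ : ℝ, Λ = (VV 0 N)⁻¹ ^ k := ⟨_, rfl⟩
  have hΛ0 : 0 < Λ := by rw [hΛ]; positivity
  obtain ⟨C1, hC1⟩ : ∃ C1 : ℝ, C1 = max C0 1 := ⟨_, rfl⟩
  have hC1' : 1 ≤ C1 := by rw [hC1]; exact le_max_right _ _
  have hC0' : C0 ≤ C1 := by rw [hC1]; exact le_max_left _ _
  obtain ⟨ε1, hε1, hε1'⟩ : ∃ ε1 : ℝ, 0 < ε1 ∧ (4 * (s : ℝ)) ^ k * (C1 ^ k * Λ) * (8 * ε1) = ε / 8 := by
    have h1 : 0 < (4 * (s : ℝ)) ^ k * (C1 ^ k * Λ) := by positivity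
    refine ⟨ε / 8 / (8 * ((4 * (s : ℝ)) ^ k * (C1 ^ k * Λ))), by positivity, ?_⟩
    field_simp
  obtain ⟨J, M0, hJ, hsm⟩ := smoothJ hb ε1 hε1
  obtain ⟨X2, hbad⟩ := bad_sum a (ε / 24) (by positivity)
  obtain ⟨X3, hmaj⟩ := SP.majorant a s N (by omega) (ε / 8) (by positivity)
  refine ⟨J, K, 2 * J, max (max X1 X2) (max X3 (M0 ^ 2 + 1)), hJ, ?_⟩
  intro X hX D H y hD hDX hDH hHX hyX E hE hW hK c hc M
  have hX1 : X1 ≤ X := le_trans (le_trans (le_max_left _ _) (le_max_left _ _)) hX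
  have hX2 : X2 ≤ X := le_trans (le_trans (le_max_right _ _) (le_max_left _ _)) hX
  have hX3 : X3 ≤ X := le_trans (le_trans (le_max_left _ _) (le_max_right _ _)) hX
  have hX4 : M0 ^ 2 + 1 ≤ X := le_trans (le_trans (le_max_right _ _) (le_max_right _ _)) hX
  have hX0 : (0 : ℝ) < X := by exact_mod_cast (show 0 < X by omega)
  have hD0 : (0 : ℝ) < D := by exact_mod_cast hD
  rcases Finset.eq_empty_or_nonempty E with hE0 | hE0
  · subst hE0
    simp
  have hEc : (0 : ℝ) < E.card := by exact_mod_cast Finset.card_pos.2 hE0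
  have hJ0 : (0 : ℝ) < J := by exact_mod_cast hJ
  have hHD : 2 * D * J ≤ H := by
    calc 2 * D * J = 2 * J * D := by ring
      _ ≤ H := hDH
  have hDH1 : D ≤ H := by
    have : D * 1 ≤ D * J := Nat.mul_le_mul_left D hJ
    have h2 : 2 * D * J = 2 * (D * J) := by ring
    omega
  have hH0 : (0 : ℝ) < H := by exact_mod_cast (show 0 < H by omega)
  obtain ⟨H', hH'⟩ : ∃ H', H' = H + 2 * D * J := ⟨_, rfl⟩
  have hH'1 : H' ≤ 2 * H := by omega
  have hH'r : (H' : ℝ) ≤ 2 * H := by exact_mod_cast hH'1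
  obtain ⟨z, hz1, hzX, hXz⟩ := DG.exists_z s X (by omega) (by omega)
  obtain ⟨B, hB⟩ : ∃ B : ℝ, B = E.card * ((H : ℝ) / D) * J ^ 2 := ⟨_, rfl⟩
  have hB0 : 0 < B := by rw [hB]; positivity
  obtain ⟨F, hF⟩ : ∃ F : ℕ → ℝ, F = fun n => ∑ d ∈ E, ∑ m ∈ Icc 1 M, Vv c b y H J d m (d * m - n) := ⟨_, rfl⟩
  have hF0 : ∀ n, 0 ≤ F n := by
    intro n
    rw [hF]
    exact Finset.sum_nonneg fun _ _ => Finset.sum_nonneg fun _ _ => Vv_nonneg _ _ _ _ _ _ _ _
  have hFB : ∀ n, F n ≤ 3 * B := by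
    intro n
    rw [hF, hB]
    exact F_le hc hb.le hD hHD hDH1 hE
  have hgoal : ∑ n ∈ Icc 1 X, GG a n * F n ≤ ε * B * X := by
    rw [← Finset.sum_filter_add_sum_filter_not (Icc 1 X) (fun n => Bad a D n)]
    have hpart1 : ∑ n ∈ (Icc 1 X).filter (fun n => Bad a D n), GG a n * F n ≤ ε / 8 * B * X := by
      calc ∑ n ∈ (Icc 1 X).filter (fun n => Bad a D n), GG a n * F n
          ≤ ∑ n ∈ (Icc 1 X).filter (fun n => Bad a D n), GG a n * (3 * B) :=
            Finset.sum_le_sum fun n _ => mul_le_mul_of_nonneg_left (hFB n)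
              (Pool.Agent.Helper83.HLC.GG_nonneg _ _)
        _ = (∑ n ∈ (Icc 1 X).filter (fun n => Bad a D n), GG a n) * (3 * B) := by rw [Finset.sum_mul]
        _ ≤ (ε / 24 * X) * (3 * B) := mul_le_mul_of_nonneg_right (hbad X hX2 D hD hDX) (by positivity)
        _ = _ := by ring
    -- the good integers
    obtain ⟨F', hF'⟩ : ∃ F' : ℕ → ℝ, F' = fun n => if Bad a D n then 0 else F n := ⟨_, rfl⟩
    have hF'0 : ∀ n, 0 ≤ F' n := by
      intro n
      rw [hF']
      simp only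
      split_ifs
      · exact le_refl _
      · exact hF0 n
    have hF'B : ∀ n, F' n ≤ 3 * B := by
      intro n
      rw [hF']
      simp only
      split_ifs
      · positivity
      · exact hFB n
    have hsum' : ∑ n ∈ (Icc 1 X).filter (fun n => ¬ Bad a D n), GG a n * F n =
        ∑ n ∈ Icc 1 X, GG a n * F' n := by
      rw [Finset.sum_filter]
      refine Finset.sum_congr rfl fun n _ => ?_
      rw [hF']
      simp only
      by_cases h : Bad a D n
      · rw [if_neg (not_not.2 h), if_pos h, mul_zero]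
      · rw [if_pos h, if_neg h]
    have hm := hmaj X hX3 z hzX hXz (fun n => F' n / B) (fun n => ⟨div_nonneg (hF'0 n) hB0.le, by
      rw [div_le_iff₀ hB0]
      have := hF'B n
      linarith⟩)
    have hm2 : ∑ n ∈ Icc 1 X, GG a n * F' n ≤
        (4 * (s : ℝ)) ^ k * ∑ n ∈ Icc 1 X, SP.nuA a 0 N n * SP.nuA a N z n * F' n + ε / 8 * B * X := by
      have h1 : ∑ n ∈ Icc 1 X, GG a n * F' n = (∑ n ∈ Icc 1 X, GG a n * (F' n / B)) * B := by
        rw [Finset.sum_mul]
        refine Finset.sum_congr rfl fun n _ => ?_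
        field_simp
      have h2 : ∑ n ∈ Icc 1 X, SP.nuA a 0 N n * SP.nuA a N z n * F' n =
          (∑ n ∈ Icc 1 X, SP.nuA a 0 N n * SP.nuA a N z n * (F' n / B)) * B := by
        rw [Finset.sum_mul]
        refine Finset.sum_congr rfl fun n _ => ?_
        field_simp
      rw [h1, h2]
      calc (∑ n ∈ Icc 1 X, GG a n * (F' n / B)) * B ≤ ((4 * (s : ℝ)) ^ k *
            ∑ n ∈ Icc 1 X, SP.nuA a 0 N n * SP.nuA a N z n * (F' n / B) + ε / 8 * X) * B :=
            mul_le_mul_of_nonneg_right hm hB0.le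
        _ = _ := by ring
    -- the exchange
    have hnu0 : ∀ n, 0 ≤ SP.nuA a 0 N n * SP.nuA a N z n := by
      intro n
      rw [← nuZ_nat, ← nuZ_nat]
      exact mul_nonneg (nuZ_le a 0 N n).1 (nuZ_le a N z n).1
    have hex : ∑ n ∈ Icc 1 X, SP.nuA a 0 N n * SP.nuA a N z n * F' n ≤
        ∑ d ∈ E, ∑ h ∈ Ioc y (y + H'), ∑ m ∈ Icc 1 M, pw X ((d : ℤ) * m - h) *
          (SP.nuA a 0 N (d * m - h) * SP.nuA a N z (d * m - h)) *
          (if PrimD a d h then Vv c b y H J d m h else 0) := by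
      calc ∑ n ∈ Icc 1 X, SP.nuA a 0 N n * SP.nuA a N z n * F' n
          ≤ ∑ n ∈ Icc 1 X, SP.nuA a 0 N n * SP.nuA a N z n * ∑ d ∈ E, ∑ m ∈ Icc 1 M,
            (if PrimD a d ((d * m - n : ℕ) : ℤ) then Vv c b y H J d m (d * m - n) else 0) := by
            refine Finset.sum_le_sum fun n _ => mul_le_mul_of_nonneg_left ?_ (hnu0 n)
            rw [hF']
            simp only
            split_ifs with h
            · refine Finset.sum_nonneg fun _ _ => Finset.sum_nonneg fun _ _ => ?_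
              split_ifs
              · exact Vv_nonneg _ _ _ _ _ _ _ _
              · exact le_refl _
            · rw [hF]
              refine Finset.sum_le_sum fun d hd => Finset.sum_le_sum fun m _ => ?_
              have hd' := Finset.mem_Ico.1 (hE hd)
              exact not_bad a (by omega) hd'.2 h
        _ = ∑ d ∈ E, ∑ n ∈ Icc 1 X, SP.nuA a 0 N n * SP.nuA a N z n * ∑ m ∈ Icc 1 M,
            (if PrimD a d ((d * m - n : ℕ) : ℤ) then Vv c b y H J d m (d * m - n) else 0) := by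
            rw [Finset.sum_comm]
            refine Finset.sum_congr rfl fun n _ => ?_
            rw [Finset.mul_sum]
        _ = _ := by
            refine Finset.sum_congr rfl fun d hd => ?_
            have hd' := Finset.mem_Ico.1 (hE hd)
            refine exchange (fun n => SP.nuA a 0 N n * SP.nuA a N z n)
              (fun m h => if PrimD a d (h : ℤ) then Vv c b y H J d m h else 0) d y H' X M ?_
            intro m h hne
            have h1 : Vv c b y H J d m h ≠ 0 := by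
              intro h0
              apply hne
              rw [h0, ite_self]
            have := Vv_supp hd'.2 h1
            rw [hH']
            exact this
    have hsplit : ∑ d ∈ E, ∑ h ∈ Ioc y (y + H'), ∑ m ∈ Icc 1 M, pw X ((d : ℤ) * m - h) *
          (SP.nuA a 0 N (d * m - h) * SP.nuA a N z (d * m - h)) *
          (if PrimD a d h then Vv c b y H J d m h else 0) ≤
        ∑ d ∈ E, ∑ h ∈ Ioc y (y + H'), ∑ m ∈ Icc 1 M, pw X ((d : ℤ) * m - h) *
          (phZ a N z (kk N z d) ((d : ℤ) * m - h) * (if PrimD a d h then Vv c b y H J d m h else 0)) +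
        ∑ d ∈ E, ∑ h ∈ Ioc y (y + H'), C1 ^ k * Λ * ∑ m ∈ Icc 1 M, pw X ((d : ℤ) * m - h) *
          Vv c b y H J d m h := by
      rw [← Finset.sum_add_distrib]
      refine Finset.sum_le_sum fun d hd => ?_
      have hd' := Finset.mem_Ico.1 (hE hd)
      have hκ := kk_le_W N z d (by omega)
      have hκ1 : 0 ≤ kk N z d := le_trans zero_le_one hκ.1
      have hκ2 : kk N z d ≤ C1 := le_trans hκ.2 (le_trans (hW d hd) hC0')
      have hκ3 : kk N z d ^ k ≤ C1 ^ k := pow_le_pow_left₀ hκ1 hκ2 k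
      rw [← Finset.sum_add_distrib]
      refine Finset.sum_le_sum fun h _ => ?_
      rw [Finset.mul_sum, ← Finset.sum_add_distrib]
      refine Finset.sum_le_sum fun m _ => ?_
      have hV0 := Vv_nonneg c b y H J d m h
      obtain ⟨hp0, -⟩ := pw_nonneg X ((d : ℤ) * m - h)
      by_cases hp : pw X ((d : ℤ) * m - h) = 0
      · rw [hp]
        simp
      obtain ⟨h1, h2, h3⟩ := pw_supp hp
      have h4 : h ≤ d * m := by
        have : (h : ℤ) ≤ (d : ℤ) * m := by omega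
        exact_mod_cast this
      have h5 : ((d * m - h : ℕ) : ℤ) = (d : ℤ) * m - h := by
        push_cast [Nat.cast_sub h4]
        ring
      rw [nu_split a N z (kk N z d) (d * m - h), h5, h3]
      obtain ⟨h6, h7⟩ := nuZ_le a 0 N ((d : ℤ) * m - h)
      rw [← hΛ] at h7
      have h8 : kk N z d ^ k * nuZ a 0 N ((d : ℤ) * m - h) ≤ C1 ^ k * Λ :=
        mul_le_mul hκ3 h7 h6 (by positivity)
      have h9 : (if PrimD a d h then Vv c b y H J d m h else 0) ≤ Vv c b y H J d m h := by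
        split_ifs
        · exact le_refl _
        · exact hV0
      have h10 : 0 ≤ (if PrimD a d h then Vv c b y H J d m h else 0) := by
        split_ifs
        · exact hV0
        · exact le_refl _
      have h11 : kk N z d ^ k * nuZ a 0 N ((d : ℤ) * m - h) *
          (if PrimD a d h then Vv c b y H J d m h else 0) ≤ C1 ^ k * Λ * Vv c b y H J d m h :=
        mul_le_mul h8 h9 h10 (by positivity)
      calc 1 * (phZ a N z (kk N z d) ((d : ℤ) * m - h) + kk N z d ^ k * nuZ a 0 N ((d : ℤ) * m - h)) *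
            (if PrimD a d h then Vv c b y H J d m h else 0)
          = 1 * (phZ a N z (kk N z d) ((d : ℤ) * m - h) * (if PrimD a d h then Vv c b y H J d m h else 0)) +
            kk N z d ^ k * nuZ a 0 N ((d : ℤ) * m - h) * (if PrimD a d h then Vv c b y H J d m h else 0) := by
            ring
        _ ≤ _ := by
            refine add_le_add (le_refl _) (le_trans h11 (le_of_eq (by ring)))
    -- part one
    have hM0 : M0 ≤ 4 * X / D := by
      rw [Nat.le_div_iff_mul_le (by omega)]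
      rcases le_total D M0 with h | h
      · have : M0 * D ≤ M0 * M0 := Nat.mul_le_mul_left M0 h
        nlinarith
      · have : M0 * D ≤ D * D := Nat.mul_le_mul_right D h
        nlinarith
    have hM'r : ((4 * X / D : ℕ) : ℝ) ≤ 4 * (X / D) := by
      have h3 : ((4 * X / D : ℕ) : ℝ) ≤ ((4 * X : ℕ) : ℝ) / D := Nat.cast_div_le
      push_cast at h3
      calc ((4 * X / D : ℕ) : ℝ) ≤ 4 * X / D := h3
        _ = 4 * (X / D) := by ring
    have hI : ∑ d ∈ E, ∑ h ∈ Ioc y (y + H'), C1 ^ k * Λ * ∑ m ∈ Icc 1 M, pw X ((d : ℤ) * m - h) *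
          Vv c b y H J d m h ≤ C1 ^ k * Λ * (8 * ε1) * B * X := by
      have h1 : ∀ d ∈ E, ∑ h ∈ Ioc y (y + H'), C1 ^ k * Λ * ∑ m ∈ Icc 1 M, pw X ((d : ℤ) * m - h) *
          Vv c b y H J d m h ≤ H' * (C1 ^ k * Λ * (ε1 * J ^ 2 * (4 * (X / D)))) := by
        intro d hd
        have hd' := Finset.mem_Ico.1 (hE hd)
        refine le_trans (Finset.sum_le_card_nsmul _ _ (C1 ^ k * Λ * (ε1 * J ^ 2 * (4 * (X / D))))
          fun h hh => ?_) ?_
        · refine mul_le_mul_of_nonneg_left ?_ (by positivity)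
          refine le_trans (part_one (M' := 4 * X / D) hc (hsm _ hM0) hD hd'.1 ?_ rfl) ?_
          · have := (Finset.mem_Ioc.1 hh).2
            omega
          · exact mul_le_mul_of_nonneg_left hM'r (by positivity)
        · rw [nsmul_eq_mul, Nat.card_Ioc]
          have : y + H' - y = H' := by omega
          rw [this]
      refine le_trans (Finset.sum_le_card_nsmul _ _ _ h1) ?_
      rw [nsmul_eq_mul]
      calc (E.card : ℝ) * (H' * (C1 ^ k * Λ * (ε1 * J ^ 2 * (4 * (X / D)))))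
          ≤ (E.card : ℝ) * (2 * H * (C1 ^ k * Λ * (ε1 * J ^ 2 * (4 * (X / D))))) := by
            refine mul_le_mul_of_nonneg_left (mul_le_mul_of_nonneg_right hH'r (by positivity)) hEc.le
        _ = _ := by
            rw [hB]
            ring
    -- part two
    have hII := part_two (J := J) (M := M) (s := s) (N := N) (z := z) (X := X) (y := y) (H := H) (H' := H') a hb hc
      hη.le hD hE (by omega) (fun γ hγ hγ' => hsec X hX1 z hz1 hzX D H' y (4 * X / D) hD hDX (by omega)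
        (by omega) hyX E hE hW (le_trans hK (by
          refine mul_le_mul_of_nonneg_left ?_ hEc.le
          exact_mod_cast (show H ≤ H' by omega))) γ hγ hγ')
    have hs0 : (0 : ℝ) ≤ (4 * (s : ℝ)) ^ k := by positivity
    have hfin : (4 * (s : ℝ)) ^ k * ∑ n ∈ Icc 1 X, SP.nuA a 0 N n * SP.nuA a N z n * F' n ≤
        ε / 8 * B * X + ε / 8 * B * X := by
      refine le_trans (mul_le_mul_of_nonneg_left (le_trans hex (le_trans hsplit
        (add_le_add (le_refl _) hI))) hs0) ?_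
      rw [mul_add]
      refine add_le_add ?_ ?_
      · rw [mul_pow, mul_assoc]
        refine le_trans (mul_le_mul_of_nonneg_left hII (by positivity)) ?_
        calc (4 : ℝ) ^ k * (q * J ^ 2 * (2 * √η * (X / D) * (E.card * H')))
            ≤ (4 : ℝ) ^ k * (q * J ^ 2 * (2 * √η * (X / D) * (E.card * (2 * H)))) := by
              gcongr
          _ = (4 ^ (k + 1) * q * √η) * B * X := by
              rw [hB]
              ring
          _ = _ := by rw [hηε]
      · calc (4 * (s : ℝ)) ^ k * (C1 ^ k * Λ * (8 * ε1) * B * X)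
            = ((4 * (s : ℝ)) ^ k * (C1 ^ k * Λ) * (8 * ε1)) * B * X := by ring
          _ = _ := by rw [hε1']
          _ ≤ _ := le_refl _
    rw [hsum']
    have hBX : 0 ≤ B * X := by positivity
    calc _ ≤ ε / 8 * B * X + ((ε / 8 * B * X + ε / 8 * B * X) + ε / 8 * B * X) :=
          add_le_add hpart1 (le_trans hm2 (add_le_add hfin (le_refl _)))
      _ = (ε / 2) * (B * X) := by ring
      _ ≤ ε * (B * X) := mul_le_mul_of_nonneg_right (by linarith) hBX
      _ = ε * B * X := by ring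
  have h1 : ε * (J : ℝ) ^ 2 * (E.card / D) * H * X = ε * B * X := by
    rw [hB]
    ring
  rw [h1]
  refine le_trans (le_of_eq ?_) hgoal
  rw [hF]
  rfl

end Pool.Agent.Helper39.SC
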