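import Pool.Agent.Helper39.SC.Key
import Pool.Agent.Helper8.DW.Rank

/-!
# SC-11: products `d p`, with coefficients depending on `d`

MODEL: `set_bound` and `pairs_bound` in `Pool/Agent/Helper8/DW/Rank.lean` (theorems `split_rank`, `card_rank` there are public).
PROOF. Split the pairs `(d, p) ∈ A × S` by their rank `rk S (d, p)` as in `pairs_bound`. For the rank `i < I` the map `(d, p) ↦ d p` is injective, so the coefficient `c d` is a function of
the product `e = d p` (choose the first component of a preimage), `E_i = Ei A S i` is a subset of `[B D, 4 B D)`, a union of two dyadic sets, `W (d p) ≤ W d * W p ≤ 2 C0`, and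
`key` (with `2 C0`, and the trivial bound `Tc ≤ 3 H / (B D)` if `|E_i| H < K' (log X)^k`, `K'` the constant of `key` and `K ≥ K' / ε'`, as in `set_bound`) gives the claim.
The pairs of rank `≥ I` are few (`card_rank`) and are estimated trivially. (`split_rank` is stated for a function of the product; here the summand depends on `(d, p)`; either copy its proof
for a function of the pair or apply the argument to the injective restrictions directly.)
-/

set_option autoImplicit false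

namespace Pool.Agent.Helper39.SC

open Finset
open Pool.Agent.Helper83.HLC (GG W)

private theorem pc_dvd_swap {S : Finset ℕ} (hS : ∀ p ∈ S, p.Prime) {x y : ℕ × ℕ} (hy : y.2 ∈ S)
    (h : x.1 * x.2 = y.1 * y.2) {p : ℕ} (hp : p ∈ S) (hpy : p < y.2) (hd : p ∣ x.1 * x.2) : p ∣ y.1 := by
  rw [h] at hd
  rcases (hS p hp).dvd_mul.1 hd with h1 | h1
  · exact h1
  · have := (Nat.prime_dvd_prime_iff_eq (hS p hp) (hS _ hy)).1 h1
    omega

private theorem pc_rk_lt {S : Finset ℕ} (hS : ∀ p ∈ S, p.Prime) {x y : ℕ × ℕ} (hx : x.2 ∈ S) (hy : y.2 ∈ S)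
    (h : x.1 * x.2 = y.1 * y.2) (hlt : x.2 < y.2) : Helper8.DW.rk S x < Helper8.DW.rk S y := by
  unfold Helper8.DW.rk
  refine Finset.card_lt_card ⟨?_, ?_⟩
  · intro p hp
    rw [Finset.mem_filter] at hp ⊢
    refine ⟨hp.1, ?_, hp.2.2.trans hlt⟩
    exact pc_dvd_swap hS hy h hp.1 (hp.2.2.trans hlt) (hp.2.1.mul_right _)
  · intro hsub
    have h1 : x.2 ∈ S.filter (fun p' => p' ∣ y.1 ∧ p' < y.2) := by
      rw [Finset.mem_filter]
      exact ⟨hx, pc_dvd_swap hS hy h hx hlt (Dvd.intro_left _ rfl), hlt⟩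
    have h2 := (Finset.mem_filter.1 (hsub h1)).2.2
    omega

private theorem pc_rk_inj {S : Finset ℕ} (hS : ∀ p ∈ S, p.Prime) {x y : ℕ × ℕ} (hx : x.2 ∈ S) (hy : y.2 ∈ S)
    (h : x.1 * x.2 = y.1 * y.2) (hr : Helper8.DW.rk S x = Helper8.DW.rk S y) : x = y := by
  rcases lt_trichotomy x.2 y.2 with h1 | h1 | h1
  · have := pc_rk_lt hS hx hy h h1
    omega
  · rw [h1] at h
    exact Prod.ext (Nat.eq_of_mul_eq_mul_right (hS _ hy).pos h) h1
  · have := pc_rk_lt hS hy hx h.symm h1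
    omega

/-- The pairs of rank `i`. -/
private def pcP (A S : Finset ℕ) (i : ℕ) : Finset (ℕ × ℕ) :=
  (A ×ˢ S).filter (fun x => Helper8.DW.rk S x = i)

private theorem pc_Ei (A S : Finset ℕ) (i : ℕ) :
    Helper8.DW.Ei A S i = (pcP A S i).image (fun x => x.1 * x.2) := rfl

open Classical in
/-- The first component of a pair of rank `i` with product `e`. -/
private noncomputable def pcF (A S : Finset ℕ) (i e : ℕ) : ℕ :=
  if h : ∃ x ∈ pcP A S i, x.1 * x.2 = e then (Classical.choose h).1 else 0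

private theorem pcF_eq {A S : Finset ℕ} (hS : ∀ p ∈ S, p.Prime) {i : ℕ} {x : ℕ × ℕ}
    (hx : x ∈ pcP A S i) : pcF A S i (x.1 * x.2) = x.1 := by
  have h : ∃ z ∈ pcP A S i, z.1 * z.2 = x.1 * x.2 := ⟨x, hx, rfl⟩
  unfold pcF
  rw [dif_pos h]
  have h1 := Classical.choose_spec h
  have hz := Finset.mem_filter.1 h1.1
  have hx' := Finset.mem_filter.1 hx
  rw [pc_rk_inj hS (Finset.mem_product.1 hz.1).2 (Finset.mem_product.1 hx'.1).2 h1.2
    (hz.2.trans hx'.2.symm)]

private theorem pc_split (A S : Finset ℕ) (hS : ∀ p ∈ S, p.Prime) (I : ℕ) (F : ℕ → ℕ → ℝ) :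
    ∑ x ∈ A ×ˢ S, F x.1 (x.1 * x.2) =
      ∑ i ∈ range I, ∑ e ∈ Helper8.DW.Ei A S i, F (pcF A S i e) e +
      ∑ x ∈ (A ×ˢ S).filter (fun x => I ≤ Helper8.DW.rk S x), F x.1 (x.1 * x.2) := by
  have h1 : ∀ i ∈ range I, ∑ e ∈ Helper8.DW.Ei A S i, F (pcF A S i e) e =
      ∑ x ∈ ((A ×ˢ S).filter (fun x => Helper8.DW.rk S x < I)).filter
        (fun x => Helper8.DW.rk S x = i), F x.1 (x.1 * x.2) := by
    intro i hi
    rw [Finset.mem_range] at hi
    rw [pc_Ei, Finset.sum_image]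
    · rw [Finset.sum_congr rfl (fun x hx => by rw [pcF_eq hS hx])]
      unfold pcP
      rw [Finset.filter_filter]
      refine Finset.sum_congr (Finset.filter_congr fun x _ => ?_) fun _ _ => rfl
      constructor
      · intro h
        exact ⟨by omega, h⟩
      · intro h
        exact h.2
    · intro x hx y hy h
      have hx' := Finset.mem_filter.1 hx
      have hy' := Finset.mem_filter.1 hy
      exact pc_rk_inj hS (Finset.mem_product.1 hx'.1).2 (Finset.mem_product.1 hy'.1).2 h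
        (hx'.2.trans hy'.2.symm)
  rw [Finset.sum_congr rfl h1, Finset.sum_fiberwise_of_maps_to (g := Helper8.DW.rk S)
    (fun x hx => Finset.mem_range.2 (Finset.mem_filter.1 hx).2),
    ← Finset.sum_filter_add_sum_filter_not (A ×ˢ S) (fun x => Helper8.DW.rk S x < I)]
  congr 1
  exact Finset.sum_congr (Finset.filter_congr fun x _ => not_lt) fun _ _ => rfl

private theorem pc_W (d p : ℕ) (hd : d ≠ 0) (hp : p.Prime) : W (d * p) ≤ 2 * W d := by
  have hW : 0 ≤ W d := zero_le_one.trans (Helper83.HLC.one_le_W d)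
  have h1 : (d * p).primeFactors = insert p d.primeFactors := by
    rw [Nat.primeFactors_mul hd hp.ne_zero, hp.primeFactors, Finset.union_comm,
      Finset.singleton_union]
  have h2 : (2 : ℝ) ≤ p := by exact_mod_cast hp.two_le
  have h3 : 1 + 2 / (p : ℝ) ≤ 2 := by
    have : 2 / (p : ℝ) ≤ 1 := (div_le_one (by linarith)).2 h2
    linarith
  by_cases hm : p ∈ d.primeFactors
  · have h4 : W (d * p) = W d := by
      unfold W
      rw [h1, Finset.insert_eq_of_mem hm]
    rw [h4]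
    linarith
  · have h4 : W (d * p) = (1 + 2 / (p : ℝ)) * W d := by
      unfold W
      rw [h1, Finset.prod_insert hm]
    rw [h4]
    exact mul_le_mul_of_nonneg_right h3 hW

theorem Tc_le {q : ℕ} {b : ℕ → ℝ} (hb : Helper8.DW.Per q b) (c : ℕ → ℝ) (hc : ∀ h, |c h| ≤ 1)
    (y H n e D : ℕ) (hD : 1 ≤ D) (hDe : D ≤ e) (hDH : D ≤ H) : Tc c b y H n e ≤ 2 * H / D := by
  have hD0 : (0 : ℝ) < D := by exact_mod_cast hD
  have h1 : Tc c b y H n e ≤ (Helper8.DW.mul n e y H).card := by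
    unfold Tc
    refine (Finset.abs_sum_le_sum_abs _ _).trans ?_
    calc ∑ h ∈ Helper8.DW.mul n e y H, |c h * b (ArithmeticFunction.cardFactors (n + h))|
        ≤ ∑ _h ∈ Helper8.DW.mul n e y H, (1 : ℝ) := by
          refine Finset.sum_le_sum fun h _ => ?_
          rw [abs_mul]
          exact mul_le_one₀ (hc h) (abs_nonneg _) (hb.le _)
      _ = _ := by simp
  have h2 := Helper8.DW.card_mul n e y H (hD.trans hDe)
  have h3 : (H : ℝ) / e ≤ H / D :=
    div_le_div_of_nonneg_left (Nat.cast_nonneg H) hD0 (by exact_mod_cast hDe)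
  have h4 : (1 : ℝ) ≤ H / D := by
    rw [le_div_iff₀ hD0, one_mul]
    exact_mod_cast hDH
  have h5 : 2 * (H : ℝ) / D = H / D + H / D := by ring
  rw [h5]
  linarith

private theorem pc_set {k : ℕ} (a : Fin k → ℕ) (ha : Function.Injective a) {q : ℕ} {b : ℕ → ℝ}
    (hb : Helper8.DW.Per q b) (C0 ε : ℝ) (hε : 0 < ε) :
    ∃ K H0 X0 : ℕ, ∀ X : ℕ, X0 ≤ X → ∀ D H y : ℕ, 1 ≤ D → D ^ 2 ≤ X → H0 * D ≤ H → D ≤ H →
      H ≤ X → y ≤ X → ∀ E ⊆ Ico D (2 * D), (∀ d ∈ E, W d ≤ C0) → ∀ N : ℝ, (E.card : ℝ) ≤ N →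
      K * Real.log X ^ k ≤ N * H → ∀ c : ℕ → ℕ → ℝ, (∀ d h, |c d h| ≤ 1) →
      ∑ n ∈ Icc 1 X, GG a n * ∑ d ∈ E, Tc (c d) b y H n d ≤ ε * (N / D) * H * X := by
  obtain ⟨C, hC, X1, hGG⟩ := Helper83.HLC.sum_GG a ha
  obtain ⟨K', H0, X2, hF⟩ := key a ha hb C0 ε hε
  obtain ⟨K, hK⟩ := exists_nat_ge (2 * C * K' / ε)
  have hK' : (K' : ℝ) ≤ ε / (2 * C) * K := by
    rw [div_le_iff₀ hε] at hK
    rw [div_mul_eq_mul_div, le_div_iff₀ (by positivity)]
    linarith
  refine ⟨K, H0, max X1 X2, fun X hX D H y hD hDX hHD hDH hHX hyX E hE hφ N hN hlog c hc => ?_⟩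
  have hD0 : (0 : ℝ) < D := by exact_mod_cast hD
  have hN0 : 0 ≤ N := (Nat.cast_nonneg _).trans hN
  have hsum := hGG X ((le_max_left _ _).trans hX)
  by_cases hrich : K' * Real.log X ^ k ≤ (E.card : ℝ) * H
  · have h1 := hF X ((le_max_right _ _).trans hX) D H y hD hDX hHD hHX hyX E hE hφ hrich c hc
    refine h1.trans ?_
    have h2 : (E.card : ℝ) / D ≤ N / D := div_le_div_of_nonneg_right hN hD0.le
    exact mul_le_mul_of_nonneg_right (mul_le_mul_of_nonneg_right (mul_le_mul_of_nonneg_left h2 hε.le)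
      (Nat.cast_nonneg _)) (Nat.cast_nonneg _)
  · rw [not_le] at hrich
    have hHR : (0 : ℝ) < H := by
      have : 0 < H := lt_of_lt_of_le hD hDH
      exact_mod_cast this
    have hlog0 : 0 ≤ Real.log X ^ k := pow_nonneg (Real.log_natCast_nonneg X) k
    have h1 : (E.card : ℝ) ≤ ε / (2 * C) * N := by
      have h2 : (E.card : ℝ) * H ≤ (ε / (2 * C) * N) * H := by
        calc (E.card : ℝ) * H ≤ K' * Real.log X ^ k := hrich.le
          _ ≤ ε / (2 * C) * K * Real.log X ^ k := mul_le_mul_of_nonneg_right hK' hlog0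
          _ = ε / (2 * C) * (K * Real.log X ^ k) := by ring
          _ ≤ ε / (2 * C) * (N * H) := mul_le_mul_of_nonneg_left hlog (by positivity)
          _ = _ := by ring
      exact le_of_mul_le_mul_right h2 hHR
    have hT : ∀ n ∈ Icc 1 X, GG a n * ∑ d ∈ E, Tc (c d) b y H n d ≤
        GG a n * ((E.card : ℝ) * (2 * H / D)) := by
      intro n _
      refine mul_le_mul_of_nonneg_left ?_ (Helper83.HLC.GG_nonneg a n)
      calc ∑ d ∈ E, Tc (c d) b y H n d ≤ ∑ _d ∈ E, 2 * (H : ℝ) / D :=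
            Finset.sum_le_sum fun d hd =>
              Tc_le hb (c d) (hc d) y H n d D hD (Finset.mem_Ico.1 (hE hd)).1 hDH
        _ = _ := by rw [Finset.sum_const, nsmul_eq_mul]
    calc ∑ n ∈ Icc 1 X, GG a n * ∑ d ∈ E, Tc (c d) b y H n d
        ≤ ∑ n ∈ Icc 1 X, GG a n * ((E.card : ℝ) * (2 * H / D)) := Finset.sum_le_sum hT
      _ = (∑ n ∈ Icc 1 X, GG a n) * ((E.card : ℝ) * (2 * H / D)) := by rw [Finset.sum_mul]
      _ ≤ (C * X) * ((ε / (2 * C) * N) * (2 * H / D)) :=
          mul_le_mul hsum (mul_le_mul_of_nonneg_right h1 (by positivity)) (by positivity) (by positivity)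
      _ = ε * (N / D) * H * X := by
          field_simp

theorem pairs_c {k : ℕ} (a : Fin k → ℕ) (ha : Function.Injective a) {q : ℕ} {b : ℕ → ℝ}
    (hb : Helper8.DW.Per q b) (C0 ε : ℝ) (hC0 : 0 ≤ C0) (hε : 0 < ε) :
    ∃ K H0 X0 : ℕ, ∀ X : ℕ, X0 ≤ X → ∀ D B H y : ℕ, 1 ≤ D → 1 ≤ B → (2 * (B * D)) ^ 2 ≤ X →
      H0 * (2 * (B * D)) ≤ H → 2 * (B * D) ≤ H → H ≤ X → y ≤ X →
      ∀ A ⊆ Ico D (2 * D), (∀ d ∈ A, W d ≤ C0) →
      ∀ S ⊆ Ico B (2 * B), (∀ p ∈ S, p.Prime) → K * Real.log X ^ k ≤ D * S.card * H →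
      ∀ c : ℕ → ℕ → ℝ, (∀ d h, |c d h| ≤ 1) →
      ∑ n ∈ Icc 1 X, GG a n * ∑ d ∈ A, ∑ p ∈ S, Tc (c d) b y H n (d * p) ≤
        ε * (S.card / B) * H * X := by
  obtain ⟨C, hC, X1, hGG⟩ := Helper83.HLC.sum_GG a ha
  obtain ⟨I, hI⟩ := exists_nat_ge (8 * C / ε)
  have hI0 : (0 : ℝ) < I := lt_of_lt_of_le (by positivity) hI
  obtain ⟨K, H0, X2, hF⟩ := pc_set a ha hb (2 * C0) (ε / (4 * I)) (by positivity)
  refine ⟨K, H0, max X1 X2,
    fun X hX D B H y hD hB hDX hHD hDH hHX hyX A hA hφ S hS hSp hlog c hc => ?_⟩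
  have hD0 : (0 : ℝ) < D := by exact_mod_cast hD
  have hB0 : (0 : ℝ) < B := by exact_mod_cast hB
  have hBD : 1 ≤ B * D := Nat.mul_pos hB hD
  have hsum := hGG X ((le_max_left _ _).trans hX)
  have hAcard : (A.card : ℝ) ≤ D := by
    have h1 := Finset.card_le_card hA
    rw [Nat.card_Ico] at h1
    have h2 : A.card ≤ D := by omega
    exact_mod_cast h2
  -- the sets `Ei`
  have hEmem : ∀ i, ∀ e ∈ Helper8.DW.Ei A S i, B * D ≤ e ∧ e < 2 * (2 * (B * D)) ∧
      W e ≤ 2 * C0 := by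
    intro i e he
    unfold Helper8.DW.Ei at he
    rw [Finset.mem_image] at he
    obtain ⟨x, hx, rfl⟩ := he
    have hx1 := Finset.mem_product.1 (Finset.mem_filter.1 hx).1
    have h1 := Finset.mem_Ico.1 (hA hx1.1)
    have h2 := Finset.mem_Ico.1 (hS hx1.2)
    have hp := hSp _ hx1.2
    refine ⟨?_, ?_, ?_⟩
    · rw [mul_comm B D]
      exact Nat.mul_le_mul h1.1 h2.1
    · calc x.1 * x.2 < (2 * D) * (2 * B) := Nat.mul_lt_mul'' h1.2 h2.2
        _ = _ := by ring
    · have h3 := hφ _ hx1.1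
      have h4 := pc_W x.1 x.2 (by omega) hp
      linarith
  have hEcard : ∀ i, ((Helper8.DW.Ei A S i).card : ℝ) ≤ D * S.card := by
    intro i
    have h1 : (Helper8.DW.Ei A S i).card ≤ A.card * S.card := by
      unfold Helper8.DW.Ei
      refine Finset.card_image_le.trans ((Finset.card_filter_le _ _).trans (le_of_eq ?_))
      rw [Finset.card_product]
    calc ((Helper8.DW.Ei A S i).card : ℝ) ≤ (A.card : ℝ) * S.card := by exact_mod_cast h1
      _ ≤ D * S.card := mul_le_mul_of_nonneg_right hAcard (Nat.cast_nonneg _)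
  have hE : ∀ i, ∑ n ∈ Icc 1 X, GG a n * ∑ e ∈ Helper8.DW.Ei A S i,
      Tc (c (pcF A S i e)) b y H n e ≤ ε / (2 * I) * (S.card / B) * H * X := by
    intro i
    have h1 := hF X ((le_max_right _ _).trans hX) (B * D) H y hBD
      (le_trans (Nat.pow_le_pow_left (by omega) 2) hDX) (le_trans (Nat.mul_le_mul_left _ (by omega)) hHD)
      (by omega) hHX hyX ((Helper8.DW.Ei A S i).filter (fun e => e < 2 * (B * D)))
      (fun e he => by
        rw [Finset.mem_filter] at he
        exact Finset.mem_Ico.2 ⟨(hEmem i e he.1).1, he.2⟩)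
      (fun e he => (hEmem i e (Finset.mem_filter.1 he).1).2.2) (D * S.card)
      (le_trans (by exact_mod_cast Finset.card_filter_le _ _) (hEcard i)) hlog
      (fun e => c (pcF A S i e)) (fun e h => hc _ h)
    have h2 := hF X ((le_max_right _ _).trans hX) (2 * (B * D)) H y (by omega) hDX hHD hDH hHX hyX
      ((Helper8.DW.Ei A S i).filter (fun e => ¬ e < 2 * (B * D)))
      (fun e he => by
        rw [Finset.mem_filter, not_lt] at he
        exact Finset.mem_Ico.2 ⟨he.2, (hEmem i e he.1).2.1⟩)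
      (fun e he => (hEmem i e (Finset.mem_filter.1 he).1).2.2) (D * S.card)
      (le_trans (by exact_mod_cast Finset.card_filter_le _ _) (hEcard i)) hlog
      (fun e => c (pcF A S i e)) (fun e h => hc _ h)
    have h3 : ∑ n ∈ Icc 1 X, GG a n * ∑ e ∈ Helper8.DW.Ei A S i, Tc (c (pcF A S i e)) b y H n e =
        ∑ n ∈ Icc 1 X, GG a n * ∑ e ∈ (Helper8.DW.Ei A S i).filter (fun e => e < 2 * (B * D)),
            Tc (c (pcF A S i e)) b y H n e +
          ∑ n ∈ Icc 1 X, GG a n * ∑ e ∈ (Helper8.DW.Ei A S i).filter (fun e => ¬ e < 2 * (B * D)),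
            Tc (c (pcF A S i e)) b y H n e := by
      rw [← Finset.sum_add_distrib]
      refine Finset.sum_congr rfl fun n _ => ?_
      rw [← mul_add, Finset.sum_filter_add_sum_filter_not]
    rw [h3]
    have h4 : (D : ℝ) * S.card / ((B * D : ℕ) : ℝ) = S.card / B := by
      push_cast
      field_simp
    have h5 : (D : ℝ) * S.card / ((2 * (B * D) : ℕ) : ℝ) ≤ S.card / B := by
      rw [← h4]
      refine div_le_div_of_nonneg_left (by positivity) (by exact_mod_cast hBD) ?_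
      push_cast
      have h6 : (0 : ℝ) ≤ B * D := by positivity
      linarith
    rw [h4] at h1
    have h7 : ε / (4 * I) * (D * S.card / ((2 * (B * D) : ℕ) : ℝ)) * H * X ≤ ε / (4 * I) * (S.card / B) * H * X :=
      mul_le_mul_of_nonneg_right (mul_le_mul_of_nonneg_right (mul_le_mul_of_nonneg_left h5 (by positivity))
        (Nat.cast_nonneg _)) (Nat.cast_nonneg _)
    calc _ ≤ ε / (4 * I) * (S.card / B) * H * X + ε / (4 * I) * (S.card / B) * H * X :=
          add_le_add h1 (h2.trans h7)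
      _ = ε / (2 * I) * (S.card / B) * H * X := by
          field_simp
          ring
  -- the pairs of large rank
  have hrank : ∑ n ∈ Icc 1 X, GG a n * ∑ x ∈ (A ×ˢ S).filter (fun x => I ≤ Helper8.DW.rk S x),
      Tc (c x.1) b y H n (x.1 * x.2) ≤ ε / 2 * (S.card / B) * H * X := by
    have hcr := Helper8.DW.card_rank A S D B I hD hB hA hS
    have hT : ∀ n ∈ Icc 1 X, GG a n * ∑ x ∈ (A ×ˢ S).filter (fun x => I ≤ Helper8.DW.rk S x),
        Tc (c x.1) b y H n (x.1 * x.2) ≤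
        GG a n * (((((A ×ˢ S).filter (fun x => I ≤ Helper8.DW.rk S x)).card : ℕ) : ℝ) *
          (2 * H / ((B * D : ℕ) : ℝ))) := by
      intro n _
      refine mul_le_mul_of_nonneg_left ?_ (Helper83.HLC.GG_nonneg a n)
      calc ∑ x ∈ (A ×ˢ S).filter (fun x => I ≤ Helper8.DW.rk S x), Tc (c x.1) b y H n (x.1 * x.2)
          ≤ ∑ _x ∈ (A ×ˢ S).filter (fun x => I ≤ Helper8.DW.rk S x),
              2 * (H : ℝ) / ((B * D : ℕ) : ℝ) := by
            refine Finset.sum_le_sum fun x hx =>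
              Tc_le hb (c x.1) (hc x.1) y H n _ (B * D) hBD ?_ (by omega)
            have hx1 := Finset.mem_product.1 (Finset.mem_filter.1 hx).1
            rw [mul_comm B D]
            exact Nat.mul_le_mul (Finset.mem_Ico.1 (hA hx1.1)).1 (Finset.mem_Ico.1 (hS hx1.2)).1
        _ = _ := by rw [Finset.sum_const, nsmul_eq_mul]
    have hc2 : ((((A ×ˢ S).filter (fun x => I ≤ Helper8.DW.rk S x)).card : ℕ) : ℝ) ≤
        2 * D * S.card / I := by
      rw [le_div_iff₀ hI0]
      exact hcr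
    calc _ ≤ ∑ n ∈ Icc 1 X, GG a n *
          (((((A ×ˢ S).filter (fun x => I ≤ Helper8.DW.rk S x)).card : ℕ) : ℝ) *
            (2 * H / ((B * D : ℕ) : ℝ))) :=
          Finset.sum_le_sum hT
      _ = (∑ n ∈ Icc 1 X, GG a n) *
          (((((A ×ˢ S).filter (fun x => I ≤ Helper8.DW.rk S x)).card : ℕ) : ℝ) *
            (2 * H / ((B * D : ℕ) : ℝ))) := by
          rw [Finset.sum_mul]
      _ ≤ (C * X) * ((2 * D * S.card / I) * (2 * H / ((B * D : ℕ) : ℝ))) :=
          mul_le_mul hsum (mul_le_mul_of_nonneg_right hc2 (by positivity)) (by positivity) (by positivity)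
      _ = (4 * C / I) * (S.card / B) * H * X := by
          push_cast
          field_simp
          ring
      _ ≤ ε / 2 * (S.card / B) * H * X := by
          have h8 : 4 * C / I ≤ ε / 2 := by
            rw [div_le_iff₀ hε] at hI
            rw [div_le_iff₀ hI0]
            linarith
          exact mul_le_mul_of_nonneg_right (mul_le_mul_of_nonneg_right (mul_le_mul_of_nonneg_right h8 (by positivity))
            (Nat.cast_nonneg _)) (Nat.cast_nonneg _)
  have hsplit : ∑ n ∈ Icc 1 X, GG a n * ∑ d ∈ A, ∑ p ∈ S, Tc (c d) b y H n (d * p) =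
      ∑ i ∈ range I, ∑ n ∈ Icc 1 X, GG a n * ∑ e ∈ Helper8.DW.Ei A S i,
          Tc (c (pcF A S i e)) b y H n e +
        ∑ n ∈ Icc 1 X, GG a n * ∑ x ∈ (A ×ˢ S).filter (fun x => I ≤ Helper8.DW.rk S x),
          Tc (c x.1) b y H n (x.1 * x.2) := by
    rw [Finset.sum_comm, ← Finset.sum_add_distrib]
    refine Finset.sum_congr rfl fun n _ => ?_
    rw [← Finset.mul_sum, ← mul_add, ← pc_split A S hSp I (fun d e => Tc (c d) b y H n e),
      Finset.sum_product]
  rw [hsplit]
  calc _ ≤ ∑ _i ∈ range I, ε / (2 * I) * (S.card / B) * H * X + ε / 2 * (S.card / B) * H * X :=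
        add_le_add (Finset.sum_le_sum fun i _ => hE i) hrank
    _ = ε * (S.card / B) * H * X := by
        rw [Finset.sum_const, Finset.card_range, nsmul_eq_mul]
        field_simp
        ring

end Pool.Agent.Helper39.SC
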