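import Pool.Agent.Helper39.SC.Defs

/-!
# SC-02: the singular series of a set of forms

MODEL: `Pool/Agent/Helper39/SP/SingD.lean` (theorem `SSD_sub_one`); the private lemmas there can be copied.
PROOF. Let `p ∈ PP N z`, `p > N ≥ 2 t + 2`, `n_p` the number of `w ∈ T` with `p ∤ w.1`. The local factor is
`∏_(w ∈ T, p ∣ w.1) (1 - 1/p)⁻¹ * (1 - rho/p) / (1 - 1/p)^(n_p)`, `rho = rhoT T p ≤ n_p` (by `Prim` a form with `p ∣ w.1` has no zero), and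
`∏_p ∏_(w, p ∣ w.1) (1 - 1/p)⁻¹ = ∏_(w ∈ T) kk N z w.1`. So it remains to see that `∏_p (1 - rho/p) / (1 - 1/p)^(n_p)` is `1` up to `C / N + ∑ g2`.
Lower bound: `(1 - rho/p)/(1 - 1/p)^(n_p) ≥ (1 - n_p/p)/(1 - 1/p)^(n_p) ≥ 1 - C₁/p^2`, so the product is `≥ 1 - C₁/N` (for `C₁ / N^2 ≤ 1`, otherwise trivial).
Upper bound: if no two different forms with `p ∤ w.1` have the same zero then `rho = n_p` and the factor is `≤ 1` (Bernoulli). Otherwise there are `w ≠ w'` in `T`,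
`p ∤ w.1`, `p ∣ w.1 w'.2 - w'.1 w.2`, and the factor is `≤ (1 - 1/p)^(-t) ≤ 1 + C₀/p`. So the product is `≤ ∏_(u ∈ T.offDiag) X_u`,
`X_u = ∏_(p ∈ DD N z (det u), p ∤ u.1.1) (1 + C₀/p) ≥ 1`. With `q = |offDiag| ≤ t^2`: `∏ X ≤ (max X)^q ≤ 1 + ∑ (X^q - 1)`, and
`X^q ≤ ∏ (1 + C/p)`, `1 + C / p ≥ (1 + C₀/p)^q` with `C = (1 + C₀)^(t^2)` (or any larger constant). (The case `T = ∅`: both sides trivial.)
-/

set_option autoImplicit false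

namespace Pool.Agent.Helper39.SC

open Finset
open Pool.Agent.Helper40.DB (PP VV DD)

theorem SST_sub (t : ℕ) : ∃ C : ℝ, 0 ≤ C ∧ ∀ N z : ℕ, 2 * t + 2 ≤ N → ∀ T : Finset (ℤ × ℤ), T.card ≤ t →
    Prim N z T → 0 ≤ SST N z T ∧ |SST N z T - ∏ w ∈ T, kk N z w.1| ≤
      (∏ w ∈ T, kk N z w.1) *
        (C / N + ∑ u ∈ T.offDiag, g2 C N z u.1.1 (u.1.1 * u.2.2 - u.2.1 * u.1.2)) := by
  sorry

end Pool.Agent.Helper39.SC
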