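import Pool.Agent.Helper39.SC.CorrT
import Pool.Agent.Helper39.SC.SingT
import Pool.Agent.Helper39.SP.Merten

/-!
# SC-04: the mean of the sieve weight on a progression

PROOF. `nuZ a N z (d m - h) = nuT N z T m`, `T` the image of `i ↦ (d, a i - h)`, `|T| = k`, `Prim N z T` (`PrimD`). `corrT k` with `b = 1`, `SST_sub k`: the determinants are
`d (a i' - a i)`, and a prime `p > N ≥ max a` which does not divide `d` does not divide it, so `g2 = 0` and `SST ≤ (kk N z d)^k (1 + C / N) ≤ C0^k (1 + C)`.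
-/

set_option autoImplicit false

namespace Pool.Agent.Helper39.SC

open Finset
open Pool.Agent.Helper40.DB (PP VV DD)

private lemma coe_filter_prod (S : Finset ℕ) (f : ℝ → ℝ) (P : ℤ → Prop) [DecidablePred P]
    [DecidablePred fun p : ℕ => P (p : ℤ)] (T : Finset ℤ) (hT : ∀ n : ℤ, n ∈ T ↔ ∃ p ∈ S, (p : ℤ) = n) :
    ∏ p ∈ T.filter P, f (p : ℝ) = ∏ p ∈ S.filter (fun p : ℕ => P (p : ℤ)), f (p : ℝ) := by
  symm
  refine Finset.prod_bij (fun p _ => (p : ℤ)) ?_ ?_ ?_ ?_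
  · intro p hp
    rw [Finset.mem_filter] at hp ⊢
    exact ⟨(hT _).2 ⟨p, hp.1, rfl⟩, hp.2⟩
  · intro a _ b _ hab
    exact_mod_cast hab
  · intro n hn
    rw [Finset.mem_filter, hT] at hn
    obtain ⟨⟨p, hp, rfl⟩, h2⟩ := hn
    exact ⟨p, Finset.mem_filter.2 ⟨hp, h2⟩, rfl⟩
  · intro p _
    push_cast
    rfl

open Classical in
private lemma g2_eq (C : ℝ) (N z : ℕ) (e t : ℤ) :
    g2 C N z e t = ∏ p ∈ (DD N z t).filter (fun p : ℕ => ¬ (p : ℤ) ∣ e), (1 + C / (p : ℝ)) - 1 := by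
  unfold g2
  first
  | rfl
  | (congr 1
     refine coe_filter_prod (DD N z t) (fun x => 1 + C / x) (fun p => ¬ p ∣ e) _ ?_
     intro n
     simp [eq_comm])

open Classical in
private lemma kk_eq (N z : ℕ) (u : ℤ) :
    kk N z u = ∏ p ∈ (PP N z).filter (fun p : ℕ => (p : ℤ) ∣ u), (1 - 1 / (p : ℝ))⁻¹ := by
  unfold kk
  first
  | rfl
  | (refine coe_filter_prod (PP N z) (fun x => (1 - 1 / x)⁻¹) (fun p => p ∣ u) _ ?_
     intro n
     simp [eq_comm])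

private lemma one_le_factor {p : ℕ} (hp : p.Prime) : 1 ≤ (1 - 1 / (p : ℝ))⁻¹ := by
  have h2 : (2 : ℝ) ≤ p := by exact_mod_cast hp.two_le
  have h3 : 0 < 1 / (p : ℝ) := by positivity
  have h4 : 1 / (p : ℝ) ≤ 1 / 2 := one_div_le_one_div_of_le (by norm_num) h2
  rw [one_le_inv₀ (by linarith)]
  linarith

private lemma factor_le {p : ℕ} (hp : p.Prime) : (1 - 1 / (p : ℝ))⁻¹ ≤ 1 + 2 / (p : ℝ) := by
  have h2 : (2 : ℝ) ≤ p := by exact_mod_cast hp.two_le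
  have h3 : 0 < 1 / (p : ℝ) := by positivity
  have h4 : 1 / (p : ℝ) ≤ 1 / 2 := one_div_le_one_div_of_le (by norm_num) h2
  rw [inv_le_iff_one_le_mul₀ (by linarith), show (2 : ℝ) / p = 2 * (1 / p) by ring]
  nlinarith

private lemma mem_PP {N z p : ℕ} (h : p ∈ PP N z) : N < p ∧ p ≤ z ∧ p.Prime := by
  rw [PP, Finset.mem_filter, Finset.mem_Ioc] at h
  exact ⟨h.1.1, h.1.2, h.2⟩

private lemma nuZ_bounds {k : ℕ} (a : Fin k → ℕ) (N z : ℕ) (n : ℤ) :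
    0 ≤ nuZ a N z n ∧ nuZ a N z n ≤ (VV N z)⁻¹ ^ k := by
  have h1 : 0 < VV N z := Pool.Agent.Helper40.DB.VV_pos N z
  have h2 : 0 ≤ (VV N z)⁻¹ ^ k := by positivity
  unfold nuZ
  split_ifs
  · exact ⟨h2, le_rfl⟩
  · exact ⟨le_rfl, h2⟩

private theorem kk_le_W' (N z d : ℕ) (hd : 1 ≤ d) : 1 ≤ kk N z d ∧ kk N z d ≤ Helper83.HLC.W d := by
  classical
  have hp : ∀ p ∈ (PP N z).filter (fun p : ℕ => (p : ℤ) ∣ (d : ℤ)), p.Prime := fun p hp =>
    (mem_PP (Finset.mem_filter.1 hp).1).2.2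
  constructor
  · rw [kk_eq]
    have h := Finset.prod_le_prod (s := (PP N z).filter (fun p : ℕ => (p : ℤ) ∣ (d : ℤ)))
      (f := fun _ => (1 : ℝ)) (g := fun p : ℕ => (1 - 1 / (p : ℝ))⁻¹) (fun _ _ => zero_le_one)
      (fun p h => one_le_factor (hp p h))
    simpa using h
  · rw [kk_eq]
    unfold Helper83.HLC.W
    calc ∏ p ∈ (PP N z).filter (fun p : ℕ => (p : ℤ) ∣ (d : ℤ)), (1 - 1 / (p : ℝ))⁻¹
        ≤ ∏ p ∈ (PP N z).filter (fun p : ℕ => (p : ℤ) ∣ (d : ℤ)), (1 + 2 / (p : ℝ)) := by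
          refine Finset.prod_le_prod (fun p h => ?_) fun p h => factor_le (hp p h)
          exact zero_le_one.trans (one_le_factor (hp p h))
      _ ≤ ∏ p ∈ d.primeFactors, (1 + 2 / (p : ℝ)) := by
          refine Finset.prod_le_prod_of_subset_of_one_le ?_ ?_ ?_
          · intro p h
            rw [Nat.mem_primeFactors]
            exact ⟨hp p h, Int.natCast_dvd_natCast.1 (Finset.mem_filter.1 h).2, by omega⟩
          · intro p _; positivity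
          · intro p _ _
            have : 0 ≤ 2 / (p : ℝ) := by positivity
            linarith

/-- The forms. -/
private def TT {k : ℕ} (a : Fin k → ℕ) (d : ℕ) (h : ℤ) : Finset (ℤ × ℤ) :=
  univ.image fun i => ((d : ℤ), (a i : ℤ) - h)

private lemma TT_card {k : ℕ} (a : Fin k → ℕ) (ha : Function.Injective a) (d : ℕ) (h : ℤ) :
    (TT a d h).card = k := by
  unfold TT
  rw [Finset.card_image_of_injective, Finset.card_univ, Fintype.card_fin]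
  intro i j hij
  have h1 : (a i : ℤ) - h = (a j : ℤ) - h := (Prod.ext_iff.1 hij).2
  apply ha
  have h2 : (a i : ℤ) = a j := by linarith
  exact_mod_cast h2

private lemma mem_TT {k : ℕ} {a : Fin k → ℕ} {d : ℕ} {h : ℤ} {w : ℤ × ℤ} :
    w ∈ TT a d h ↔ ∃ i, ((d : ℤ), (a i : ℤ) - h) = w := by
  unfold TT
  simp

private lemma nuZ_eq {k : ℕ} (a : Fin k → ℕ) (ha : Function.Injective a) (N z d : ℕ) (h m : ℤ) :
    nuZ a N z (d * m - h) = nuT N z (TT a d h) m := by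
  classical
  unfold nuZ nuT
  rw [TT_card a ha]
  have h1 : (∀ p ∈ PP N z, ∀ i, ¬ (p : ℤ) ∣ (d : ℤ) * m - h + a i) ↔
      (∀ p ∈ PP N z, ∀ w ∈ TT a d h, ¬ (p : ℤ) ∣ w.1 * m + w.2) := by
    refine forall₂_congr fun p _ => ?_
    constructor
    · intro h2 w hw
      obtain ⟨i, rfl⟩ := mem_TT.1 hw
      have h3 := h2 i
      have h4 : (d : ℤ) * m - h + a i = (d : ℤ) * m + ((a i : ℤ) - h) := by ring
      rwa [h4] at h3
    · intro h2 i
      have h3 := h2 _ (mem_TT.2 ⟨i, rfl⟩)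
      have h4 : (d : ℤ) * m - h + a i = (d : ℤ) * m + ((a i : ℤ) - h) := by ring
      rw [h4]
      exact h3
  simp only [h1]

private lemma TT_prim {k : ℕ} (a : Fin k → ℕ) (N z d : ℕ) (h : ℤ) (hp : PrimD a d h) :
    Prim N z (TT a d h) := by
  intro w hw p hpP h1 h2
  obtain ⟨i, rfl⟩ := mem_TT.1 hw
  have h3 := (hp i).isUnit_of_dvd' h1 h2
  have h4 := Int.isUnit_iff_natAbs_eq.1 h3
  rw [Int.natAbs_natCast] at h4
  exact (mem_PP hpP).2.2.one_lt.ne' h4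

private lemma g2_zero {k : ℕ} (a : Fin k → ℕ) (C : ℝ) (N z d : ℕ) (h : ℤ)
    (hN : ∀ i, a i ≤ N) (u : (ℤ × ℤ) × (ℤ × ℤ)) (hu : u ∈ (TT a d h).offDiag) :
    g2 C N z u.1.1 (u.1.1 * u.2.2 - u.2.1 * u.1.2) = 0 := by
  classical
  rw [Finset.mem_offDiag] at hu
  obtain ⟨i, hi⟩ := mem_TT.1 hu.1
  obtain ⟨j, hj⟩ := mem_TT.1 hu.2.1
  have hij : (a j : ℤ) - a i ≠ 0 := by
    intro h0
    apply hu.2.2
    rw [← hi, ← hj]
    have : (a j : ℤ) = a i := by linarith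
    rw [this]
  rw [g2_eq, sub_eq_zero]
  refine Finset.prod_eq_one fun p hp => ?_
  exfalso
  rw [Finset.mem_filter, DD, Finset.mem_filter] at hp
  obtain ⟨⟨hpP, h1⟩, h2⟩ := hp
  obtain ⟨h3, -, h4⟩ := mem_PP hpP
  rw [← hi, ← hj] at h1
  rw [← hi] at h2
  have h5 : (d : ℤ) * ((a j : ℤ) - h) - (d : ℤ) * ((a i : ℤ) - h) = (d : ℤ) * ((a j : ℤ) - a i) := by
    ring
  have h1' : (p : ℤ) ∣ (d : ℤ) * ((a j : ℤ) - a i) := by
    rw [← h5]
    exact h1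
  have h6 := ((Nat.prime_iff_prime_int.1 h4).dvd_or_dvd h1').resolve_left h2
  have h7 := Int.natAbs_dvd_natAbs.2 h6
  rw [Int.natAbs_natCast] at h7
  have h8 := Nat.le_of_dvd (Int.natAbs_pos.2 hij) h7
  have h9 := hN i
  have h10 := hN j
  omega

theorem T_one {k : ℕ} (a : Fin k → ℕ) (ha : Function.Injective a) (C0 : ℝ) :
    ∃ C : ℝ, 0 ≤ C ∧ ∃ N0 : ℕ, ∀ N : ℕ, N0 ≤ N → ∀ z d : ℕ, 1 ≤ d →
    kk N z d ≤ C0 → ∀ h : ℤ, PrimD a d h → ∀ (u : ℤ) (L : ℕ),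
    ∑ m ∈ Ico u (u + L), nuZ a N z (d * m - h) ≤
      C * L + (VV N z)⁻¹ ^ k * ((2 * (Nat.log 2 z : ℝ) + 3) * 2 ^ (60 * Nat.log 2 z)) := by
  obtain ⟨C2, hC2, hcorr⟩ := corrT k
  obtain ⟨C1, hC1, hsub⟩ := SST_sub k
  obtain ⟨A, hA⟩ : ∃ A : ℕ, ∀ i, a i ≤ A := ⟨∑ i, a i, fun i =>
    Finset.single_le_sum (f := a) (fun _ _ => Nat.zero_le _) (Finset.mem_univ i)⟩
  refine ⟨(1 + C2 / 4) * (|C0| ^ k * (1 + C1)), by positivity, max (2 * k + 2) A, ?_⟩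
  intro N hN z d hd hkk h hprim u L
  have hN1 : 2 * k + 2 ≤ N := le_trans (le_max_left _ _) hN
  have hN2 : ∀ i, a i ≤ N := fun i => (hA i).trans (le_trans (le_max_right _ _) hN)
  have hNpos : (1 : ℝ) ≤ N := by exact_mod_cast (by omega : 1 ≤ N)
  have hcard := TT_card a ha d h
  have hP := TT_prim a N z d h hprim
  have h1 := hcorr N z (by omega) (Nat.log 2 z) le_rfl (TT a d h) hcard.le hP 1 le_rfl u L
  obtain ⟨h2, h3⟩ := hsub N z hN1 (TT a d h) hcard.le hP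
  have hkk1 := (kk_le_W' N z d hd).1
  have h4 : ∏ w ∈ TT a d h, kk N z w.1 = kk N z d ^ k := by
    rw [Finset.prod_congr rfl (g := fun _ => kk N z d), Finset.prod_const, hcard]
    intro w hw
    obtain ⟨i, rfl⟩ := mem_TT.1 hw
    rfl
  have h5 : ∑ u ∈ (TT a d h).offDiag, g2 C1 N z u.1.1 (u.1.1 * u.2.2 - u.2.1 * u.1.2) = 0 :=
    Finset.sum_eq_zero fun u hu => g2_zero a C1 N z d h hN2 u hu
  rw [h4, h5, add_zero] at h3
  have h6 : kk N z d ^ k ≤ |C0| ^ k :=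
    pow_le_pow_left₀ (by linarith) (hkk.trans (le_abs_self _)) k
  have h7 : SST N z (TT a d h) ≤ |C0| ^ k * (1 + C1) := by
    have h8 := (abs_le.1 h3).2
    have h9 : C1 / N ≤ C1 := div_le_self hC1 hNpos
    have h10 : 0 ≤ kk N z d ^ k := by positivity
    calc SST N z (TT a d h) ≤ kk N z d ^ k * (1 + C1 / N) := by linarith
      _ ≤ |C0| ^ k * (1 + C1) := mul_le_mul h6 (by linarith) (by positivity) (by positivity)
  have h11 : ∑ m ∈ Ico u (u + L), nuZ a N z (d * m - h) = ∑ m ∈ Ico u (u + L), nuT N z (TT a d h) m :=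
    Finset.sum_congr rfl fun m _ => nuZ_eq a ha N z d h m
  rw [h11]
  have h12 := (abs_le.1 h1).2
  have hL : (0 : ℝ) ≤ L := Nat.cast_nonneg L
  have h13 : (1 + C2 / 4) * (L * SST N z (TT a d h)) ≤ (1 + C2 / 4) * (L * (|C0| ^ k * (1 + C1))) :=
    mul_le_mul_of_nonneg_left (mul_le_mul_of_nonneg_left h7 hL) (by positivity)
  have h14 : 20 * Nat.log 2 z * (1 + 2) = 60 * Nat.log 2 z := by ring
  rw [h14, pow_one] at h12
  calc ∑ m ∈ Ico u (u + L), nuT N z (TT a d h) m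
      ≤ (1 + C2 / 4) * (L * SST N z (TT a d h)) +
        (VV N z)⁻¹ ^ k * ((2 * (Nat.log 2 z : ℝ) + 3) * 2 ^ (60 * Nat.log 2 z)) := by linarith
    _ ≤ _ := by linarith

/-- The pointwise bound. -/
theorem abs_phZ_le {k : ℕ} (a : Fin k → ℕ) (N z : ℕ) (κ : ℝ) (hκ : 0 ≤ κ) (n : ℤ) :
    |phZ a N z κ n| ≤ (VV 0 N)⁻¹ ^ k * (nuZ a N z n + κ ^ k) ∧
      |phZ a N z κ n| ≤ (VV 0 N)⁻¹ ^ k * ((VV N z)⁻¹ ^ k + κ ^ k) := by
  obtain ⟨h1, h2⟩ := nuZ_bounds a 0 N n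
  obtain ⟨h3, h4⟩ := nuZ_bounds a N z n
  have h5 : 0 ≤ κ ^ k := pow_nonneg hκ k
  have h6 : |phZ a N z κ n| ≤ (VV 0 N)⁻¹ ^ k * (nuZ a N z n + κ ^ k) := by
    unfold phZ
    rw [abs_mul, abs_of_nonneg h1]
    refine mul_le_mul h2 ?_ (abs_nonneg _) (h1.trans h2)
    rw [abs_le]
    constructor <;> linarith
  exact ⟨h6, h6.trans (mul_le_mul_of_nonneg_left (by linarith) (h1.trans h2))⟩

/-- `1 ≤ kk ≤ W`. -/
theorem kk_le_W (N z d : ℕ) (hd : 1 ≤ d) : 1 ≤ kk N z d ∧ kk N z d ≤ Helper83.HLC.W d := kk_le_W' N z d hd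

end Pool.Agent.Helper39.SC
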