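import Pool.Agent.Helper39.SC.TPair
import Pool.Agent.Helper39.SC.TOne
import Pool.Agent.Helper39.SC.GPair

/-!
# SC-06: the second moment of the sieve weights over the pairs `(d, h)`

PROOF. `k = 0`: `phZ = 0`. Let `k ≥ 1`; `C0 ≥ 1` may be assumed (`E` nonempty, `W ≥ 1`). Let `C`, `N0` be the constants of `T_pair`, `T_one` (maximum), `C1` of `g_pair` for `C`, `C0`
and `c = 1`. `(VV 0 N)⁻¹ ≤ C' log N` (`SP.VV_inv_le_log`). Take `N = 4^b` with `b ≥ 1` so large that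
`(80 (b + 2))^(2 k) (VV 0 N)⁻¹^(2 k) * 2 * (C / N + C (1/4)^b + C k^2 C1 / √N) ≤ η / 4` and `N ≥ N0`. Now `b`, `N` are fixed; `s = 80 (b + 2)`, `Λ = (VV 0 N)⁻¹ ^ k`.
Expand the square: `∑_m (∑_(d, h) γ pw phZ)^2 ≤ ∑_((d, h), (d', h')) |∑_m pw pw' phZ phZ'|` over the pairs with `PrimD` (the others have `γ = 0`). The `m ∈ Icc 1 M` with
`1 ≤ d m - h ≤ X`, `1 ≤ d' m - h' ≤ X` form an interval `Ico u (u + L)` of integers with `L ≤ X / D + 1 ≤ 2 X / D`.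
(1) Coincident pairs: `d (a j - h') = d' (a i - h)` for some `i, j`. By `PrimD` (`d ∣ d' (a i - h)` and `d` is coprime to `a i - h`, so `d ∣ d'`; likewise `d' ∣ d`) this means `d = d'`,
`h' = h + a j - a i`: at most `k^2 |E| H` pairs. For them `∑_m |phZ phZ'| ≤ sup |phZ| ∑_m |phZ'| ≤ Λ ((VV N z)⁻¹^k + C0^k) Λ (C L + C0^k L + R)`
(`abs_phZ_le`, `kk_le_W`, `T_one`), `R = (VV N z)⁻¹^k (2 E + 3) 2^(60 E) ≤ X / D` for large `X` (`2^(60 E) ≤ z^60 ≤ X^(1/4)`, `D ≤ √X`),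
`(VV N z)⁻¹^k ≤ (C' log X)^k`; the total is at most `C(N) |E| H (log X)^k X / D ≤ (C(N) / K) (|E| H)^2 X / D`: choose `K`.
(2) The others: `T_pair`, summed over `h, h'` with `g_pair` (`u = a i`, `u' = a j`; `d, d' ∈ [D, 2 D)`, so `d' ≤ 2 d` and `d ≤ 2 H`; the determinants are not `0`; `log X ≤ H^2` because
`K (log X)^k ≤ |E| H ≤ D H ≤ H^2`, `k ≥ 1`, `K ≥ 1`, `log X ≥ 1`), for every `d, d'`: total at most
`(|E| H)^2 Λ^2 ((2 X / D) (C / N + C (1/4)^b + C k^2 (C1 / √N + η')) + C Rem)`, `η'` small after `N`, and `Rem ≤ η'' X / D` for large `X`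
(`2 ^ (20 E (b + 2)) ≤ z ^ (20 (b + 2)) ≤ X ^ (1/4)`, `(VV N z)⁻¹ ≤ exp 8 (E + 1)^8` (`Helper40.DB.VV_inv_le`), `E ≤ Nat.log 2 X`, `X / D ≥ √X`).
-/

set_option autoImplicit false

namespace Pool.Agent.Helper39.SC

open Finset
open Pool.Agent.Helper40.DB (PP VV DD)

theorem second {k : ℕ} (a : Fin k → ℕ) (ha : Function.Injective a) (C0 η : ℝ) (hη : 0 < η) :
    ∃ b N : ℕ, 1 ≤ N ∧ ∃ K X0 : ℕ, ∀ X : ℕ, X0 ≤ X → ∀ z : ℕ, 1 ≤ z → z ^ (80 * (b + 2)) ≤ X →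
    ∀ D H y M : ℕ, 1 ≤ D → D ^ 2 ≤ X → D ≤ H → H ≤ 2 * X → y ≤ X → ∀ E ⊆ Ico D (2 * D),
    (∀ d ∈ E, Helper83.HLC.W d ≤ C0) → K * Real.log X ^ k ≤ E.card * H →
    ∀ γ : ℕ → ℕ → ℝ, (∀ d h, |γ d h| ≤ 1) → (∀ d h : ℕ, ¬ PrimD a d h → γ d h = 0) →
    ((80 * (b + 2) : ℕ) : ℝ) ^ (2 * k) * ∑ m ∈ Icc 1 M, (∑ d ∈ E, ∑ h ∈ Ioc y (y + H),
      γ d h * pw X ((d : ℤ) * m - h) * phZ a N z (kk N z d) ((d : ℤ) * m - h)) ^ 2 ≤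
      η * (X / D) * (E.card * H) ^ 2 := by
  sorry

end Pool.Agent.Helper39.SC
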