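import Pool.Agent.Helper39.SC.CorrT
import Pool.Agent.Helper39.SC.SingT
import Pool.Agent.Helper39.SP.Merten

/-!
# SC-03: the correlation of the sieve weights on two progressions

MODEL: `Pool/Agent/Helper39/SP/TNon.lean` (theorem `T_non`).
PROOF. Let `W = N !` (no prime `p > N` divides `W`), `κ = kk N z d`, `κ' = kk N z d'`, `1 ≤ κ, κ' ≤ C0`. Write `m = W m' + c`, `0 ≤ c < W`: for every `c` the `m'` with
`u ≤ W m' + c < u + L` form an interval `Ico a' (a' + L_c)`, `∑_c L_c = L`. On a class the product of the two factors `nuZ a 0 N` is constant (a prime `p ≤ N` divides `W`),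
between `0` and `(VV 0 N)⁻¹ ^ (2 k)`. There remains `(x - κ^k) (x' - κ'^k) = x x' - κ'^k x - κ^k x' + κ^k κ'^k`, `x = nuZ a N z (d m - h)`, `x' = nuZ a N z (d' m - h')`.
As functions of `m'`: `x = nuT N z T`, `x' = nuT N z T'`, `x x' = nuT N z (T ∪ T')`, where `T` is the image of `i ↦ (d W, d c - h + a i)`, `T'` the image of
`j ↦ (d' W, d' c - h' + a j)`; `|T| = |T'| = k` (`a` injective), and `T`, `T'` are disjoint: a common form would give `d = d'`, `a i - h = a j - h'`, excluded by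
the hypothesis. `Prim`: a prime `p ∈ PP N z` with `p ∣ d W` divides `d`, hence not `d c + (a i - h)`, because `d` and `a i - h` are coprime (`PrimD`). `kk N z (d W) = kk N z d`.
`corrT (2 k)`, `SST_sub (2 k)`: `∑_(m') x x' = L_c κ^k κ'^k (1 + O(C/N + (1/4)^b + ∑ g2)) + O(R)`, etc.; the main terms cancel. The determinants: inside `T` it is
`d W (a i' - a i)`, and a prime `p > N ≥ max a` with `p ∤ d W` does not divide it, so `g2 = 0`; between `T` and `T'` it is
`d W (d' c - h' + a j) - d' W (d c - h + a i) = W (d (a j - h') - d' (a i - h))`, and `g2 C N z (d W) (W τ) = g2 C N z d τ`; for the pairs in the other order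
(`T'` first) the primes dividing `d'` are removed instead of those dividing `d`, but a prime dividing `d` and the determinant divides `d'` or (`PrimD`) is excluded, so the
two `g2` are equal: if `p ∣ d`, `p ∣ d (a j - h') - d' (a i - h)` then `p ∣ d'` since `p ∤ a i - h`, and conversely.
Sum over the `W = N !` classes: the remainders give `N ! * R`, `R = (VV N z)⁻¹ ^ (2 k) (2 E + 3) 2 ^ (20 E (b + 2))`, `E = Nat.log 2 z`.
-/

set_option autoImplicit false

namespace Pool.Agent.Helper39.SC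

open Finset
open Pool.Agent.Helper40.DB (PP VV DD)

theorem T_pair {k : ℕ} (a : Fin k → ℕ) (ha : Function.Injective a) (C0 : ℝ) :
    ∃ C : ℝ, 0 ≤ C ∧ ∃ N0 : ℕ, ∀ N : ℕ, N0 ≤ N → ∀ b : ℕ, 1 ≤ b → ∀ z d d' : ℕ, 1 ≤ d → 1 ≤ d' →
    kk N z d ≤ C0 → kk N z d' ≤ C0 → ∀ h h' : ℤ, PrimD a d h → PrimD a d' h' →
    (∀ i j, (d : ℤ) * ((a j : ℤ) - h') ≠ d' * ((a i : ℤ) - h)) → ∀ (u : ℤ) (L : ℕ),
    |∑ m ∈ Ico u (u + L), phZ a N z (kk N z d) (d * m - h) * phZ a N z (kk N z d') (d' * m - h')| ≤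
      (VV 0 N)⁻¹ ^ (2 * k) * (L * (C / N + C * (1 / 4) ^ b +
        C * ∑ i, ∑ j, g2 C N z d ((d : ℤ) * ((a j : ℤ) - h') - d' * ((a i : ℤ) - h))) +
        C * Rem k N z b) := by
  sorry

end Pool.Agent.Helper39.SC
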